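import Pool.Agent.Q283.MC.Loc

/-!
# The `L`-function of `y² = x³ + 16 N²` over a field generated by cube roots
-/

set_option autoImplicit false
set_option linter.unusedSectionVars false
set_option linter.style.haveILetI false

open scoped Classical

namespace Q283.MC

open NumberField IsDedekindDomain Module Filter
open Pool.Agent.H921R2.TatePole (below deg nm nm_eq nm_summable two_le_nm fiber_finite)
open Pool.Agent.H82R3.EK (luc luc_eq nm_cpow prime_cpow natCast_mem_iff)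
open W165.CE (av ap0 trace_good fac fac_sub_bound finite_bad intCast_mem_iff)
open Pool.Agent.Y692.QS (Ei w nr toC nr_star mul_star red red_zero toC_normSq)
open Pool.Agent.Y715.T.RecG (Pq)
open Pool.Agent.Y703.CT (WD IsL)
open Pool.Agent.Y715.T.Rec (cs nn)
open Pool.Agent.Y696.CT (ap_cube cube_two cube_three ap_short ap_one ap_bad dvd_delta aff_eq exists_pq)

/-- cubes do not change the coefficient -/
theorem ap_scale {p : ℕ} [hp : Fact p.Prime] {D c : ℕ} (hc : ¬ p ∣ c) :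
    Pool.Agent.W97.MT.ap (WD ((D * c ^ 3 : ℕ) : ℤ)) p = Pool.Agent.W97.MT.ap (WD (D : ℤ)) p := by
  have hc0 : (c : ZMod p) ≠ 0 := by
    rwa [Ne, ZMod.natCast_eq_zero_iff]
  unfold Pool.Agent.W97.MT.ap
  rw [aff_eq, aff_eq]
  congr 2
  refine Nat.card_congr (Equiv.subtypeEquiv ⟨fun P => (P.1 / (c : ZMod p) ^ 2,
    P.2 / (c : ZMod p) ^ 3), fun P => (P.1 * (c : ZMod p) ^ 2, P.2 * (c : ZMod p) ^ 3),
    fun P => ?_, fun P => ?_⟩ fun P => ?_)
  · refine Prod.ext ?_ ?_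
    · show P.1 / (c : ZMod p) ^ 2 * (c : ZMod p) ^ 2 = P.1
      field_simp
    · show P.2 / (c : ZMod p) ^ 3 * (c : ZMod p) ^ 3 = P.2
      field_simp
  · refine Prod.ext ?_ ?_
    · show P.1 * (c : ZMod p) ^ 2 / (c : ZMod p) ^ 2 = P.1
      field_simp
    · show P.2 * (c : ZMod p) ^ 3 / (c : ZMod p) ^ 3 = P.2
      field_simp
  · show P.2 ^ 2 + (((D * c ^ 3 : ℕ) : ℤ) : ZMod p) * P.2 = P.1 ^ 3 ↔
      (P.2 / (c : ZMod p) ^ 3) ^ 2 + (((D : ℕ) : ℤ) : ZMod p) * (P.2 / (c : ZMod p) ^ 3) =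
        (P.1 / (c : ZMod p) ^ 2) ^ 3
    push_cast
    have e1 : (P.2 / (c : ZMod p) ^ 3) ^ 2 + (D : ZMod p) * (P.2 / (c : ZMod p) ^ 3) =
        (P.2 ^ 2 + (D : ZMod p) * (c : ZMod p) ^ 3 * P.2) / (c : ZMod p) ^ 6 := by
      field_simp
    have e2 : (P.1 / (c : ZMod p) ^ 2) ^ 3 = P.1 ^ 3 / (c : ZMod p) ^ 6 := by
      rw [div_pow, ← pow_mul]
    rw [e1, e2, div_left_inj' (pow_ne_zero 6 hc0)]

/-- the local factor of the curve over the rational numbers, before the inversion -/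
noncomputable def EL (D : ℕ) (s : ℂ) (p : ℕ) : ℂ :=
  1 - (Pool.Agent.W97.MT.ap (WD (D : ℤ)) p : ℂ) * (p : ℂ) ^ (-s) +
      (if (p : ℤ) ∣ (WD (D : ℤ)).Δ then 0 else (p : ℂ) ^ (1 - 2 * s))

theorem EL_bad {D p : ℕ} (hp : p.Prime) (h : (p : ℤ) ∣ (WD (D : ℤ)).Δ) (s : ℂ) : EL D s p = 1 := by
  have : Fact p.Prime := ⟨hp⟩
  have hap : Pool.Agent.W97.MT.ap (WD (D : ℤ)) p = 0 := by
    rcases (dvd_delta hp (D : ℤ)).1 h with h | h
    · subst h
      exact ap_cube cube_three _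
    · exact ap_bad h
  unfold EL
  rw [if_pos h, hap]
  simp

theorem norm_X {p : ℕ} (hp : p.Prime) {s : ℂ} (hs : 1 ≤ s.re) :
    ‖(p : ℂ) ^ (-s)‖ ≤ ((p : ℕ) : ℝ)⁻¹ := by
  rw [Complex.norm_natCast_cpow_of_pos hp.pos, Complex.neg_re, ← Real.rpow_neg_one]
  apply Real.rpow_le_rpow_of_exponent_le
  · exact_mod_cast hp.one_lt.le
  · linarith

theorem EL_ne {D p : ℕ} (hp : p.Prime) {s : ℂ} (hs : 1 ≤ s.re) : EL D s p ≠ 0 := by
  have hpf : Fact p.Prime := ⟨hp⟩
  by_cases hbad : (p : ℤ) ∣ (WD (D : ℤ)).Δ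
  · rw [EL_bad hp hbad]
    exact one_ne_zero
  · have hX := norm_X hp hs
    set X : ℂ := (p : ℂ) ^ (-s) with hXd
    have hp2 : (2 : ℝ) ≤ p := by exact_mod_cast hp.two_le
    have hE : EL D s p = 1 - (Pool.Agent.W97.MT.ap (WD (D : ℤ)) p : ℂ) * X + p * X ^ 2 := by
      unfold EL
      rw [if_neg hbad, prime_cpow _ hp.ne_zero]
    rw [dvd_delta hp, not_or] at hbad
    obtain ⟨hp3, hpD⟩ := hbad
    have hm : p % 3 = 1 ∨ p % 3 = 2 := by
      have : p % 3 ≠ 0 := fun h => hp3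
        ((Nat.prime_dvd_prime_iff_eq Nat.prime_three hp).1 (Nat.dvd_of_mod_eq_zero h)).symm
      omega
    rw [hE]
    rcases hm with hm | hm
    · obtain ⟨π, hπ, hn⟩ := exists_pq hp hm
      have hpD' : ¬ p ∣ D := fun h => hpD (Int.natCast_dvd_natCast.2 h)
      obtain ⟨h1, h2⟩ := aq_one hp hm hπ hn hpD'
      have hpp2 : p ≠ 2 := by rintro rfl; norm_num at hm
      rw [aq_eq hpp2] at h1
      set α : ℂ := toC w ^ (-cs π (D : Ei)).val * toC π with hα
      set β : ℂ := toC w ^ (cs π (D : Ei)).val * toC (star π) with hβ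
      have hw1 : ‖toC w‖ = 1 := by
        have h3 := toC_w_three
        have h4 : ‖toC w‖ ^ 3 = 1 := by rw [← norm_pow, h3, norm_one]
        exact (pow_eq_one_iff_of_nonneg (norm_nonneg _) (by norm_num)).1 h4
      have hnorm : ∀ ρ : Ei, nr ρ = p → ∀ n : ℕ, ‖toC w ^ n * toC ρ‖ ^ 2 = p := by
        intro ρ hρ n
        rw [norm_mul, norm_pow, hw1, one_pow, one_mul, ← Complex.normSq_eq_norm_sq, toC_normSq, hρ]
        push_cast
        rfl
      have hα2 : ‖α‖ ^ 2 = p := hnorm π hn _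
      have hβ2 : ‖β‖ ^ 2 = p := hnorm (star π) (by rw [nr_star, hn]) _
      have key : ∀ γ : ℂ, ‖γ‖ ^ 2 = p → 1 - γ * X ≠ 0 := by
        intro γ hγ h0
        have h3 : γ * X = 1 := (sub_eq_zero.1 h0).symm
        have h4 : ‖γ‖ ^ 2 * ‖X‖ ^ 2 = 1 := by
          rw [← mul_pow, ← norm_mul, h3, norm_one, one_pow]
        rw [hγ] at h4
        have h5 : ‖X‖ ^ 2 ≤ ((p : ℝ)⁻¹) ^ 2 := pow_le_pow_left₀ (norm_nonneg _) hX 2
        have h6 : (p : ℝ) * ((p : ℝ)⁻¹) ^ 2 = (p : ℝ)⁻¹ := by field_simp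
        have h7 : (p : ℝ)⁻¹ ≤ 1 / 2 := by
          rw [inv_eq_one_div]
          exact one_div_le_one_div_of_le (by norm_num) hp2
        have h8 : (p : ℝ) * ‖X‖ ^ 2 ≤ (p : ℝ) * ((p : ℝ)⁻¹) ^ 2 :=
          mul_le_mul_of_nonneg_left h5 (by positivity)
        linarith
      have e1 : 1 - (Pool.Agent.W97.MT.ap (WD (D : ℤ)) p : ℂ) * X + p * X ^ 2 =
          (1 - α * X) * (1 - β * X) := by
        rw [← h1]
        have h2' : α * β = p := by rw [h2]; push_cast; rfl
        rw [← h2']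
        ring
      rw [e1]
      exact mul_ne_zero (key α hα2) (key β hβ2)
    · rw [ap_cube (cube_two hm), Int.cast_zero, zero_mul, sub_zero]
      intro h0
      have h3 : (p : ℂ) * X ^ 2 = -1 := by linear_combination h0
      have h4 : (p : ℝ) * ‖X‖ ^ 2 = 1 := by
        have := congrArg norm h3
        rwa [norm_mul, norm_pow, Complex.norm_natCast, norm_neg, norm_one] at this
      have h5 : ‖X‖ ^ 2 ≤ ((p : ℝ)⁻¹) ^ 2 := pow_le_pow_left₀ (norm_nonneg _) hX 2
      have h6 : (p : ℝ) * ((p : ℝ)⁻¹) ^ 2 = (p : ℝ)⁻¹ := by field_simp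
      have h7 : (p : ℝ)⁻¹ ≤ 1 / 2 := by
        rw [inv_eq_one_div]
        exact one_div_le_one_div_of_le (by norm_num) hp2
      have h8 : (p : ℝ) * ‖X‖ ^ 2 ≤ (p : ℝ) * ((p : ℝ)⁻¹) ^ 2 :=
        mul_le_mul_of_nonneg_left h5 (by positivity)
      linarith

theorem exists_fs {M : ℕ} (hM : M ≠ 0) : ∃ S : Finset Nat.Primes,
    (∀ p : Nat.Primes, p ∈ S ↔ (p : ℕ) ∣ M) ∧
    ∀ g : ℕ → ℂ, ∏ p ∈ S, g (p : ℕ) = ∏ p ∈ M.primeFactors, g p := by
  refine ⟨(M.primeFactors.subtype Nat.Prime : Finset {p : ℕ // p.Prime}), fun p => ?_,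
    fun g => Finset.prod_subtype_of_mem g fun p hp => (Nat.mem_primeFactors.1 hp).1⟩
  refine Finset.mem_subtype.trans ?_
  exact ⟨fun h => (Nat.mem_primeFactors.1 h).2.1, fun h => Nat.mem_primeFactors.2 ⟨p.2, h, hM⟩⟩

/-- the factors at the primes dividing `M` removed -/
theorem strip {D M : ℕ} {f : ℂ → ℂ} (hf : IsL (WD (D : ℤ)) f) (hM : M ≠ 0) {s : ℂ}
    (hs : 3 / 2 < s.re) :
    HasProd (fun p : Nat.Primes => if (p : ℕ) ∣ M then 1 else (EL D s p)⁻¹)
      (f s * ∏ p ∈ M.primeFactors, EL D s p) := by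
  have h1 : HasProd (fun p : Nat.Primes => (EL D s p)⁻¹) (f s) := hf.2 s hs
  have h2 : HasProd (fun p : Nat.Primes => if (p : ℕ) ∣ M then EL D s p else 1)
      (∏ p ∈ M.primeFactors, EL D s p) := by
    obtain ⟨S, hS, hprod⟩ := exists_fs hM
    have h3 := hasProd_prod_of_ne_finset_one (L := .unconditional _) (s := S)
      (f := fun p : Nat.Primes => if (p : ℕ) ∣ M then EL D s p else 1) (fun p hp =>
        if_neg (fun h => hp ((hS p).2 h)))
    have h5 : ∏ p ∈ S, (if (p : ℕ) ∣ M then EL D s p else 1) = ∏ p ∈ M.primeFactors, EL D s p := by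
      rw [← hprod]
      exact Finset.prod_congr rfl fun p hp => if_pos ((hS p).1 hp)
    rwa [h5] at h3
  have h4 := h1.mul h2
  refine h4.congr_fun fun p => ?_
  by_cases hp : (p : ℕ) ∣ M
  · rw [if_pos hp, if_pos hp, inv_mul_cancel₀ (EL_ne p.2 (by linarith))]
  · rw [if_neg hp, if_neg hp, mul_one]

variable {k : ℕ} {d : Fin k → ℕ} {N : ℕ}

/-- the number whose prime factors are left out -/
def MM {k : ℕ} (N : ℕ) (d : Fin k → ℕ) : ℕ := 6 * N * ∏ j, d j

theorem MM_ne (hN : N ≠ 0) (hd : ∀ j, d j ≠ 0) : MM N d ≠ 0 :=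
  mul_ne_zero (mul_ne_zero (by norm_num) hN) (Finset.prod_ne_zero_iff.2 fun j _ => hd j)

theorem MM_ndvd {p : ℕ} (hp : p.Prime) (h : ¬ p ∣ MM N d) :
    p ≠ 2 ∧ p ≠ 3 ∧ ¬ p ∣ N ∧ ∀ j, ¬ p ∣ d j := by
  unfold MM at h
  refine ⟨?_, ?_, ?_, ?_⟩
  · rintro rfl
    exact h (Dvd.dvd.mul_right (Dvd.dvd.mul_right (by norm_num) _) _)
  · rintro rfl
    exact h (Dvd.dvd.mul_right (Dvd.dvd.mul_right (by norm_num) _) _)
  · intro h1
    exact h (Dvd.dvd.mul_right (Dvd.dvd.mul_left h1 _) _)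
  · intro j hj
    exact h (Dvd.dvd.mul_left (hj.trans (Finset.dvd_prod_of_mem _ (Finset.mem_univ _))) _)

theorem fq_eq {D c : (Fin k → ZMod 3) → ℕ} (hDc : ∀ e, tw N d e = D e * (c e) ^ 3)
    {p : ℕ} (hp : p.Prime) (h : ¬ p ∣ MM N d) (e : Fin k → ZMod 3) (s : ℂ) :
    fq (tw N d e) s p = (EL (D e) s p)⁻¹ := by
  have : Fact p.Prime := ⟨hp⟩
  obtain ⟨h2, h3, hN, hd⟩ := MM_ndvd hp h
  have h4 := tw_ndvd hp hN hd e
  rw [hDc e] at h4
  have hDp : ¬ p ∣ D e := fun h => h4 (Dvd.dvd.mul_right h _)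
  have hcp : ¬ p ∣ c e := fun h => h4 (Dvd.dvd.mul_left (dvd_pow h (by norm_num)) _)
  unfold fq EL
  rw [hDc e, aq_eq h2, ap_scale hcp, if_neg]
  rw [dvd_delta hp, not_or]
  exact ⟨h3, fun h => hDp (Int.natCast_dvd_natCast.1 h)⟩

/-- the Euler factor over `F`, the places above the prime factors of `MM` left out -/
noncomputable def gv {F : Type} [Field F] [NumberField F] (M N : ℕ) (s : ℂ)
    (v : HeightOneSpectrum (𝓞 F)) : ℂ :=
  if ((M : ℕ) : 𝓞 F) ∈ v.asIdeal then 1 else fv N s v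

theorem gv_mult {F : Type} [Field F] [NumberField F] (hN : N ≠ 0) (hd : ∀ j, d j ≠ 0) {s : ℂ}
    (hs : 3 / 2 < s.re) : Multipliable (gv (F := F) (MM N d) N s) := by
  have hM := MM_ne hN hd
  have hsum := nm_summable (K := F) (x := s.re - 1 / 2) (by linarith)
  have h1 : Summable (fun v : HeightOneSpectrum (𝓞 F) => ‖gv (MM N d) N s v - 1‖) := by
    refine Summable.of_norm_bounded_eventually (hsum.mul_left 6) ?_
    have h2 := hsum.tendsto_cofinite_zero.eventually (Iio_mem_nhds (by norm_num : (0 : ℝ) < 1 / 6))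
    filter_upwards [h2] with v hv
    rw [norm_norm]
    unfold gv
    by_cases h3 : ((MM N d : ℕ) : 𝓞 F) ∈ v.asIdeal
    · rw [if_pos h3, sub_self, norm_zero]
      positivity
    · rw [if_neg h3]
      rw [natCast_mem_iff] at h3
      obtain ⟨a2, a3, a4, a5⟩ := MM_ndvd (below v).2 h3
      have a6 := not_dvd_disc (below v).2 a2 a3 a4
      have := fac_sub_bound (N := 0) (c := 0) v a6 s hs (le_of_lt hv)
      unfold fac at this
      rwa [if_neg (fun h => a6 ((intCast_mem_iff v _).1 h))] at this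
  have h2 := multipliable_one_add_of_summable h1
  refine h2.congr (fun v => ?_)
  ring

theorem hasProd_pow {ι : Type} {g : ι → ℂ} {a : ℂ} (h : HasProd g a) (r : ℕ) :
    HasProd (fun i => g i ^ r) (a ^ r) := by
  induction r with
  | zero => simpa using hasProd_one
  | succ r ih =>
    have := ih.mul h
    simpa only [pow_succ] using this

/-- **The `L`-function over `F`.** -/
theorem glo {r : ℕ} {F : Type} [Field F] [NumberField F] {θ : Fin k → F} (h : Rd r F d θ)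
    (hN : N ≠ 0) (hd : ∀ j, d j ≠ 0) {D c : (Fin k → ZMod 3) → ℕ}
    (hDc : ∀ e, tw N d e = D e * (c e) ^ 3) {f : (Fin k → ZMod 3) → ℂ → ℂ}
    (hf : ∀ e, IsL (WD ((D e : ℕ) : ℤ)) (f e)) :
    ∃ L : ℂ → ℂ, Differentiable ℂ L ∧
      (∀ s : ℂ, 3 / 2 < s.re → HasProd (gv (F := F) (MM N d) N s) (L s)) ∧
      ((∀ e, f e 1 ≠ 0) → L 1 ≠ 0) := by
  have hM := MM_ne hN hd
  refine ⟨fun s => (∏ e, (f e s * ∏ p ∈ (MM N d).primeFactors, EL (D e) s p)) ^ r, ?_,
    fun s hs => ?_, fun hne => ?_⟩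
  · refine Differentiable.fun_pow ?_ r
    refine Differentiable.fun_finsetProd fun e _ => (hf e).1.mul ?_
    refine Differentiable.fun_finsetProd fun p hp => ?_
    have hp0 : (p : ℂ) ≠ 0 := by
      exact_mod_cast (Nat.mem_primeFactors.1 hp).1.ne_zero
    unfold EL
    refine Differentiable.add (Differentiable.sub (differentiable_const _)
      ((differentiable_const _).mul ?_)) ?_
    · exact (differentiable_id.neg).const_cpow (Or.inl hp0)
    · split_ifs
      · exact differentiable_const _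
      · exact (((differentiable_const _).sub ((differentiable_const _).mul
          differentiable_id))).const_cpow (Or.inl hp0)
  · have h1 : HasProd (fun p : Nat.Primes => (∏ e : Fin k → ZMod 3,
        (if (p : ℕ) ∣ MM N d then 1 else (EL (D e) s p)⁻¹)) ^ r)
        ((∏ e, (f e s * ∏ p ∈ (MM N d).primeFactors, EL (D e) s p)) ^ r) :=
      hasProd_pow (hasProd_prod fun e _ => strip (hf e) hM hs) r
    have h2 : ∀ p : Nat.Primes, (∏ e : Fin k → ZMod 3,
        (if (p : ℕ) ∣ MM N d then 1 else (EL (D e) s p)⁻¹)) ^ r =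
        ∏ v : {v : HeightOneSpectrum (𝓞 F) // below v = p}, gv (MM N d) N s v.1 := by
      intro p
      by_cases hp : (p : ℕ) ∣ MM N d
      · have e1 : ∀ v : {v : HeightOneSpectrum (𝓞 F) // below v = p},
            gv (MM N d) N s v.1 = 1 := by
          intro v
          unfold gv
          rw [if_pos]
          rw [natCast_mem_iff, v.2]
          exact hp
        simp only [if_pos hp, Finset.prod_const_one, one_pow]
        rw [Finset.prod_congr rfl fun v _ => e1 v, Finset.prod_const_one]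
      · have e1 : ∀ v : {v : HeightOneSpectrum (𝓞 F) // below v = p},
            gv (MM N d) N s v.1 = fv N s v.1 := by
          intro v
          unfold gv
          rw [if_neg]
          rw [natCast_mem_iff, v.2]
          exact hp
        obtain ⟨a2, a3, a4, a5⟩ := MM_ndvd p.2 hp
        simp only [if_neg hp]
        rw [Finset.prod_congr rfl fun v _ => e1 v, local_id h p a2 a3 a4 a5]
        congr 1
        exact Finset.prod_congr rfl fun e _ => (fq_eq hDc p.2 hp e s).symm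
    simp_rw [h2] at h1
    rw [← (Equiv.sigmaFiberEquiv (below (K := F))).hasProd_iff]
    refine HasProd.sigma_of_hasProd h1 (fun p => ?_) ?_
    · exact hasProd_fintype _
    · exact (Equiv.sigmaFiberEquiv (below (K := F))).multipliable_iff.2 (gv_mult hN hd hs)
  · refine pow_ne_zero r ?_
    rw [Finset.prod_ne_zero_iff]
    intro e _
    refine mul_ne_zero (hne e) (Finset.prod_ne_zero_iff.2 fun p hp => ?_)
    exact EL_ne (Nat.mem_primeFactors.1 hp).1 (by simp)

end Q283.MC
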