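import Pool.Agent.Q283.MC.Deg
import Pool.Agent.W165.CE.Euler
import Pool.Agent.Y696.CT.LQ

/-!
# The local identity between the Euler factors over `F` and those of the cubic twists over `ℚ`
-/

set_option autoImplicit false
set_option linter.unusedSectionVars false
set_option linter.style.haveILetI false

open scoped Classical

namespace Q283.MC

open NumberField IsDedekindDomain Module
open Pool.Agent.H921R2.TatePole (below deg nm nm_eq)
open Pool.Agent.H82R3.EK (luc luc_eq nm_cpow prime_cpow)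
open W165.CE (av ap0 trace_good)
open Pool.Agent.Y692.QS (Ei w nr toC nr_star mul_star red red_zero)
open Pool.Agent.Y715.T.Rec (cs nn)
open Pool.Agent.Y715.T.RecG (Pq cs_spec cs_of cs_prod cs_pow)
open Pool.Agent.Y703.CT (WD)
open Pool.Agent.Y696.CT (ap_cube cube_two ap_short ap_one tw_add cs_mul' exists_pq int_ndvd)

/-- the number `N ∏ d_j ^ e_j` -/
def tw {k : ℕ} (N : ℕ) (d : Fin k → ℕ) (e : Fin k → ZMod 3) : ℕ := N * ∏ j, d j ^ (e j).val

/-- the coefficient of `y² = x³ + 16 D²` -/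
noncomputable def aq (D p : ℕ) : ℤ := ap0 0 (16 * (D : ℤ) ^ 2) p

theorem aq_eq {p : ℕ} [Fact p.Prime] (hp2 : p ≠ 2) (D : ℕ) :
    aq D p = Pool.Agent.W97.MT.ap (WD D) p := (ap_short hp2 (D : ℤ)).symm

/-- the Euler factor at a good place -/
noncomputable def fv {F : Type} [Field F] [NumberField F] (N : ℕ) (s : ℂ)
    (v : HeightOneSpectrum (𝓞 F)) : ℂ :=
  (1 - ((av 0 (16 * (N : ℤ) ^ 2) v : ℤ) : ℂ) * ((Ideal.absNorm v.asIdeal : ℕ) : ℂ) ^ (-s) +
    ((Ideal.absNorm v.asIdeal : ℕ) : ℂ) ^ (1 - 2 * s))⁻¹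

/-- the Euler factor over `ℚ` -/
noncomputable def fq (D : ℕ) (s : ℂ) (p : ℕ) : ℂ :=
  (1 - ((aq D p : ℤ) : ℂ) * (p : ℂ) ^ (-s) + (p : ℂ) ^ (1 - 2 * s))⁻¹

theorem not_dvd_disc {N p : ℕ} (hp : p.Prime) (hp2 : p ≠ 2) (hp3 : p ≠ 3) (hN : ¬ p ∣ N) :
    ¬ (p : ℤ) ∣ 2 * (4 * (0 : ℤ) ^ 3 + 27 * (16 * (N : ℤ) ^ 2) ^ 2) := by
  intro h
  have e : 2 * (4 * (0 : ℤ) ^ 3 + 27 * (16 * (N : ℤ) ^ 2) ^ 2) =
      ((2 ^ 9 * 3 ^ 3 * N ^ 4 : ℕ) : ℤ) := by
    push_cast
    ring
  rw [e, Int.natCast_dvd_natCast] at h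
  rcases (Nat.Prime.dvd_mul hp).1 h with h | h
  · rcases (Nat.Prime.dvd_mul hp).1 h with h | h
    · exact hp2 ((Nat.prime_dvd_prime_iff_eq hp Nat.prime_two).1 (hp.dvd_of_dvd_pow h))
    · exact hp3 ((Nat.prime_dvd_prime_iff_eq hp Nat.prime_three).1 (hp.dvd_of_dvd_pow h))
  · exact hN (hp.dvd_of_dvd_pow h)

/-- the factor with the roots -/
theorem fv_roots {F : Type} [Field F] [NumberField F] {N : ℕ} (v : HeightOneSpectrum (𝓞 F))
    (hp2 : (below v : ℕ) ≠ 2) (hp3 : (below v : ℕ) ≠ 3) (hN : ¬ (below v : ℕ) ∣ N) {α β : ℂ}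
    (h1 : α + β = (aq N (below v) : ℤ)) (h2 : α * β = ((below v : ℕ) : ℤ)) (s : ℂ) :
    fv N s v = ((1 - (α * ((below v : ℕ) : ℂ) ^ (-s)) ^ deg v) *
      (1 - (β * ((below v : ℕ) : ℂ) ^ (-s)) ^ deg v))⁻¹ := by
  have hl := luc_eq h1 h2 (deg v)
  unfold fv
  rw [trace_good v (not_dvd_disc (below v).2 hp2 hp3 hN)]
  have hl' : ((luc (ap0 0 (16 * (N : ℤ) ^ 2) (below v)) ((below v : ℕ) : ℤ) (deg v) : ℤ) : ℂ) =
      α ^ deg v + β ^ deg v := hl
  rw [hl', nm_cpow, nm_cpow, prime_cpow _ (below v).2.ne_zero]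
  have h3 : ((below v : ℕ) : ℂ) = α * β := by rw [h2]; push_cast; rfl
  congr 1
  set X := ((below v : ℕ) : ℂ) ^ (-s)
  rw [h3, mul_pow, mul_pow, mul_pow, mul_pow, ← pow_mul, mul_comm 2 (deg v), pow_mul]
  ring

section cases
variable {k : ℕ} {d : Fin k → ℕ} {N : ℕ}

theorem tw_ndvd {p : ℕ} (hp : p.Prime) (hN : ¬ p ∣ N) (hd : ∀ j, ¬ p ∣ d j) (e : Fin k → ZMod 3) :
    ¬ p ∣ tw N d e := by
  unfold tw
  intro h
  rcases (Nat.Prime.dvd_mul hp).1 h with h | h
  · exact hN h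
  · obtain ⟨j, -, h⟩ := (hp.prime.dvd_finsetProd_iff _).1 h
    exact hd j (hp.dvd_of_dvd_pow h)

theorem cs_tw {p : ℕ} (hp : p.Prime) {π : Ei} (hπ : Pq π) (hn : nr π = p) (hN : ¬ p ∣ N)
    (hd : ∀ j, ¬ p ∣ d j) (e : Fin k → ZMod 3) :
    cs π ((tw N d e : ℕ) : Ei) = cs π (N : Ei) + ∑ j, e j * cs π (d j : Ei) := by
  have : Fact p.Prime := ⟨hp⟩
  have hnd : ∀ a : ℕ, ¬ p ∣ a → ¬ π ∣ (a : Ei) := by
    intro a ha h
    refine int_ndvd (D := (a : ℤ)) hn (fun h' => ha (Int.natCast_dvd_natCast.1 h')) ?_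
    rwa [Int.cast_natCast]
  have h1 : ∀ j, ¬ π ∣ ((d j : Ei)) ^ (e j).val := fun j h =>
    hnd _ (hd j) (hπ.prime.dvd_of_dvd_pow h)
  unfold tw
  push_cast
  rw [cs_mul' hπ (hnd _ hN) (fun h => by
    obtain ⟨j, -, h2⟩ := (hπ.prime.dvd_finsetProd_iff _).1 h
    exact h1 j h2), cs_prod hπ.prime hπ.norm _ _ fun j _ => h1 j]
  congr 1
  refine Finset.sum_congr rfl fun j _ => ?_
  rw [cs_pow hπ.prime hπ.norm (hnd _ (hd j)), ZMod.natCast_zmod_val]

/-- the roots at a prime `1` modulo `3` -/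
theorem aq_one {p : ℕ} (hp : p.Prime) (hm : p % 3 = 1) {π : Ei} (hπ : Pq π)
    (hn : nr π = p) {D : ℕ} (hD : ¬ p ∣ D) :
    toC w ^ (-cs π (D : Ei)).val * toC π + toC w ^ (cs π (D : Ei)).val * toC (star π) =
      ((aq D p : ℤ) : ℂ) ∧
    (toC w ^ (-cs π (D : Ei)).val * toC π) * (toC w ^ (cs π (D : Ei)).val * toC (star π)) =
      ((p : ℕ) : ℤ) := by
  have : Fact p.Prime := ⟨hp⟩
  have hp2 : p ≠ 2 := by rintro rfl; norm_num at hm
  have hp3 : p ≠ 3 := by rintro rfl; norm_num at hm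
  have h1 := congrArg toC (ap_one hπ hn hp3 hp2 (D := (D : ℤ)) (fun h => hD
    (Int.natCast_dvd_natCast.1 h)))
  rw [map_intCast, map_add, star_mul', map_mul, map_mul] at h1
  have hst : star (w ^ (-cs π (((D : ℕ) : ℤ) : Ei)).val : Ei) = w ^ (cs π (((D : ℕ) : ℤ) : Ei)).val := by
    generalize cs π (((D : ℕ) : ℤ) : Ei) = c
    revert c
    decide
  rw [hst, map_pow, map_pow, Int.cast_natCast] at h1
  constructor
  · rw [aq_eq hp2]
    exact h1.symm
  · have hww : toC w ^ (-cs π (D : Ei)).val * toC w ^ (cs π (D : Ei)).val = 1 := by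
      rw [← tw_add, neg_add_cancel, ZMod.val_zero, pow_zero]
    have hpC : toC π * toC (star π) = ((p : ℕ) : ℂ) := by
      rw [← map_mul, mul_star, hn]
      push_cast
      rw [map_natCast]
    push_cast
    linear_combination (toC π * toC (star π)) * hww + hpC

theorem toC_w_three : toC w ^ 3 = 1 := by
  rw [← map_pow]
  have : (w : Ei) ^ 3 = 1 := by decide
  rw [this, map_one]

theorem prod_three (Y : ℂ) : ∏ t : ZMod 3, (1 - toC w ^ t.val * Y) = 1 - Y ^ 3 := by
  have h1 : ∏ t : ZMod 3, (1 - toC w ^ t.val * Y) =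
      (1 - toC w ^ 0 * Y) * (1 - toC w ^ 1 * Y) * (1 - toC w ^ 2 * Y) := Fin.prod_univ_three _
  rw [h1]
  have h2 : toC w ^ 2 + toC w + 1 = 0 := by
    rw [← map_pow, ← map_one toC, ← map_add, ← map_add]
    have : (w : Ei) ^ 2 + w + 1 = 0 := by decide
    rw [this, map_zero]
  linear_combination (-Y + Y ^ 2 - (toC w - 1) * Y ^ 3) * h2 + Y ^ 2 * (toC w - 1) * h2

/-- products over the values of a linear form -/
theorem prod_lin (u : Fin k → ZMod 3) (hu : u ≠ 0) (g : ZMod 3 → ℂ) :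
    ∏ e : Fin k → ZMod 3, g (∑ j, e j * u j) = (∏ t, g t) ^ (3 ^ (k - 1)) := by
  obtain ⟨j0, hj0⟩ : ∃ j, u j ≠ 0 := by
    by_contra hcon
    push Not at hcon
    exact hu (funext hcon)
  let φ : (Fin k → ZMod 3) →+ ZMod 3 :=
    { toFun := fun e => ∑ j, e j * u j
      map_zero' := by simp
      map_add' := fun a b => by
        rw [← Finset.sum_add_distrib]
        exact Finset.sum_congr rfl fun j _ => by rw [Pi.add_apply, add_mul] }
  have hφ : ∀ t, t ∈ Set.range φ := by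
    intro t
    refine ⟨Pi.single j0 (t * u j0), ?_⟩
    show ∑ j, (Pi.single j0 (t * u j0) : Fin k → ZMod 3) j * u j = t
    rw [Finset.sum_eq_single j0]
    · rw [Pi.single_eq_same]
      generalize u j0 = a at hj0
      revert t a
      decide
    · intro j _ hj
      rw [Pi.single_eq_of_ne hj, zero_mul]
    · intro h
      exact absurd (Finset.mem_univ _) h
  set c := (Finset.univ.filter fun e : Fin k → ZMod 3 => φ e = 0).card with hc
  have hfib : ∀ t, (Finset.univ.filter fun e : Fin k → ZMod 3 => φ e = t).card = c := fun t =>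
    AddMonoidHom.card_fiber_eq_of_mem_range φ (hφ t) (hφ 0)
  have htot : 3 ^ k = 3 * c := by
    have h1 := Finset.card_eq_sum_card_fiberwise (f := φ) (s := Finset.univ) (t := Finset.univ)
      fun _ _ => Finset.mem_univ _
    rw [Finset.sum_congr rfl fun t _ => hfib t, Finset.sum_const, Finset.card_univ,
      Finset.card_univ, ZMod.card, Fintype.card_fun, ZMod.card, Fintype.card_fin, smul_eq_mul] at h1
    exact h1
  have hk : 0 < k := (Fin.pos_iff_nonempty.2 ⟨j0⟩)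
  have hc3 : c = 3 ^ (k - 1) := by
    obtain ⟨n, rfl⟩ := Nat.exists_eq_succ_of_ne_zero hk.ne'
    rw [Nat.succ_sub_one]
    rw [Nat.pow_succ] at htot
    omega
  rw [← hc3, ← Finset.prod_pow, ← Finset.prod_fiberwise Finset.univ φ]
  refine Finset.prod_congr rfl fun t _ => ?_
  rw [← hfib t]
  refine Finset.prod_eq_pow_card fun e he => ?_
  rw [Finset.mem_filter] at he
  exact congrArg g he.2

/-- the residue symbol and the powers -/
theorem cs_pow_iff {p : ℕ} (hp : p.Prime) {π : Ei} (hπ : Pq π) (hn : nr π = p) {a : ℕ}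
    (ha : ¬ p ∣ a) : (a : ZMod p) ^ ((p - 1) / 3) = 1 ↔ cs π (a : Ei) = 0 := by
  have : Fact p.Prime := ⟨hp⟩
  have hnd : ¬ π ∣ (a : Ei) := by
    intro h
    refine int_ndvd (D := (a : ℤ)) hn (fun h' => ha (Int.natCast_dvd_natCast.1 h')) ?_
    rwa [Int.cast_natCast]
  have hnn : nn π = (p - 1) / 3 := by
    unfold nn
    rw [hn, Int.natAbs_natCast]
  constructor
  · intro h
    apply cs_of hπ.prime hπ.norm
    rw [ZMod.val_zero, pow_zero, ← red_zero hn, map_sub, map_pow, map_one, map_natCast, hnn, h,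
      sub_self]
  · intro h
    have h1 := cs_spec hπ.prime hπ.norm hnd
    rw [h, ZMod.val_zero, pow_zero, ← red_zero hn, map_sub, map_pow, map_one, map_natCast, hnn] at h1
    exact sub_eq_zero.1 h1

theorem local_id {r : ℕ} {F : Type} [Field F] [NumberField F] {θ : Fin k → F} (h : Rd r F d θ)
    (p : Nat.Primes) (hp2 : (p : ℕ) ≠ 2) (hp3 : (p : ℕ) ≠ 3) (hN : ¬ (p : ℕ) ∣ N)
    (hpd : ∀ j, ¬ (p : ℕ) ∣ d j) (s : ℂ) :
    ∏ v : {v : HeightOneSpectrum (𝓞 F) // below v = p}, fv N s v.1 =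
      (∏ e : Fin k → ZMod 3, fq (tw N d e) s p) ^ r := by
  have hpf : Fact (p : ℕ).Prime := ⟨p.2⟩
  obtain ⟨h1, h2, h3, h4⟩ := degrees h p hp3 hpd
  have hm : (p : ℕ) % 3 = 1 ∨ (p : ℕ) % 3 = 2 := by
    have : (p : ℕ) % 3 ≠ 0 := fun h => hp3
      ((Nat.prime_dvd_prime_iff_eq Nat.prime_three p.2).1 (Nat.dvd_of_mod_eq_zero h)).symm
    omega
  have hbel : ∀ v : HeightOneSpectrum (𝓞 F), below v = p → (below v : ℕ) = (p : ℕ) :=
    fun v hv => congrArg Subtype.val hv
  set X : ℂ := ((p : ℕ) : ℂ) ^ (-s) with hX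
  rcases hm with hm | hm
  · -- split primes
    obtain ⟨π, hπ, hn⟩ := exists_pq p.2 hm
    set ϖ := toC π with hϖ
    set ϖ' := toC (star π) with hϖ'
    let G : ZMod 3 → ℂ := fun t => (1 - toC w ^ (-t).val * (ϖ * X)) * (1 - toC w ^ t.val * (ϖ' * X))
    have hprodG : ∏ t, G t = (1 - (ϖ * X) ^ 3) * (1 - (ϖ' * X) ^ 3) := by
      rw [Finset.prod_mul_distrib, ← prod_three (ϖ * X), ← prod_three (ϖ' * X)]
      congr 1
      exact Fintype.prod_equiv (Equiv.neg (ZMod 3)) _ _ fun t => rfl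
    have hG0 : ∀ e : Fin k → ZMod 3, fq (tw N d e) s p =
        (G (cs π (N : Ei) + ∑ j, e j * cs π (d j : Ei)))⁻¹ := by
      intro e
      obtain ⟨a1, a2⟩ := aq_one p.2 hm hπ hn (tw_ndvd p.2 hN hpd e)
      rw [← cs_tw p.2 hπ hn hN hpd e]
      unfold fq
      rw [← a1, prime_cpow _ p.2.ne_zero]
      have a3 : ((p : ℕ) : ℂ) = (toC w ^ (-cs π ((tw N d e : ℕ) : Ei)).val * toC π) *
        (toC w ^ (cs π ((tw N d e : ℕ) : Ei)).val * toC (star π)) := by
        rw [a2]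
        push_cast
        rfl
      congr 1
      simp only [G]
      linear_combination X ^ 2 * a3
    obtain ⟨b1, b2⟩ := aq_one p.2 hm hπ hn hN
    have hfv : ∀ v : HeightOneSpectrum (𝓞 F), below v = p → fv N s v =
        ((1 - (toC w ^ (-cs π (N : Ei)).val * ϖ * X) ^ deg v) *
          (1 - (toC w ^ (cs π (N : Ei)).val * ϖ' * X) ^ deg v))⁻¹ := by
      intro v hv
      have hb := hbel v hv
      have e1 := fv_roots (N := N) v (by rw [hb]; exact hp2) (by rw [hb]; exact hp3)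
        (by rw [hb]; exact hN) (α := toC w ^ (-cs π (N : Ei)).val * ϖ)
        (β := toC w ^ (cs π (N : Ei)).val * ϖ') (by rw [hb]; exact b1) (by rw [hb]; exact b2) s
      rw [e1, hb]
    by_cases hall : ∀ j, ((d j : ℕ) : ZMod p) ^ (((p : ℕ) - 1) / 3) = 1
    · have hdeg := h3 hm hall
      have hu : ∀ j, cs π (d j : Ei) = 0 := fun j => (cs_pow_iff p.2 hπ hn (hpd j)).1 (hall j)
      have e1 : ∀ v : {v : HeightOneSpectrum (𝓞 F) // below v = p}, fv N s v.1 =
          (G (cs π (N : Ei)))⁻¹ := by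
        intro v
        rw [hfv v.1 v.2, hdeg v.1 v.2, pow_one, pow_one]
        simp only [G]
        congr 1
        ring
      have e2 : ∀ e : Fin k → ZMod 3, fq (tw N d e) s p = (G (cs π (N : Ei)))⁻¹ := by
        intro e
        rw [hG0 e]
        simp only [hu, mul_zero, Finset.sum_const_zero, add_zero]
      have e3 : Fintype.card {v : HeightOneSpectrum (𝓞 F) // below v = p} = r * 3 ^ k := by
        rw [← h1, Finset.sum_congr rfl fun v _ => hdeg v.1 v.2]
        simp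
      rw [Finset.prod_congr rfl fun v _ => e1 v, Finset.prod_congr rfl fun e _ => e2 e,
        Finset.prod_const, Finset.prod_const, Finset.card_univ, Finset.card_univ, e3,
        Fintype.card_fun, ZMod.card, Fintype.card_fin, ← pow_mul, mul_comm r]
    · have hdeg := h4 hm hall
      have hu : (fun j => cs π (d j : Ei)) ≠ 0 := by
        intro h0
        apply hall
        intro j
        exact (cs_pow_iff p.2 hπ hn (hpd j)).2 (congrFun h0 j)
      have hk0 : k ≠ 0 := by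
        rintro rfl
        exact hu (Subsingleton.elim _ _)
      have e1 : ∀ v : {v : HeightOneSpectrum (𝓞 F) // below v = p}, fv N s v.1 =
          (∏ t, G t)⁻¹ := by
        intro v
        rw [hfv v.1 v.2, hdeg v.1 v.2, hprodG]
        have hw3 : ∀ c : ZMod 3, (toC w ^ c.val) ^ 3 = 1 := fun c => by
          rw [← pow_mul, mul_comm, pow_mul, toC_w_three, one_pow]
        rw [mul_pow, mul_pow, mul_pow, mul_pow, hw3, hw3, mul_pow, mul_pow]
        congr 1
        ring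
      have e3 : 3 * Fintype.card {v : HeightOneSpectrum (𝓞 F) // below v = p} = r * 3 ^ k := by
        rw [← h1, Finset.sum_congr rfl fun v _ => hdeg v.1 v.2]
        simp [mul_comm]
      have e4 : Fintype.card {v : HeightOneSpectrum (𝓞 F) // below v = p} = 3 ^ (k - 1) * r := by
        obtain ⟨n, rfl⟩ := Nat.exists_eq_succ_of_ne_zero hk0
        rw [Nat.succ_sub_one]
        rw [Nat.pow_succ] at e3
        apply Nat.eq_of_mul_eq_mul_left (by norm_num : 0 < 3)
        rw [e3]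
        ring
      rw [Finset.prod_congr rfl fun v _ => e1 v, Finset.prod_const, Finset.card_univ, e4,
        Finset.prod_congr rfl fun e _ => hG0 e,
        prod_lin _ hu fun t => (G (cs π (N : Ei) + t))⁻¹, pow_mul]
      congr 2
      rw [← Finset.prod_inv_distrib]
      exact (Fintype.prod_equiv (Equiv.addLeft (cs π (N : Ei))) _ _ fun t => rfl).symm
  · -- inert primes
    have hdeg := h2 hm
    have ha0 : ∀ D : ℕ, aq D p = 0 := fun D => by
      rw [aq_eq hp2]
      exact ap_cube (cube_two hm) D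
    obtain ⟨α, hα⟩ := IsAlgClosed.exists_pow_nat_eq (-((p : ℕ) : ℂ)) (n := 2) (by norm_num)
    have e1 : ∀ v : {v : HeightOneSpectrum (𝓞 F) // below v = p}, fv N s v.1 =
        ((1 + ((p : ℕ) : ℂ) * X ^ 2)⁻¹) ^ deg v.1 := by
      intro v
      have hb := hbel v.1 v.2
      have e1 := fv_roots (N := N) v.1 (by rw [hb]; exact hp2) (by rw [hb]; exact hp3)
        (by rw [hb]; exact hN) (α := α) (β := -α) (by rw [hb, ha0]; simp)
        (by rw [hb]; push_cast; linear_combination -hα) s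
      rw [e1, hb, inv_pow]
      congr 1
      rcases hdeg v.1 v.2 with hd | hd
      · rw [hd]
        linear_combination -X ^ 2 * hα
      · rw [hd]
        linear_combination (-2 * X ^ 2 + X ^ 4 * (α ^ 2 - ((p : ℕ) : ℂ))) * hα
    have e2 : ∀ e : Fin k → ZMod 3, fq (tw N d e) s p = (1 + ((p : ℕ) : ℂ) * X ^ 2)⁻¹ := by
      intro e
      unfold fq
      rw [ha0, prime_cpow _ p.2.ne_zero]
      simp [hX]
    rw [Finset.prod_congr rfl fun v _ => e1 v, Finset.prod_congr rfl fun e _ => e2 e,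
      Finset.prod_const, Finset.prod_pow_eq_pow_sum, h1, Finset.card_univ, Fintype.card_fun,
      ZMod.card, Fintype.card_fin, ← pow_mul, mul_comm r]

end cases

end Q283.MC
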