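import Pool.Agent.Q283.MC.Mw

/-!
# The degree of a field generated by cube roots of independent numbers
-/

set_option autoImplicit false
set_option linter.unusedSectionVars false
set_option linter.unusedVariables false

open scoped Classical

namespace Q283.MC

open Module
open Pool.Agent.Y715.T.Gi Pool.Agent.Y715.T.Nr Pool.Agent.Y715.T.Df

/-- a rational number whose square is a cube is a cube -/
theorem cube_of_sq {n : ℕ} {t : ℚ} (h : t ^ 3 = (n : ℚ) ^ 2) : ∃ c : ℕ, n = c ^ 3 := by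
  by_cases hn : n = 0
  · exact ⟨0, by rw [hn]; norm_num⟩
  have hn0 : (n : ℚ) ≠ 0 := by exact_mod_cast hn
  have ht0 : t ≠ 0 := by
    rintro rfl
    rw [zero_pow (by norm_num)] at h
    exact hn0 (pow_eq_zero_iff (by norm_num) |>.1 h.symm)
  have h1 : ((n : ℚ) / t) ^ 3 = ((n : ℤ) : ℚ) := by
    rw [div_pow, h]
    push_cast
    field_simp
  -- integrality
  have h2 : IsIntegral ℤ ((n : ℚ) / t) := by
    refine IsIntegral.of_pow (n := 3) (by norm_num) ?_
    rw [h1]
    exact isIntegral_algebraMap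
  obtain ⟨z, hz⟩ := (IsIntegrallyClosed.isIntegral_iff (R := ℤ) (K := ℚ)).1 h2
  have h3 : z ^ 3 = (n : ℤ) := by
    have h4 : ((z ^ 3 : ℤ) : ℚ) = ((n : ℤ) : ℚ) := by
      rw [← h1, ← hz]
      push_cast
      rfl
    exact_mod_cast h4
  have hz0 : 0 ≤ z := by
    by_contra hneg
    push Not at hneg
    have : z ^ 3 < 0 := Odd.pow_neg (by decide) hneg
    omega
  refine ⟨z.toNat, ?_⟩
  have h5 : ((z.toNat : ℕ) : ℤ) = z := Int.toNat_of_nonneg hz0
  have h6 : ((z.toNat ^ 3 : ℕ) : ℤ) = (n : ℤ) := by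
    push_cast
    rw [h5, h3]
  exact_mod_cast h6.symm

variable {i₀ : QB} (hi : i₀ ^ 2 + i₀ + 1 = 0)

include hi in
/-- an element fixed by the stabilizer of the root of unity -/
theorem fix_ex {β : QB} (h : ∀ σ : Gam, σ i₀ = i₀ → σ β = β) : ∃ a b : ℚ, β = a + b * i₀ := by
  have h1 : β ∈ (⊥ : IntermediateField (KK i₀) QB) := by
    rw [InfiniteGalois.mem_bot_iff_fixed]
    intro σ
    exact h (Pool.Agent.Y692.CT.rs σ) (gk_fix σ)
  rw [IntermediateField.mem_bot] at h1
  obtain ⟨y, rfl⟩ := h1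
  exact KK_ex hi y.2

include hi in
/-- a natural number which is a cube in `ℚ(ω)` is a cube -/
theorem cube_nat {β : QB} {n : ℕ} (hβ : β ^ 3 = (n : QB))
    (h : ∀ σ : Gam, σ i₀ = i₀ → σ β = β) : ∃ c : ℕ, n = c ^ 3 := by
  obtain ⟨a, b, hab⟩ := fix_ex hi h
  obtain ⟨c, hc⟩ := exists_conj hi
  have h1 : c β = (a : QB) + b * (-1 - i₀) := by
    rw [hab, map_add, map_mul, hc, map_ratCast, map_ratCast]
  have h2 : (c β) ^ 3 = (n : QB) := by rw [← map_pow, hβ, map_natCast]
  apply cube_of_sq (t := a ^ 2 - a * b + b ^ 2)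
  have h3 : (((a ^ 2 - a * b + b ^ 2) ^ 3 : ℚ) : QB) = (((n : ℚ) ^ 2 : ℚ) : QB) := by
    push_cast
    have h4 : ((a : QB) ^ 2 - a * b + b ^ 2) = β * c β := by
      rw [h1, hab]
      linear_combination (b : QB) ^ 2 * hi
    rw [h4, mul_pow, hβ, h2]
    ring
  exact_mod_cast h3

variable {k : ℕ} {d : Fin k → ℕ}

/-- `d` is independent modulo cubes -/
def Ind (d : Fin k → ℕ) : Prop :=
  ∀ e : Fin k → ZMod 3, e ≠ 0 → ∀ c : ℕ, ∏ j, d j ^ (e j).val ≠ c ^ 3

theorem Ind.ne_zero (h : Ind d) (j : Fin k) : d j ≠ 0 := by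
  intro h0
  have hne : (Pi.single j 1 : Fin k → ZMod 3) ≠ 0 := by
    intro h1
    have h2 := congrFun h1 j
    rw [Pi.single_eq_same] at h2
    exact one_ne_zero h2
  refine h _ hne 0 ?_
  rw [zero_pow (by norm_num)]
  refine Finset.prod_eq_zero (Finset.mem_univ j) ?_
  rw [Pi.single_eq_same, h0]
  rfl

include hi in
/-- all characters occur -/
theorem surj (hd : Ind d) {t : Fin k → QB} (ht : ∀ j, t j ^ 3 = (d j : QB))
    (c : Fin k → ZMod 3) : ∃ σ : Gam, σ i₀ = i₀ ∧ ∀ j, σ (t j) = i₀ ^ (c j).val * t j := by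
  have ht0 : ∀ j, t j ≠ 0 := by
    intro j h0
    have h1 := ht j
    rw [h0, zero_pow (by norm_num)] at h1
    exact hd.ne_zero j (by exact_mod_cast h1.symm)
  let H : AddSubgroup (Fin k → ZMod 3) :=
    { carrier := {c | ∃ σ : Gam, σ i₀ = i₀ ∧ ∀ j, σ (t j) = i₀ ^ (c j).val * t j}
      zero_mem' := ⟨1, rfl, fun j => by
        rw [Pi.zero_apply, ZMod.val_zero, pow_zero, one_mul]
        rfl⟩
      add_mem' := by
        rintro a b ⟨σ, hσ, ha⟩ ⟨τ, hτ, hb⟩
        refine ⟨τ * σ, ?_, fun j => ?_⟩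
        · rw [AlgEquiv.mul_apply, hσ, hτ]
        · rw [mul_c hi hτ (hb j) (ha j), Pi.add_apply]
      neg_mem' := by
        rintro a ⟨σ, hσ, ha⟩
        refine ⟨σ⁻¹, inv_app hσ, fun j => ?_⟩
        rw [inv_c hi hσ (ha j), Pi.neg_apply] }
  have hH : ∀ c, c ∈ H ↔ ∃ σ : Gam, σ i₀ = i₀ ∧ ∀ j, σ (t j) = i₀ ^ (c j).val * t j :=
    fun c => Iff.rfl
  let S : Submodule (ZMod 3) (Fin k → ZMod 3) :=
    { H with
      smul_mem' := fun r x hx => by
        have h1 : r • x = r.val • x := by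
          funext j
          rw [Pi.smul_apply, Pi.smul_apply, smul_eq_mul, nsmul_eq_mul, ZMod.natCast_zmod_val]
        show r • x ∈ H
        rw [h1]
        exact H.nsmul_mem hx _ }
  rw [← hH]
  suffices hS : S = ⊤ by
    have : c ∈ S := by rw [hS]; exact Submodule.mem_top
    exact this
  by_contra hlt
  obtain ⟨f, hf0, hf⟩ := Submodule.exists_le_ker_of_lt_top S (lt_top_iff_ne_top.2 hlt)
  set e : Fin k → ZMod 3 := fun j => f (Pi.single j 1) with he
  have hfe : ∀ x, f x = ∑ j, e j * x j := by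
    intro x
    conv_lhs => rw [← Finset.univ_sum_single x, map_sum]
    refine Finset.sum_congr rfl fun j _ => ?_
    have : (Pi.single j (x j) : Fin k → ZMod 3) = x j • Pi.single j 1 := by
      rw [← Pi.single_smul', smul_eq_mul, mul_one]
    rw [this, map_smul, smul_eq_mul, mul_comm]
  have he0 : e ≠ 0 := by
    intro h0
    apply hf0
    refine LinearMap.ext fun x => ?_
    rw [hfe, h0]
    simp
  -- the fixed element
  set β : QB := ∏ j, t j ^ (e j).val with hβ
  have hβ3 : β ^ 3 = ((∏ j, d j ^ (e j).val : ℕ) : QB) := by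
    rw [hβ, ← Finset.prod_pow]
    push_cast
    refine Finset.prod_congr rfl fun j _ => ?_
    rw [← pow_mul, mul_comm, pow_mul, ht]
  have hfix : ∀ σ : Gam, σ i₀ = i₀ → σ β = β := by
    intro σ hσ
    choose a ha using fun j => ex_c hi (σ := σ) (d j) (ht j)
    have hmem : a ∈ S := (hH a).2 ⟨σ, hσ, ha⟩
    have h0 : ∑ j, e j * a j = 0 := by
      rw [← hfe]
      exact hf hmem
    have h1 : σ β = (∏ j, i₀ ^ ((a j).val * (e j).val)) * β := by
      rw [hβ, map_prod, ← Finset.prod_mul_distrib]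
      refine Finset.prod_congr rfl fun j _ => ?_
      rw [map_pow, ha j, mul_pow, ← pow_mul]
    have h2 : ∏ j, i₀ ^ ((a j).val * (e j).val) = 1 := by
      rw [Finset.prod_pow_eq_pow_sum]
      have h3 : 3 ∣ ∑ j, (a j).val * (e j).val := by
        rw [← ZMod.natCast_eq_zero_iff, Nat.cast_sum, ← h0]
        refine Finset.sum_congr rfl fun j _ => ?_
        rw [Nat.cast_mul, ZMod.natCast_zmod_val, ZMod.natCast_zmod_val, mul_comm]
      obtain ⟨q, hq⟩ := h3
      rw [hq, pow_mul, ip3 hi, one_pow]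
    rw [h1, h2, one_mul]
  obtain ⟨c, hc⟩ := cube_nat hi hβ3 hfix
  exact hd e he0 c hc

/-- **The degree.** -/
theorem deg_dvd {F : Type} [Field F] [NumberField F] {θ : Fin k → F}
    (hcube : ∀ j, θ j ^ 3 = (d j : F)) (hd : Ind d) : 3 ^ k ∣ finrank ℚ F := by
  obtain ⟨i₀, hi⟩ : ∃ i₀ : QB, i₀ ^ 2 + i₀ + 1 = 0 := by
    obtain ⟨z, hz⟩ := IsAlgClosed.exists_pow_nat_eq (-3 : QB) (n := 2) (by norm_num)
    refine ⟨(z - 1) / 2, ?_⟩
    linear_combination (1 / 4 : QB) * hz
  have ψ : F →ₐ[ℚ] QB := IsAlgClosed.lift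
  set t : Fin k → QB := fun j => ψ (θ j) with ht
  have ht3 : ∀ j, t j ^ 3 = (d j : QB) := fun j => by rw [ht, ← map_pow, hcube, map_natCast]
  have ht0 : ∀ j, t j ≠ 0 := by
    intro j h
    have h1 := ht3 j
    rw [h, zero_pow (by norm_num)] at h1
    exact hd.ne_zero j (by exact_mod_cast h1.symm)
  -- the type of an embedding
  have hex : ∀ (τ : F →ₐ[ℚ] QB) (j : Fin k), ∃ c : ZMod 3, τ (θ j) = i₀ ^ c.val * t j := by
    intro τ j
    have h1 : (τ (θ j)) ^ 3 = (t j) ^ 3 := by rw [← map_pow, hcube, map_natCast, ht3]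
    have h2 : (τ (θ j) - t j) * ((τ (θ j) - i₀ * t j) * (τ (θ j) - i₀ ^ 2 * t j)) = 0 := by
      linear_combination h1 + ((τ (θ j)) ^ 2 * (-t j)  + (τ (θ j)) * t j ^ 2) * hi +
        ((τ (θ j)) * t j ^ 2 - t j ^ 3) * ip3 hi
    rcases mul_eq_zero.1 h2 with h | h
    · exact ⟨0, by rw [ZMod.val_zero, pow_zero, one_mul]; exact sub_eq_zero.1 h⟩
    rcases mul_eq_zero.1 h with h | h
    · exact ⟨1, by
        have : (1 : ZMod 3).val = 1 := by decide
        rw [this, pow_one]; exact sub_eq_zero.1 h⟩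
    · exact ⟨2, by
        have : (2 : ZMod 3).val = 2 := by decide
        rw [this]; exact sub_eq_zero.1 h⟩
  choose π hπ using hex
  have hπu : ∀ (τ : F →ₐ[ℚ] QB) (c : Fin k → ZMod 3),
      (∀ j, τ (θ j) = i₀ ^ (c j).val * t j) → π τ = c := by
    intro τ c h
    funext j
    exact ip_inj hi (ht0 j) ((hπ τ j).symm.trans (h j))
  have hcard : ∀ c : Fin k → ZMod 3,
      (Finset.univ.filter fun τ : F →ₐ[ℚ] QB => π τ = c).card =
      (Finset.univ.filter fun τ : F →ₐ[ℚ] QB => π τ = 0).card := by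
    intro c
    obtain ⟨σ, hσ, hσc⟩ := surj hi hd ht3 c
    refine (Finset.card_bij (fun τ _ => (σ.toAlgHom).comp τ) ?_ ?_ ?_).symm
    · intro τ hτ
      rw [Finset.mem_filter] at hτ ⊢
      refine ⟨Finset.mem_univ _, hπu _ _ fun j => ?_⟩
      have h1 := hπ τ j
      rw [hτ.2, Pi.zero_apply, ZMod.val_zero, pow_zero, one_mul] at h1
      show σ (τ (θ j)) = _
      rw [h1, hσc]
    · intro τ _ τ' _ h
      refine AlgHom.ext fun x => σ.injective ?_
      exact DFunLike.congr_fun h x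
    · intro τ hτ
      rw [Finset.mem_filter] at hτ
      refine ⟨(σ⁻¹ : Gam).toAlgHom.comp τ, ?_, ?_⟩
      · rw [Finset.mem_filter]
        refine ⟨Finset.mem_univ _, hπu _ _ fun j => ?_⟩
        show σ⁻¹ (τ (θ j)) = _
        rw [hπ τ j, hτ.2, Pi.zero_apply, ZMod.val_zero, pow_zero, one_mul]
        exact inv_app (hσc j)
      · refine AlgHom.ext fun x => ?_
        exact σ.apply_symm_apply (τ x)
  have htot : finrank ℚ F = ∑ c : Fin k → ZMod 3,
      (Finset.univ.filter fun τ : F →ₐ[ℚ] QB => π τ = c).card := by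
    rw [← AlgHom.card ℚ F QB, ← Finset.card_univ]
    exact Finset.card_eq_sum_card_fiberwise fun _ _ => Finset.mem_univ _
  rw [htot, Finset.sum_congr rfl fun c _ => hcard c, Finset.sum_const, Finset.card_univ,
    Fintype.card_fun, ZMod.card, Fintype.card_fin, smul_eq_mul]
  exact dvd_mul_right _ _

/-- the data for independent numbers -/
theorem rd_of {F : Type} [Field F] [NumberField F] {θ : Fin k → F}
    (hcube : ∀ j, θ j ^ 3 = (d j : F)) (hd : Ind d)
    (hgen : IntermediateField.adjoin ℚ ({x : F | x ^ 3 = 1} ∪ Set.range θ) = ⊤) :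
    ∃ r, Rd r F d θ := by
  obtain ⟨r, hr⟩ := deg_dvd hcube hd
  exact ⟨r, hcube, hgen, by rw [hr, mul_comm]⟩

/-- pairwise coprime squarefree numbers are independent -/
theorem ind_of {d : Fin k → ℕ} (h1 : ∀ j, 1 < d j) (hs : ∀ j, Squarefree (d j))
    (hc : ∀ i j, i ≠ j → Nat.Coprime (d i) (d j)) : Ind d := by
  intro e he c hce
  obtain ⟨j, hj⟩ : ∃ j, e j ≠ 0 := by
    by_contra hcon
    push Not at hcon
    exact he (funext hcon)
  obtain ⟨p, hp, hpd⟩ := Nat.exists_prime_and_dvd (h1 j).ne'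
  have hd0 : ∀ i, d i ≠ 0 := fun i => by have := h1 i; omega
  have hf : (∏ i, d i ^ (e i).val).factorization p = (e j).val := by
    rw [Nat.factorization_prod fun i _ => pow_ne_zero _ (hd0 i), Finsupp.finsetSum_apply,
      Finset.sum_eq_single j]
    · rw [Nat.factorization_pow, Finsupp.smul_apply, smul_eq_mul]
      have h2 : (d j).factorization p = 1 := by
        have h3 := (Nat.squarefree_iff_factorization_le_one (hd0 j)).1 (hs j) p
        have h4 := (hp.dvd_iff_one_le_factorization (hd0 j)).1 hpd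
        omega
      rw [h2, mul_one]
    · intro i _ hij
      rw [Nat.factorization_pow, Finsupp.smul_apply, smul_eq_mul,
        Nat.factorization_eq_zero_of_not_dvd, mul_zero]
      intro h5
      have h6 := Nat.dvd_gcd h5 hpd
      rw [hc i j hij] at h6
      exact hp.one_lt.ne' (Nat.dvd_one.1 h6)
    · intro h
      exact absurd (Finset.mem_univ _) h
  rw [hce, Nat.factorization_pow, Finsupp.smul_apply, smul_eq_mul] at hf
  have h7 := ZMod.val_lt (e j)
  have h8 : (e j).val ≠ 0 := fun h => hj ((ZMod.val_eq_zero _).1 h)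
  omega

end Q283.MC
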