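import Mathlib
import Pool.Agent.H921R2.TatePole.Base

/-!
# The splitting of the primes in a field generated by cube roots

`F = ℚ(θ_1, …, θ_k)`, `θ_j³ = d_j`, of degree `3 ^ k`. The ring homomorphisms of the ring of integers
of `F` to a field `κ` of characteristic `p`, a residue field of the ring of the algebraic integers,
are the reductions of the `3 ^ k` embeddings of `F`, if `p` does not divide `3 d_1 ⋯ d_k`.
-/

set_option autoImplicit false
set_option linter.unusedSectionVars false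
set_option linter.style.haveILetI false

open scoped Classical

namespace Q283.MC

open NumberField IsDedekindDomain Module
open Pool.Agent.H921R2.TatePole (below deg nm nm_eq)

/-- `F` is generated by cube roots of the `d_j` and the cube roots of unity it contains, and has
degree `r 3 ^ k` -/
structure Rd {k : ℕ} (r : ℕ) (F : Type) [Field F] [NumberField F] (d : Fin k → ℕ) (θ : Fin k → F) :
    Prop where
  cube : ∀ j, θ j ^ 3 = (d j : F)
  gen : IntermediateField.adjoin ℚ ({x : F | x ^ 3 = 1} ∪ Set.range θ) = ⊤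
  deg : Module.finrank ℚ F = r * 3 ^ k

/-- the algebraic numbers -/
abbrev QA : Type := AlgebraicClosure ℚ

/-- the algebraic integers -/
abbrev ZA : Type := integralClosure ℤ QA

theorem exists_mx (p : ℕ) [Fact p.Prime] : ∃ m : Ideal ZA, m.IsMaximal ∧ ((p : ℕ) : ZA) ∈ m := by
  have hp : (Ideal.span {(p : ℤ)}).IsMaximal :=
    PrincipalIdealRing.isMaximal_of_irreducible
      (Nat.prime_iff_prime_int.1 (Fact.out : p.Prime)).irreducible
  obtain ⟨Q, hQ, hQ2⟩ := Ideal.exists_ideal_over_maximal_of_isIntegral (S := ZA)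
    (Ideal.span {(p : ℤ)}) (by
      rw [(RingHom.injective_iff_ker_eq_bot _).1 (FaithfulSMul.algebraMap_injective ℤ ZA)]
      exact bot_le)
  refine ⟨Q, hQ, ?_⟩
  have h1 : (p : ℤ) ∈ Q.comap (algebraMap ℤ ZA) := by
    rw [hQ2]
    exact Ideal.mem_span_singleton_self _
  rw [Ideal.mem_comap] at h1
  simpa using h1

section
variable {F : Type} [Field F] [NumberField F]

/-- the restriction of an embedding to the integers -/
noncomputable def toZA (τ : F →+* QA) : 𝓞 F →+* ZA :=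
  (τ.comp (algebraMap (𝓞 F) F)).codRestrict (integralClosure ℤ QA) (fun x => by
    have h : IsIntegral ℤ ((x : 𝓞 F) : F) := RingOfIntegers.isIntegral_coe x
    exact h.map τ.toIntAlgHom)

theorem toZA_coe (τ : F →+* QA) (x : 𝓞 F) : ((toZA τ x : ZA) : QA) = τ (x : F) := rfl

theorem fiber_sum_le (p : Nat.Primes) :
    ∑ v : {v : HeightOneSpectrum (𝓞 F) // below v = p}, deg v.1 ≤ finrank ℚ F := by
  have hdvd : (∏ v : {v : HeightOneSpectrum (𝓞 F) // below v = p}, v.1.asIdeal) ∣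
      Ideal.span {(((p : ℕ) : 𝓞 F))} := by
    refine Finset.prod_dvd_of_isRelPrime ?_ ?_
    · intro v _ u _ hvu
      rw [Function.onFun]
      have hne : v.1.asIdeal ≠ u.1.asIdeal := fun h => hvu (Subtype.ext (HeightOneSpectrum.ext h))
      have h1 : IsCoprime v.1.asIdeal u.1.asIdeal := by
        rw [Ideal.isCoprime_iff_sup_eq]
        exact (v.1.isPrime.isMaximal v.1.ne_bot).coprime_of_ne
          (u.1.isPrime.isMaximal u.1.ne_bot) hne
      exact h1.isRelPrime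
    · intro v _
      rw [Ideal.dvd_iff_le, Ideal.span_singleton_le_iff_mem]
      have := (nm_eq v.1).2.2
      rwa [v.2] at this
  have h2 := map_dvd Ideal.absNorm hdvd
  rw [Ideal.absNorm_span_natCast, map_prod, RingOfIntegers.rank] at h2
  have hp := p.prop
  have h3 := Nat.le_of_dvd (pow_pos hp.pos _) h2
  have h4 : ∏ v : {v : HeightOneSpectrum (𝓞 F) // below v = p}, Ideal.absNorm v.1.asIdeal =
      (p : ℕ) ^ ∑ v : {v : HeightOneSpectrum (𝓞 F) // below v = p}, deg v.1 := by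
    rw [← Finset.prod_pow_eq_pow_sum]
    refine Finset.prod_congr rfl fun v _ => ?_
    have := (nm_eq v.1).1
    rw [v.2] at this
    exact this
  rw [h4] at h3
  exact (Nat.pow_le_pow_iff_right hp.one_lt).mp h3

/-- the residue field as an algebra; the number of the homomorphisms -/
theorem card_hom_le (v : HeightOneSpectrum (𝓞 F)) {κ : Type} [Field κ]
    (hκ : (((below v : ℕ) : ℕ) : κ) = 0) :
    Finite ((𝓞 F ⧸ v.asIdeal) →+* κ) ∧ Nat.card ((𝓞 F ⧸ v.asIdeal) →+* κ) ≤ deg v := by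
  have hmax : v.asIdeal.IsMaximal := v.isPrime.isMaximal v.ne_bot
  letI : Field (𝓞 F ⧸ v.asIdeal) := Ideal.Quotient.field v.asIdeal
  have : Finite (𝓞 F ⧸ v.asIdeal) := Ideal.finiteQuotientOfFreeOfNeBot v.asIdeal v.ne_bot
  obtain ⟨h1, h2, h3⟩ := nm_eq v
  have : Fact (below v : ℕ).Prime := ⟨(below v).2⟩
  have : CharP (𝓞 F ⧸ v.asIdeal) (below v : ℕ) := by
    have : ringChar (𝓞 F ⧸ v.asIdeal) = (below v : ℕ) := by
      apply CharP.ringChar_of_prime_eq_zero (below v).2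
      have := Ideal.Quotient.eq_zero_iff_mem.2 h3
      simpa using this
    rw [← this]; infer_instance
  letI : Algebra (ZMod (below v : ℕ)) (𝓞 F ⧸ v.asIdeal) := ZMod.algebra _ _
  have : CharP κ (below v : ℕ) := by
    have : ringChar κ = (below v : ℕ) := CharP.ringChar_of_prime_eq_zero (below v).2 hκ
    rw [← this]; infer_instance
  letI : Algebra (ZMod (below v : ℕ)) κ := ZMod.algebra _ _
  have hfin : Module.finrank (ZMod (below v : ℕ)) (𝓞 F ⧸ v.asIdeal) = deg v := by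
    letI : Fintype (𝓞 F ⧸ v.asIdeal) := Fintype.ofFinite _
    have hcard : Ideal.absNorm v.asIdeal = Fintype.card (𝓞 F ⧸ v.asIdeal) := by
      rw [Ideal.absNorm_apply, Submodule.cardQuot_apply, Nat.card_eq_fintype_card]
    have h4 := Module.card_eq_pow_finrank (K := ZMod (below v : ℕ)) (V := 𝓞 F ⧸ v.asIdeal)
    rw [ZMod.card, ← hcard] at h4
    have h5 : (below v : ℕ) ^ (Module.finrank (ZMod (below v : ℕ)) (𝓞 F ⧸ v.asIdeal)) =
        (below v : ℕ) ^ deg v := by
      rw [← h4, ← h1]; rfl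
    exact Nat.pow_right_injective (below v).2.two_le h5
  let e : ((𝓞 F ⧸ v.asIdeal) →+* κ) ≃ ((𝓞 F ⧸ v.asIdeal) →ₐ[ZMod (below v : ℕ)] κ) :=
    { toFun := fun f => { f with
        commutes' := fun r => by
          obtain ⟨n, rfl⟩ := ZMod.natCast_zmod_surjective r
          show f (algebraMap _ _ (n : ZMod (below v : ℕ))) = algebraMap _ _ (n : ZMod (below v : ℕ))
          rw [map_natCast, map_natCast, map_natCast] }
      invFun := fun f => f.toRingHom
      left_inv := fun f => rfl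
      right_inv := fun f => rfl }
  refine ⟨Finite.of_equiv _ e.symm, ?_⟩
  rw [Nat.card_congr e, ← hfin]
  exact card_algHom_le_finrank _ _ _

/-- the homomorphisms of the integers and their kernels -/
theorem exists_ker {κ : Type} [Field κ] {p : ℕ} (hp : p.Prime) (hκ : (p : κ) = 0)
    (Φ : 𝓞 F →+* κ) : ∃ v : HeightOneSpectrum (𝓞 F), (below v : ℕ) = p ∧
      v.asIdeal = RingHom.ker Φ := by
  have hpr : (RingHom.ker Φ).IsPrime := RingHom.ker_isPrime Φ
  have hpm : ((p : ℕ) : 𝓞 F) ∈ RingHom.ker Φ := by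
    rw [RingHom.mem_ker, map_natCast, hκ]
  have hne : RingHom.ker Φ ≠ ⊥ := by
    intro h
    rw [h, Ideal.mem_bot] at hpm
    exact hp.ne_zero (by exact_mod_cast hpm)
  let v : HeightOneSpectrum (𝓞 F) := ⟨RingHom.ker Φ, hpr, hne⟩
  refine ⟨v, ?_, rfl⟩
  obtain ⟨h1, h2, h3⟩ := nm_eq v
  by_contra hcon
  have hco : IsCoprime ((below v : ℕ) : ℤ) (p : ℤ) :=
    Nat.isCoprime_iff_coprime.2 ((Nat.coprime_primes (below v).2 hp).2 hcon)
  obtain ⟨a, b, hab⟩ := hco
  apply hpr.ne_top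
  rw [Ideal.eq_top_iff_one]
  have h4 : ((a * (below v : ℕ) + b * p : ℤ) : 𝓞 F) = 1 := by rw [hab]; simp
  rw [← h4]
  push_cast
  exact Ideal.add_mem _ (Ideal.mul_mem_left _ _ h3) (Ideal.mul_mem_left _ _ hpm)

end

section main
variable {F : Type} [Field F] [NumberField F] {k r : ℕ} {d : Fin k → ℕ} {θ : Fin k → F}

/-- a cube root of a natural number as an integer -/
theorem exists_int {x : F} {n : ℕ} (hx : x ^ 3 = (n : F)) :
    ∃ X : 𝓞 F, ((X : 𝓞 F) : F) = x ∧ X ^ 3 = (n : 𝓞 F) := by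
  have h1 : IsIntegral ℤ x := by
    have h2 : IsIntegral ℤ (x ^ 3) := by
      rw [hx]
      exact_mod_cast isIntegral_algebraMap (R := ℤ) (A := F) (x := (n : ℤ))
    exact IsIntegral.of_pow (by norm_num) h2
  obtain ⟨X, hX⟩ : ∃ X : 𝓞 F, ((X : 𝓞 F) : F) = x := ⟨⟨x, h1⟩, rfl⟩
  refine ⟨X, hX, ?_⟩
  apply RingOfIntegers.coe_injective
  have h2 : algebraMap (𝓞 F) F X = x := hX
  rw [map_pow, map_natCast, h2]
  exact hx

/-- an embedding is determined by the generators -/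
theorem ext_gen {T : Set F} (hgen : IntermediateField.adjoin ℚ T = ⊤) {τ τ' : F →+* QA}
    (he : ∀ x ∈ T, τ x = τ' x) : τ = τ' := by
  let τ₁ : F →ₐ[ℚ] QA := RingHom.equivRatAlgHom F QA τ
  let τ₂ : F →ₐ[ℚ] QA := RingHom.equivRatAlgHom F QA τ'
  have e1 : ∀ x, τ₁ x = τ x := fun x => rfl
  have e2 : ∀ x, τ₂ x = τ' x := fun x => rfl
  have h3 : ∀ x ∈ IntermediateField.adjoin ℚ T, τ₁ x = τ₂ x := by
    intro x hx
    induction hx using IntermediateField.adjoin_induction with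
    | mem x hx => exact he x hx
    | algebraMap x => rw [AlgHom.commutes, AlgHom.commutes]
    | add x y _ _ hx hy => rw [map_add, map_add, hx, hy]
    | inv x _ hx => rw [map_inv₀, map_inv₀, hx]
    | mul x y _ _ hx hy => rw [map_mul, map_mul, hx, hy]
  ext x
  have h4 : x ∈ IntermediateField.adjoin ℚ T := by
    rw [hgen]
    exact IntermediateField.mem_top
  exact h3 x h4

theorem main_split {T : Set (𝓞 F)}
    (hgen : IntermediateField.adjoin ℚ ((fun x : 𝓞 F => (x : F)) '' T) = ⊤) (p : Nat.Primes)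
    (hp3 : (p : ℕ) ≠ 3) (hc : ∀ x ∈ T, ∃ n : ℕ, x ^ 3 = (n : 𝓞 F) ∧ ¬ (p : ℕ) ∣ n) :
    (∑ v : {v : HeightOneSpectrum (𝓞 F) // below v = p}, deg v.1 = finrank ℚ F) ∧
    ∀ v : HeightOneSpectrum (𝓞 F), below v = p → ∀ n : ℕ,
      (∀ x ∈ T, (Ideal.Quotient.mk v.asIdeal x) ^ ((p : ℕ) ^ n) = Ideal.Quotient.mk v.asIdeal x) →
      ∀ z : 𝓞 F ⧸ v.asIdeal, z ^ ((p : ℕ) ^ n) = z := by
  have hpf : Fact (p : ℕ).Prime := ⟨p.2⟩
  obtain ⟨m, hm, hpm⟩ := exists_mx (p : ℕ)
  letI : Field (ZA ⧸ m) := Ideal.Quotient.field m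
  have hκ : (((p : ℕ) : ℕ) : ZA ⧸ m) = 0 := by
    have := Ideal.Quotient.eq_zero_iff_mem.2 hpm
    simpa using this
  have hchar : CharP (ZA ⧸ m) (p : ℕ) := by
    have : ringChar (ZA ⧸ m) = (p : ℕ) := CharP.ringChar_of_prime_eq_zero p.2 hκ
    rw [← this]; infer_instance
  have h3κ : (3 : ZA ⧸ m) ≠ 0 := by
    intro h3
    have h4 : (((3 : ℕ)) : ZA ⧸ m) = 0 := by exact_mod_cast h3
    rw [CharP.cast_eq_zero_iff (ZA ⧸ m) (p : ℕ)] at h4
    exact hp3 ((Nat.prime_dvd_prime_iff_eq p.2 Nat.prime_three).1 h4)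
  let Φ : (F →+* QA) → (𝓞 F →+* ZA ⧸ m) := fun τ => (Ideal.Quotient.mk m).comp (toZA τ)
  -- the values at the roots determine the embedding
  have hT : ∀ τ τ' : F →+* QA, (∀ x ∈ T, Φ τ x = Φ τ' x) → τ = τ' := by
    intro τ τ' he
    refine ext_gen hgen fun y hy => ?_
    obtain ⟨x, hx, rfl⟩ := hy
    obtain ⟨n, hxn, hpn⟩ := hc x hx
    have hnκ : ((n : ℕ) : ZA ⧸ m) ≠ 0 := by
      intro hj
      rw [CharP.cast_eq_zero_iff (ZA ⧸ m) (p : ℕ)] at hj
      exact hpn hj
    by_contra hne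
    set a : ZA := toZA τ x with ha
    set b : ZA := toZA τ' x with hb
    have ha3 : a ^ 3 = (n : ZA) := by rw [ha, ← map_pow, hxn, map_natCast]
    have hb3 : b ^ 3 = (n : ZA) := by rw [hb, ← map_pow, hxn, map_natCast]
    have hab : a ≠ b := by
      intro hab
      apply hne
      have h5 := congrArg (fun x : ZA => (x : QA)) hab
      simp only [ha, hb, toZA_coe] at h5
      exact h5
    have h6 : a ^ 2 + a * b + b ^ 2 = 0 := by
      have h7 : (a - b) * (a ^ 2 + a * b + b ^ 2) = 0 := by linear_combination ha3 - hb3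
      exact (mul_eq_zero.1 h7).resolve_left (sub_ne_zero.2 hab)
    have h8 : Ideal.Quotient.mk m a = Ideal.Quotient.mk m b := he x hx
    have h9 := congrArg (Ideal.Quotient.mk m) h6
    rw [map_add, map_add, map_pow, map_mul, map_pow, map_zero, ← h8] at h9
    have h10 : (3 : ZA ⧸ m) * Ideal.Quotient.mk m a ^ 2 = 0 := by linear_combination h9
    have h11 : Ideal.Quotient.mk m a = 0 := by
      rcases mul_eq_zero.1 h10 with h12 | h12
      · exact absurd h12 h3κ
      · exact pow_eq_zero_iff (by norm_num) |>.1 h12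
    have h13 := congrArg (Ideal.Quotient.mk m) ha3
    rw [map_pow, h11, zero_pow (by norm_num), map_natCast] at h13
    exact hnκ h13.symm
  have hΦ : Function.Injective Φ := fun τ τ' he => hT τ τ' fun x _ => by rw [he]
  -- the homomorphisms of the residue fields
  have hfib : ∀ v : {v : HeightOneSpectrum (𝓞 F) // below v = p},
      Finite ((𝓞 F ⧸ v.1.asIdeal) →+* ZA ⧸ m) ∧
        Nat.card ((𝓞 F ⧸ v.1.asIdeal) →+* ZA ⧸ m) ≤ deg v.1 := by
    intro v
    refine card_hom_le v.1 ?_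
    rw [v.2]
    exact hκ
  have hfi : ∀ v : {v : HeightOneSpectrum (𝓞 F) // below v = p},
      Finite ((𝓞 F ⧸ v.1.asIdeal) →+* ZA ⧸ m) := fun v => (hfib v).1
  let s : (Σ v : {v : HeightOneSpectrum (𝓞 F) // below v = p},
      ((𝓞 F ⧸ v.1.asIdeal) →+* ZA ⧸ m)) → (𝓞 F →+* ZA ⧸ m) := fun x =>
    x.2.comp (Ideal.Quotient.mk x.1.1.asIdeal)
  have hs : Function.Surjective s := by
    intro Ψ
    obtain ⟨v, hv, hk⟩ := exists_ker p.2 hκ Ψ
    refine ⟨⟨⟨v, Subtype.ext hv⟩, Ideal.Quotient.lift v.asIdeal Ψ fun a ha => ?_⟩, ?_⟩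
    · rw [hk] at ha
      exact ha
    · ext x
      rfl
  have hHfin : Finite (𝓞 F →+* ZA ⧸ m) := Finite.of_surjective s hs
  have c1 : Nat.card (F →+* QA) = finrank ℚ F := by
    rw [Nat.card_eq_fintype_card, NumberField.Embeddings.card F QA]
  have c2 : Nat.card (F →+* QA) ≤ Nat.card (𝓞 F →+* ZA ⧸ m) :=
    Nat.card_le_card_of_injective Φ hΦ
  have c3 : Nat.card (𝓞 F →+* ZA ⧸ m) ≤ Nat.card (Σ v : {v : HeightOneSpectrum (𝓞 F) // below v = p},
      ((𝓞 F ⧸ v.1.asIdeal) →+* ZA ⧸ m)) := Nat.card_le_card_of_surjective s hs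
  have c4 : Nat.card (Σ v : {v : HeightOneSpectrum (𝓞 F) // below v = p},
      ((𝓞 F ⧸ v.1.asIdeal) →+* ZA ⧸ m)) =
      ∑ v : {v : HeightOneSpectrum (𝓞 F) // below v = p},
        Nat.card ((𝓞 F ⧸ v.1.asIdeal) →+* ZA ⧸ m) := Nat.card_sigma
  have c5 : ∑ v : {v : HeightOneSpectrum (𝓞 F) // below v = p},
        Nat.card ((𝓞 F ⧸ v.1.asIdeal) →+* ZA ⧸ m) ≤
      ∑ v : {v : HeightOneSpectrum (𝓞 F) // below v = p}, deg v.1 :=
    Finset.sum_le_sum fun v _ => (hfib v).2
  have c6 := fiber_sum_le (F := F) p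
  have hbij : Function.Bijective Φ := by
    letI := Fintype.ofFinite (𝓞 F →+* ZA ⧸ m)
    rw [Fintype.bijective_iff_injective_and_card]
    refine ⟨hΦ, ?_⟩
    rw [← Nat.card_eq_fintype_card, ← Nat.card_eq_fintype_card]
    omega
  refine ⟨by omega, ?_⟩
  intro v hv n hn z
  have c7 : Nat.card ((𝓞 F ⧸ v.asIdeal) →+* ZA ⧸ m) = deg v := by
    have h1 : ∀ u ∈ (Finset.univ : Finset {v : HeightOneSpectrum (𝓞 F) // below v = p}),
        Nat.card ((𝓞 F ⧸ u.1.asIdeal) →+* ZA ⧸ m) = deg u.1 :=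
      (Finset.sum_eq_sum_iff_of_le fun u _ => (hfib u).2).1 (by omega)
    exact h1 ⟨v, hv⟩ (Finset.mem_univ _)
  have hpos : 0 < Nat.card ((𝓞 F ⧸ v.asIdeal) →+* ZA ⧸ m) := by
    rw [c7]
    exact (nm_eq v).2.1
  obtain ⟨⟨f⟩, -⟩ := Nat.card_pos_iff.1 hpos
  have hmax : v.asIdeal.IsMaximal := v.isPrime.isMaximal v.ne_bot
  letI : Field (𝓞 F ⧸ v.asIdeal) := Ideal.Quotient.field v.asIdeal
  obtain ⟨τ, hτ⟩ := hbij.2 (f.comp (Ideal.Quotient.mk v.asIdeal))
  obtain ⟨τ', hτ'⟩ := hbij.2 ((iterateFrobenius (ZA ⧸ m) (p : ℕ) n).comp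
    (f.comp (Ideal.Quotient.mk v.asIdeal)))
  have he : τ' = τ := by
    apply hT
    intro x hx
    rw [hτ', hτ]
    simp only [RingHom.comp_apply, iterateFrobenius_def]
    rw [← map_pow, hn x hx]
  obtain ⟨z, rfl⟩ := Ideal.Quotient.mk_surjective z
  apply f.injective
  have h14 : (iterateFrobenius (ZA ⧸ m) (p : ℕ) n).comp (f.comp (Ideal.Quotient.mk v.asIdeal)) =
      f.comp (Ideal.Quotient.mk v.asIdeal) := by
    rw [← hτ', ← hτ, he]
  have h15 := congrArg (fun g : 𝓞 F →+* ZA ⧸ m => g z) h14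
  simp only [RingHom.comp_apply, iterateFrobenius_def] at h15
  rw [map_pow]
  exact h15

end main

end Q283.MC
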