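import Pool.Agent.Y692.CT.Desq
import Pool.Agent.Y155.CT.Act
import Pool.Agent.Y710.CTE.MwfA
import Pool.Agent.Q283.MC.Spl

/-!
# The points of `y² + N y = x³` over a field generated by cube roots
-/

set_option autoImplicit false
set_option linter.unusedSectionVars false
set_option linter.unusedVariables false
set_option linter.style.haveILetI false

open scoped Classical Pointwise

namespace Q283.MC

open WeierstrassCurve
open Pool.Agent.Y703.CT
open Pool.Agent.Y715.T.Gi Pool.Agent.Y715.T.Nr Pool.Agent.Y715.T.Df Pool.Agent.Y715.T.Ell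
open Pool.Agent.Y692.CT (PD ac Ph Ph_some Ph_nons ac_some ac_Ph Ph_tw pt_ext ac_mul ac_one it_some)
open Pool.Agent.Y155.CT (jj_add jj_jj jj_im pm_jj jh jh_apply im3 jj_zero)
open Pool.Agent.Y710.CTE (fin_pre fin_group)

/-! ## groups -/

/-- the version for subgroups -/
theorem fin_sub {M : Type} [AddCommGroup M] (X : AddSubgroup M) (A s : M →+ M)
    (hAX : ∀ P ∈ X, A P ∈ X) (hsX : ∀ P ∈ X, s P ∈ X) (hA : ∀ P, A (A P) = -P - A P)
    (hs : ∀ P ∈ X, s (s (s P)) = P) (hc : ∀ P, s (A P) = A (s P))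
    (hk : {P | P - A P = 0}.Finite) (h0 : {P | P ∈ X ∧ s P = P}.Finite)
    (h1 : {P | P ∈ X ∧ s P = A P}.Finite) (h2 : {P | P ∈ X ∧ s P = A (A P)}.Finite) :
    (X : Set M).Finite := by
  let A' : X →+ X := (A.comp X.subtype).codRestrict X fun x => hAX x x.2
  let s' : X →+ X := (s.comp X.subtype).codRestrict X fun x => hsX x x.2
  have hA' : ∀ P : X, ((A' P : X) : M) = A P := fun P => rfl
  have hs' : ∀ P : X, ((s' P : X) : M) = s P := fun P => rfl
  have key : ∀ T : Set M, T.Finite → ((fun P : X => (P : M)) ⁻¹' T).Finite := fun T hT =>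
    hT.preimage Subtype.val_injective.injOn
  have hfin : Finite X := by
    refine fin_group A' s' ?_ ?_ ?_ ?_ ?_ ?_ ?_
    · intro P
      apply Subtype.ext
      rw [hA', hA', hA]
      rfl
    · intro P
      apply Subtype.ext
      rw [hs', hs', hs', hs _ P.2]
    · intro P
      apply Subtype.ext
      rw [hs', hA', hA', hs', hc]
    · refine (key _ hk).subset fun P hP => ?_
      have := congrArg (fun Q : X => (Q : M)) hP
      exact this
    · refine (key _ h0).subset fun P hP => ⟨P.2, ?_⟩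
      exact congrArg (fun Q : X => (Q : M)) hP
    · refine (key _ h1).subset fun P hP => ⟨P.2, ?_⟩
      exact congrArg (fun Q : X => (Q : M)) hP
    · refine (key _ h2).subset fun P hP => ⟨P.2, ?_⟩
      exact congrArg (fun Q : X => (Q : M)) hP
  exact Set.toFinite _

/-- the quadratic step -/
theorem fin_base {G : Type} [AddCommGroup G] (A c : G →+ G) (hA : ∀ P, A (A P) = -P - A P)
    (hcA : ∀ P, c (A P) = A (A (c P))) (hcc : ∀ P, c (c P) = P)
    (hk : {P | P - A P = 0}.Finite) (h0 : {P | c P = P}.Finite) : Finite G := by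
  have hA3 : ∀ P, A (A (A P)) = P := by
    intro P
    rw [hA, hA]
    abel
  set f2 : G →+ G := A - A.comp A with hf2
  have hf2k : {P | f2 P = 0}.Finite := by
    refine hk.subset fun P hP => ?_
    have h1 : A P - A (A P) = 0 := hP
    have h2 : A (A P - A (A P)) = 0 := by rw [h1, map_zero]
    have h3 : A (A (P - A P)) = 0 := by
      rw [map_sub, map_sub]
      rw [map_sub] at h2
      exact h2
    show P - A P = 0
    rw [← hA3 (P - A P), h3, map_zero]
  set f1 : G →+ G := AddMonoidHom.id G + c with hf1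
  have hf1k : {P | f1 P = 0}.Finite := by
    refine (fin_pre f2 hf2k h0).subset fun P hP => ?_
    have h1 : P + c P = 0 := hP
    have h2 : c P = -P := by
      rw [eq_neg_iff_add_eq_zero, add_comm]
      exact h1
    show c (A P - A (A P)) = A P - A (A P)
    rw [map_sub, hcA, hcA, hcA, h2, map_neg, map_neg, map_neg, map_neg, hA3]
    abel
  have h3 := fin_pre f1 hf1k h0
  rw [← Set.finite_univ_iff]
  refine h3.subset fun P _ => ?_
  show c (P + c P) = P + c P
  rw [map_add, hcc]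
  abel

/-! ## the action -/

/-- the automorphisms of `QB` -/
abbrev Gam : Type := QB ≃ₐ[ℚ] QB

variable {i₀ : QB} (hi : i₀ ^ 2 + i₀ + 1 = 0)

/-- the action on the points -/
noncomputable def pg (σ : Gam) : Pt QB →+ Pt QB := pm σ.toAlgHom

theorem pg_mul (σ τ : Gam) (P : Pt QB) : pg (σ * τ) P = pg σ (pg τ P) :=
  (pm_pm τ.toAlgHom σ.toAlgHom P).symm

theorem pg_jj {σ : Gam} (hσ : σ i₀ = i₀) (c : ZMod 3) (P : Pt QB) :
    pg σ (jj hi c P) = jj hi c (pg σ P) := pm_jj hi σ.toAlgHom hi hσ c P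

/-- the points on which the elements of `H` act through the cubic character of `θ` -/
noncomputable def SS (H : Subgroup Gam) (θ : QB) : AddSubgroup (Pt QB) where
  carrier := {P | ∀ σ ∈ H, ∀ c : ZMod 3, σ θ = i₀ ^ c.val * θ → pg σ P = jj hi c P}
  zero_mem' := fun σ _ c _ => by rw [map_zero, jj_zero]
  add_mem' := fun {P Q} hP hQ σ hσ c hc => by
    rw [map_add, hP σ hσ c hc, hQ σ hσ c hc, jj_add]
  neg_mem' := fun {P} hP σ hσ c hc => by
    rw [map_neg, hP σ hσ c hc]
    exact (map_neg (jh hi c) P).symm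

theorem mem_SS {H : Subgroup Gam} {θ : QB} {P : Pt QB} : P ∈ SS hi H θ ↔
    ∀ σ ∈ H, ∀ c : ZMod 3, σ θ = i₀ ^ c.val * θ → pg σ P = jj hi c P := Iff.rfl

/-- the stabilizer of `t` in `H` -/
noncomputable def Hs (H : Subgroup Gam) (t : QB) : Subgroup Gam where
  carrier := {σ | σ ∈ H ∧ σ t = t}
  one_mem' := ⟨one_mem H, rfl⟩
  mul_mem' := fun {σ τ} hσ hτ => ⟨mul_mem hσ.1 hτ.1, by
    rw [AlgEquiv.mul_apply, hτ.2, hσ.2]⟩
  inv_mem' := fun {σ} hσ => ⟨inv_mem hσ.1, by
    apply σ.injective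
    rw [hσ.2]
    exact σ.apply_symm_apply t⟩

theorem mem_Hs {H : Subgroup Gam} {t : QB} {σ : Gam} : σ ∈ Hs H t ↔ σ ∈ H ∧ σ t = t := Iff.rfl

include hi in
theorem ip3 : i₀ ^ 3 = 1 := by linear_combination (i₀ - 1) * hi

include hi in
theorem i_ne : i₀ ≠ 0 := by
  rintro rfl
  norm_num at hi

include hi in
theorem ip_val (c d : ZMod 3) : i₀ ^ (c + d).val = i₀ ^ c.val * i₀ ^ d.val := by
  rw [← pow_add, ZMod.val_add]
  exact (pow_eq_pow_mod _ (ip3 hi)).symm

include hi in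
theorem ip_mul (c d : ZMod 3) : i₀ ^ (c * d).val = (i₀ ^ c.val) ^ d.val := by
  rw [← pow_mul, ZMod.val_mul]
  exact (pow_eq_pow_mod _ (ip3 hi)).symm

include hi in
/-- the character exists -/
theorem ex_c {σ : Gam} {θ : QB} (n : ℕ) (hθ : θ ^ 3 = (n : QB)) :
    ∃ c : ZMod 3, σ θ = i₀ ^ c.val * θ := by
  have h1 : (σ θ) ^ 3 = θ ^ 3 := by rw [← map_pow, hθ, map_natCast]
  have h2 : (σ θ - θ) * ((σ θ - i₀ * θ) * (σ θ - i₀ ^ 2 * θ)) = 0 := by
    linear_combination h1 + ((σ θ) ^ 2 * (-θ)  + (σ θ) * θ ^ 2) * hi +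
      ((σ θ) * θ ^ 2 - θ ^ 3) * ip3 hi
  rcases mul_eq_zero.1 h2 with h | h
  · exact ⟨0, by rw [ZMod.val_zero, pow_zero, one_mul]; exact sub_eq_zero.1 h⟩
  rcases mul_eq_zero.1 h with h | h
  · exact ⟨1, by
      have : (1 : ZMod 3).val = 1 := by decide
      rw [this, pow_one]; exact sub_eq_zero.1 h⟩
  · exact ⟨2, by
      have : (2 : ZMod 3).val = 2 := by decide
      rw [this]; exact sub_eq_zero.1 h⟩

include hi in
theorem ip_inj {θ : QB} (hθ : θ ≠ 0) {c d : ZMod 3} (h : i₀ ^ c.val * θ = i₀ ^ d.val * θ) :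
    c = d := Pool.Agent.Y155.CT.ip_inj (hi := hi) (mul_right_cancel₀ hθ h)

theorem inv_app {σ : Gam} {x y : QB} (h : σ x = y) : σ⁻¹ y = x := by
  apply σ.injective
  rw [h]
  exact σ.apply_symm_apply y

include hi in
theorem inv_c {σ : Gam} (hσ : σ i₀ = i₀) {θ : QB} {c : ZMod 3} (h : σ θ = i₀ ^ c.val * θ) :
    σ⁻¹ θ = i₀ ^ (-c).val * θ := by
  apply inv_app
  have h3 : i₀ ^ (-c).val * i₀ ^ c.val = 1 := by
    rw [← ip_val hi, neg_add_cancel, ZMod.val_zero, pow_zero]
  rw [map_mul, map_pow, hσ, h, ← mul_assoc, h3, one_mul]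

include hi in
theorem mul_c {σ τ : Gam} (hσ : σ i₀ = i₀) {θ : QB} {c d : ZMod 3} (h : σ θ = i₀ ^ c.val * θ)
    (h' : τ θ = i₀ ^ d.val * θ) : (σ * τ) θ = i₀ ^ (d + c).val * θ := by
  rw [AlgEquiv.mul_apply, h', map_mul, map_pow, hσ, h, ip_val hi, mul_assoc]

include hi in
theorem pow_c {σ : Gam} (hσ : σ i₀ = i₀) {θ : QB} {c : ZMod 3} (h : σ θ = i₀ ^ c.val * θ) (n : ℕ) :
    (σ ^ n) θ = i₀ ^ ((n : ZMod 3) * c).val * θ := by
  induction n with
  | zero => rw [pow_zero, Nat.cast_zero, zero_mul, ZMod.val_zero, pow_zero, one_mul]; rfl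
  | succ n ih =>
    rw [pow_succ', mul_c hi hσ h ih]
    congr 3
    push_cast
    ring

/-- the step -/
theorem step {H : Subgroup Gam} (hH : ∀ σ ∈ H, σ i₀ = i₀) {θ t : QB} (hθ0 : θ ≠ 0) (ht0 : t ≠ 0)
    {n m : ℕ} (hθ : θ ^ 3 = (n : QB)) (ht : t ^ 3 = (m : QB))
    (h0 : (SS hi H θ : Set (Pt QB)).Finite) (h1 : (SS hi H (θ * t) : Set (Pt QB)).Finite)
    (h2 : (SS hi H (θ * t ^ 2) : Set (Pt QB)).Finite) :
    (SS hi (Hs H t) θ : Set (Pt QB)).Finite := by
  have hone : (1 : ZMod 3).val = 1 := by decide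
  by_cases hs : ∃ s ∈ H, s t = i₀ ^ (1 : ZMod 3).val * t
  · obtain ⟨s, hsH, hst⟩ := hs
    have hsi := hH s hsH
    obtain ⟨b, hb⟩ := ex_c hi (σ := s) n hθ
    -- the eigenspaces
    have eig : ∀ (P : Pt QB) (i : ℕ), P ∈ SS hi (Hs H t) θ →
        pg s P = jj hi (b + i) P → P ∈ SS hi H (θ * t ^ i) := by
      intro P i hP hsP σ hσ c hc
      have hσi := hH σ hσ
      obtain ⟨j, hj⟩ := ex_c hi (σ := σ) m ht
      obtain ⟨e, he⟩ := ex_c hi (σ := σ) n hθ
      have hpow : ∀ r : ℕ, pg (s ^ r) P = jj hi ((r : ZMod 3) * (b + i)) P := by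
        intro r
        induction r with
        | zero =>
          rw [pow_zero, Nat.cast_zero, zero_mul]
          exact pm_id P
        | succ r ih =>
          rw [pow_succ', pg_mul, ih, pg_jj hi hsi, hsP, jj_jj]
          congr 1
          push_cast
          ring
      have hce : c = e + i * j := by
        apply ip_inj hi (θ := θ * t ^ i) (mul_ne_zero hθ0 (pow_ne_zero _ ht0))
        rw [← hc, map_mul, map_pow, he, hj, ip_val hi]
        have h3 : (i₀ ^ j.val) ^ i = i₀ ^ ((i : ZMod 3) * j).val := by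
          rw [mul_comm, ip_mul hi, ZMod.val_natCast]
          refine pow_eq_pow_mod i ?_
          rw [← pow_mul, mul_comm, pow_mul, ip3 hi, one_pow]
        rw [mul_pow, h3]
        ring
      have hr : s ^ j.val ∈ H := pow_mem hsH _
      have hri : (s ^ j.val) i₀ = i₀ := hH _ hr
      have hrt : (s ^ j.val) t = i₀ ^ j.val * t := by
        rw [pow_c hi hsi hst, ZMod.natCast_zmod_val, mul_one]
      have hrθ : (s ^ j.val) θ = i₀ ^ (j * b).val * θ := by
        rw [pow_c hi hsi hb, ZMod.natCast_zmod_val]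
      have hinvH : (s ^ j.val)⁻¹ ∈ H := inv_mem hr
      have hmem : (s ^ j.val)⁻¹ * σ ∈ Hs H t := by
        refine ⟨mul_mem hinvH hσ, ?_⟩
        rw [AlgEquiv.mul_apply, hj]
        exact inv_app hrt
      have hact := hP _ hmem (e + -(j * b)) (mul_c hi (hH _ hinvH) (inv_c hi hri hrθ) he)
      have hdec : σ = s ^ j.val * ((s ^ j.val)⁻¹ * σ) := by rw [mul_inv_cancel_left]
      rw [hdec, pg_mul, hact, pg_jj hi hri, hpow, jj_jj, ZMod.natCast_zmod_val, hce]
      congr 1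
      ring
    refine fin_sub (SS hi (Hs H t) θ) (im (isE QB) hi) ((jh hi (-b)).comp (pg s)) ?_ ?_
      (im_im (isE QB) hi) ?_ ?_ ?_ ?_ ?_ ?_
    · intro P hP σ hσ c hc
      have h3 : pg σ (im (isE QB) hi P) = im (isE QB) hi (pg σ P) :=
        pm_im σ.toAlgHom hi hi (hH σ hσ.1) P
      rw [h3, hP σ hσ c hc, jj_im]
    · intro P hP σ hσ c hc
      have hσi := hH σ hσ.1
      have hmem : s⁻¹ * (σ * s) ∈ Hs H t := by
        refine ⟨mul_mem (inv_mem hsH) (mul_mem hσ.1 hsH), ?_⟩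
        rw [AlgEquiv.mul_apply, AlgEquiv.mul_apply, hst, map_mul, map_pow, hσi, hσ.2]
        exact inv_app hst
      have hact := hP _ hmem (b + c + -b) (mul_c hi (hH _ (inv_mem hsH)) (inv_c hi hsi hb)
        (mul_c hi hσi hc hb))
      have e1 : b + c + -b = c := by ring
      rw [e1] at hact
      have e2 : pg s (pg (s⁻¹ * (σ * s)) P) = pg σ (pg s P) := by
        rw [← pg_mul, mul_inv_cancel_left, pg_mul]
      show pg σ (jj hi (-b) (pg s P)) = jj hi c (jj hi (-b) (pg s P))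
      rw [pg_jj hi hσi, ← e2, hact, pg_jj hi hsi, jj_jj, jj_jj, add_comm]
    · intro P hP
      have hmem : s ^ 3 ∈ Hs H t := by
        refine ⟨pow_mem hsH 3, ?_⟩
        rw [pow_c hi hsi hst]
        have : (((3 : ℕ) : ZMod 3) * 1).val = 0 := by decide
        rw [this, pow_zero, one_mul]
      have hact := hP _ hmem 0 (by
        rw [pow_c hi hsi hb]
        have : ((3 : ℕ) : ZMod 3) = 0 := by decide
        rw [this, zero_mul])
      show jj hi (-b) (pg s (jj hi (-b) (pg s (jj hi (-b) (pg s P))))) = P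
      rw [pg_jj hi hsi, pg_jj hi hsi, pg_jj hi hsi, jj_jj, jj_jj, ← pg_mul, ← pg_mul]
      have e1 : s * s * s = s ^ 3 := (pow_three' s).symm
      rw [e1, hact, jj_jj]
      have e2 : (-b + -b + -b + 0 : ZMod 3) = 0 := by
        have h3 : (3 : ZMod 3) = 0 := by decide
        linear_combination (-b) * h3
      rw [e2]
      rfl
    · intro P
      have h3 : pg s (im (isE QB) hi P) = im (isE QB) hi (pg s P) :=
        pm_im s.toAlgHom hi hi hsi P
      show jj hi (-b) (pg s (im (isE QB) hi P)) = im (isE QB) hi (jj hi (-b) (pg s P))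
      rw [h3, jj_im]
    · refine Set.Finite.subset (s := {0, T0 (isE QB), -T0 (isE QB)}) (by simp) ?_
      intro P hP
      have := ker_im (isE QB) hi (P := P) hP
      simpa using this
    · refine h0.subset fun P hP => ?_
      have := eig P 0 hP.1 (by
        have h3 : jj hi (-b) (pg s P) = P := hP.2
        have h4 := congrArg (jj hi b) h3
        rw [jj_jj, add_neg_cancel] at h4
        rw [Nat.cast_zero, add_zero, ← h4]
        rfl)
      rwa [pow_zero, mul_one] at this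
    · refine h1.subset fun P hP => ?_
      have := eig P 1 hP.1 (by
        have h3 : jj hi (-b) (pg s P) = jj hi 1 P := hP.2
        have h4 := congrArg (jj hi b) h3
        rw [jj_jj, jj_jj, add_neg_cancel] at h4
        rw [Nat.cast_one, ← h4]
        rfl)
      rwa [pow_one] at this
    · refine h2.subset fun P hP => ?_
      exact eig P 2 hP.1 (by
        have h3 : jj hi (-b) (pg s P) = jj hi 2 P := hP.2
        have h4 := congrArg (jj hi b) h3
        rw [jj_jj, jj_jj, add_neg_cancel] at h4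
        have h5 : ((2 : ℕ) : ZMod 3) = 2 := by decide
        rw [h5, ← h4]
        rfl)
  · push Not at hs
    refine h0.subset fun P hP => ?_
    intro σ hσ c hc
    have hσi := hH σ hσ
    refine hP σ ⟨hσ, ?_⟩ c hc
    obtain ⟨j, hj⟩ := ex_c hi (σ := σ) m ht
    have h3 : ∀ j : ZMod 3, j = 0 ∨ j = 1 ∨ j = 2 := by decide
    rcases h3 j with rfl | rfl | rfl
    · rw [hj, ZMod.val_zero, pow_zero, one_mul]
    · exact absurd hj (hs σ hσ)
    · exfalso
      apply hs (σ ^ 2) (pow_mem hσ 2)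
      rw [pow_c hi hσi hj]
      rfl


/-- the elements fixing the cube roots -/
noncomputable def Hk {k : ℕ} (H : Subgroup Gam) (t : Fin k → QB) : Subgroup Gam where
  carrier := {σ | σ ∈ H ∧ ∀ j, σ (t j) = t j}
  one_mem' := ⟨one_mem H, fun _ => rfl⟩
  mul_mem' := fun {σ τ} hσ hτ => ⟨mul_mem hσ.1 hτ.1, fun j => by
    rw [AlgEquiv.mul_apply, hτ.2, hσ.2]⟩
  inv_mem' := fun {σ} hσ => ⟨inv_mem hσ.1, fun j => inv_app (hσ.2 j)⟩

theorem mem_Hk {k : ℕ} {H : Subgroup Gam} {t : Fin k → QB} {σ : Gam} :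
    σ ∈ Hk H t ↔ σ ∈ H ∧ ∀ j, σ (t j) = t j := Iff.rfl

/-- all the steps -/
theorem steps {H : Subgroup Gam} (hH : ∀ σ ∈ H, σ i₀ = i₀) : ∀ (k : ℕ) (t : Fin k → QB)
    (m : Fin k → ℕ) (θ : QB) (n : ℕ), θ ≠ 0 → (∀ j, t j ≠ 0) → θ ^ 3 = (n : QB) →
    (∀ j, t j ^ 3 = (m j : QB)) →
    (∀ e : Fin k → ZMod 3, (SS hi H (θ * ∏ j, t j ^ (e j).val) : Set (Pt QB)).Finite) →
    (SS hi (Hk H t) θ : Set (Pt QB)).Finite
  | 0, t, m, θ, n, hθ0, ht0, hθ, ht, hf => by
    have h1 := hf fun _ => 0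
    rw [Finset.univ_eq_empty, Finset.prod_empty, mul_one] at h1
    refine h1.subset fun P hP σ hσ c hc => hP σ ⟨hσ, fun j => j.elim0⟩ c hc
  | k + 1, t, m, θ, n, hθ0, ht0, hθ, ht, hf => by
    have hsub : ∀ σ ∈ Hk H (Fin.tail t), σ i₀ = i₀ := fun σ hσ => hH σ hσ.1
    have key : ∀ i : ZMod 3, (SS hi (Hk H (Fin.tail t)) (θ * t 0 ^ i.val) : Set (Pt QB)).Finite := by
      intro i
      refine steps hH k (Fin.tail t) (Fin.tail m) (θ * t 0 ^ i.val) (n * m 0 ^ i.val)
        (mul_ne_zero hθ0 (pow_ne_zero _ (ht0 0))) (fun j => ht0 j.succ) ?_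
        (fun j => ht j.succ) fun e => ?_
      · rw [mul_pow, hθ, ← pow_mul, mul_comm i.val 3, pow_mul, ht]
        push_cast
        rfl
      · have h1 := hf (Fin.cons i e)
        rw [Fin.prod_univ_succ] at h1
        simp only [Fin.cons_zero, Fin.cons_succ] at h1
        rw [mul_assoc]
        exact h1
    have e0 : (0 : ZMod 3).val = 0 := by decide
    have e1 : (1 : ZMod 3).val = 1 := by decide
    have e2 : (2 : ZMod 3).val = 2 := by decide
    have h0 := key 0
    have h1 := key 1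
    have h2 := key 2
    rw [e0, pow_zero, mul_one] at h0
    rw [e1, pow_one] at h1
    rw [e2] at h2
    have h3 := step hi hsub hθ0 (ht0 0) hθ (ht 0) h0 h1 h2
    refine h3.subset fun P hP σ hσ c hc => ?_
    refine hP σ ⟨hσ.1.1, fun j => ?_⟩ c hc
    refine Fin.cases hσ.2 (fun j => ?_) j
    exact hσ.1.2 j

/-! ## the base -/

theorem ph_c {D : ℤ} (hD : D ≠ 0) {θ : QB} (hθ : θ ^ 3 = (D : QB)) {σ : Gam} {c : ZMod 3}
    (hc : σ θ = i₀ ^ c.val * θ) (P : Pt QB) :
    ac D σ.toAlgHom (Ph hD hθ P) = Ph hD hθ (jj hi (-c) (pg σ P)) := by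
  have hv : (σ θ) ^ 3 = (D : QB) := by rw [← map_pow, hθ, map_intCast]
  rw [ac_Ph hD hv σ.toAlgHom hθ rfl, Ph_tw hD hθ hi hv (-c) (by rw [neg_neg]; exact hc)]
  rfl

/-- membership in terms of the curve `y² + D y = x³` -/
theorem mem_iff {D : ℕ} (hD : (D : ℤ) ≠ 0) {θ : QB} (hθ : θ ^ 3 = ((D : ℤ) : QB))
    {H : Subgroup Gam} {P : Pt QB} :
    P ∈ SS hi H θ ↔ ∀ σ ∈ H, ac D σ.toAlgHom (Ph hD hθ P) = Ph hD hθ P := by
  have hjj : ∀ (c : ZMod 3) (Q : Pt QB), jj hi (-c) Q = P ↔ Q = jj hi c P := by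
    intro c Q
    constructor
    · intro h
      rw [← h, jj_jj, add_neg_cancel]
      rfl
    · intro h
      rw [h, jj_jj, neg_add_cancel]
      rfl
  constructor
  · intro h σ hσ
    obtain ⟨c, hc⟩ := ex_c hi (σ := σ) D (θ := θ) (by rw [hθ]; push_cast; rfl)
    rw [ph_c hi hD hθ hc, (hjj c _).2 (h σ hσ c hc)]
  · intro h σ hσ c hc
    have h1 := h σ hσ
    rw [ph_c hi hD hθ hc] at h1
    exact (hjj c _).1 ((Ph hD hθ).injective h1)

/-- the rational points -/
theorem fin_rat {D : ℤ} (hfin : Finite (EQ (WD D)).toAffine.Point) :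
    {Q : PD D QB | ∀ σ : Gam, ac D σ.toAlgHom Q = Q}.Finite := by
  have hfin' : Finite (PD D ℚ) := hfin
  refine (Set.finite_range (ac D (Algebra.ofId ℚ QB))).subset ?_
  intro Q hQ
  rcases Q with _ | ⟨x, y, h⟩
  · exact ⟨0, map_zero _⟩
  · have hfix : ∀ z : QB, (∀ σ : Gam, σ z = z) → ∃ q : ℚ, (Algebra.ofId ℚ QB) q = z := by
      intro z hz
      have h2 := InfiniteGalois.mem_bot_iff_fixed (k := ℚ) (K := QB) z
      rw [IntermediateField.mem_bot] at h2
      exact h2.2 hz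
    have hxy : ∀ σ : Gam, σ x = x ∧ σ y = y := by
      intro σ
      have h1 := hQ σ
      rw [ac_some, Affine.Point.some.injEq] at h1
      exact h1
    obtain ⟨q, hq⟩ := hfix x fun σ => (hxy σ).1
    obtain ⟨r, hr⟩ := hfix y fun σ => (hxy σ).2
    subst hq hr
    have h3 := (Affine.baseChange_nonsingular (EQ (WD D)) (f := Algebra.ofId ℚ QB)
      (Algebra.ofId ℚ QB).injective q r).mp h
    exact ⟨.some q r h3, rfl⟩

/-- the stabilizer of the root of unity -/
noncomputable def H0 (i₀ : QB) : Subgroup Gam where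
  carrier := {σ | σ i₀ = i₀}
  one_mem' := rfl
  mul_mem' := fun {σ τ} hσ hτ => by
    show σ (τ i₀) = i₀
    rw [show τ i₀ = i₀ from hτ]
    exact hσ
  inv_mem' := fun {σ} hσ => inv_app hσ

theorem base {D : ℕ} (hD : (D : ℤ) ≠ 0) {θ : QB} (hθ : θ ^ 3 = ((D : ℤ) : QB))
    (hfin : Finite (EQ (WD (D : ℤ))).toAffine.Point) :
    (SS hi (H0 i₀) θ : Set (Pt QB)).Finite := by
  obtain ⟨c, hc⟩ := exists_conj hi
  have hne : ∀ σ : Gam, σ i₀ = i₀ ∨ σ i₀ = -1 - i₀ := by
    intro σ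
    have h1 : (σ i₀) ^ 2 + σ i₀ + 1 = 0 := by
      rw [← map_pow, ← map_add, ← map_one σ, ← map_add, hi, map_zero]
    have h2 : (σ i₀ - i₀) * (σ i₀ - (-1 - i₀)) = 0 := by linear_combination h1 - hi
    rcases mul_eq_zero.1 h2 with h3 | h3
    · exact Or.inl (sub_eq_zero.1 h3)
    · exact Or.inr (sub_eq_zero.1 h3)
  have hcc : (c * c) i₀ = i₀ := by
    rw [AlgEquiv.mul_apply, hc, map_sub, map_neg, map_one, hc]
    ring
  -- the group
  let Y : AddSubgroup (PD D QB) :=
    { carrier := {Q | ∀ σ ∈ H0 i₀, ac D σ.toAlgHom Q = Q}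
      zero_mem' := fun σ _ => map_zero _
      add_mem' := fun {P Q} hP hQ σ hσ => by rw [map_add, hP σ hσ, hQ σ hσ]
      neg_mem' := fun {P} hP σ hσ => by rw [map_neg, hP σ hσ] }
  let A : PD D QB →+ PD D QB :=
    (Ph hD hθ).toAddMonoidHom.comp ((im (isE QB) hi).comp (Ph hD hθ).symm.toAddMonoidHom)
  have hAP : ∀ P : Pt QB, A (Ph hD hθ P) = Ph hD hθ (im (isE QB) hi P) := by
    intro P
    show Ph hD hθ (im (isE QB) hi ((Ph hD hθ).symm (Ph hD hθ P))) = _
    rw [AddEquiv.symm_apply_apply]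
  have hsurj : ∀ Q : PD D QB, ∃ P, Q = Ph hD hθ P := fun Q => ⟨_, ((Ph hD hθ).apply_symm_apply Q).symm⟩
  have hA_some : ∀ x y (h : ((EQ (WD (D : ℤ))).baseChange QB).toAffine.Nonsingular x y),
      ∃ h', A (.some x y h) = .some (i₀ * x) y h' := by
    intro x y h
    obtain ⟨P, hP⟩ := hsurj (.some x y h)
    rcases P with _ | ⟨x0, y0, h0⟩
    · exfalso
      have h1 : (Affine.Point.some x y h : PD D QB) = 0 := hP.trans (map_zero _)
      exact Affine.Point.some_ne_zero _ h1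
    · have h1 := hP
      rw [Ph_some, Affine.Point.some.injEq] at h1
      obtain ⟨rfl, rfl⟩ := h1
      have h2 := hAP (.some x0 y0 h0)
      rw [im_some, Ph_some, Ph_some] at h2
      have e1 : θ ^ 2 * (i₀ * x0) = i₀ * (θ ^ 2 * x0) := by ring
      have h3 := Ph_nons hD hθ ((isE QB).im_nons hi h0)
      rw [e1] at h3
      refine ⟨h3, ?_⟩
      rw [h2, Affine.Point.some.injEq]
      exact ⟨e1, rfl⟩
  have hAσ : ∀ σ : Gam, σ i₀ = i₀ → ∀ Q, ac D σ.toAlgHom (A Q) = A (ac D σ.toAlgHom Q) := by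
    intro σ hσ Q
    rcases Q with _ | ⟨x, y, h⟩
    · show ac D σ.toAlgHom (A 0) = A (ac D σ.toAlgHom 0)
      simp only [map_zero]
    · obtain ⟨h1, e1⟩ := hA_some x y h
      rw [e1, ac_some, ac_some]
      obtain ⟨h2, e2⟩ := hA_some _ _ ((Affine.baseChange_nonsingular (EQ (WD (D : ℤ)))
        (f := σ.toAlgHom) σ.toAlgHom.injective ..).mpr h)
      rw [e2, Affine.Point.some.injEq]
      refine ⟨?_, rfl⟩
      rw [map_mul]
      congr 1
  have hAc : ∀ Q, ac D c.toAlgHom (A Q) = A (A (ac D c.toAlgHom Q)) := by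
    intro Q
    rcases Q with _ | ⟨x, y, h⟩
    · show ac D c.toAlgHom (A 0) = A (A (ac D c.toAlgHom 0))
      simp only [map_zero]
    · obtain ⟨h1, e1⟩ := hA_some x y h
      rw [e1, ac_some, ac_some]
      obtain ⟨h2, e2⟩ := hA_some _ _ ((Affine.baseChange_nonsingular (EQ (WD (D : ℤ)))
        (f := c.toAlgHom) c.toAlgHom.injective ..).mpr h)
      rw [e2]
      obtain ⟨h3, e3⟩ := hA_some _ _ h2
      rw [e3, Affine.Point.some.injEq]
      refine ⟨?_, rfl⟩
      rw [map_mul]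
      have h4 : c.toAlgHom i₀ = -1 - i₀ := hc
      rw [h4]
      linear_combination (-c.toAlgHom x) * hi
  have hAA : ∀ Q, A (A Q) = -Q - A Q := by
    intro Q
    obtain ⟨P, rfl⟩ := hsurj Q
    rw [hAP, hAP, im_im, map_sub, map_neg]
  have hAY : ∀ Q ∈ Y, A Q ∈ Y := by
    intro Q hQ σ hσ
    rw [hAσ σ hσ, hQ σ hσ]
  have hcY : ∀ Q ∈ Y, ac D c.toAlgHom Q ∈ Y := by
    intro Q hQ σ hσ
    have h1 : (c⁻¹ * (σ * c)) ∈ H0 i₀ := by
      show c⁻¹ (σ (c i₀)) = i₀
      rw [hc, map_sub, map_neg, map_one, show σ i₀ = i₀ from hσ]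
      exact inv_app hc
    have h2 := congrArg (ac D c.toAlgHom) (hQ _ h1)
    rw [← ac_mul, mul_inv_cancel_left, ac_mul] at h2
    exact h2
  let A' : Y →+ Y := (A.comp Y.subtype).codRestrict Y fun x => hAY x x.2
  let c' : Y →+ Y := ((ac D c.toAlgHom).comp Y.subtype).codRestrict Y fun x => hcY x x.2
  have hYfin : Finite Y := by
    refine fin_base A' c' ?_ ?_ ?_ ?_ ?_
    · intro P
      apply Subtype.ext
      show A (A P) = -P - A P
      exact hAA P
    · intro P
      apply Subtype.ext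
      exact hAc P
    · intro P
      apply Subtype.ext
      show ac D c.toAlgHom (ac D c.toAlgHom P) = P
      rw [← ac_mul]
      exact P.2 _ hcc
    · have h1 : {Q : PD D QB | Q - A Q = 0}.Finite := by
        have h2 : {P : Pt QB | P - im (isE QB) hi P = 0}.Finite := by
          refine Set.Finite.subset (s := {0, T0 (isE QB), -T0 (isE QB)}) (by simp) ?_
          intro P hP
          have := ker_im (isE QB) hi (P := P) hP
          simpa using this
        refine (h2.image (Ph hD hθ)).subset ?_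
        intro Q hQ
        obtain ⟨P, rfl⟩ := hsurj Q
        refine ⟨P, ?_, rfl⟩
        have h3 : Ph hD hθ P - A (Ph hD hθ P) = 0 := hQ
        rw [hAP, ← map_sub, map_eq_zero_iff _ (Ph hD hθ).injective] at h3
        exact h3
      refine (h1.preimage (f := fun P : Y => (P : PD D QB)) Subtype.val_injective.injOn).subset ?_
      intro P hP
      exact congrArg (fun Q : Y => (Q : PD D QB)) hP
    · refine ((fin_rat hfin).preimage (f := fun P : Y => (P : PD D QB))
        Subtype.val_injective.injOn).subset ?_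
      intro P hP
      have h1 : ac D c.toAlgHom P = P := congrArg (fun Q : Y => (Q : PD D QB)) hP
      intro σ
      rcases hne σ with h2 | h2
      · exact P.2 σ h2
      · have h3 : (c⁻¹ * σ) ∈ H0 i₀ := by
          show c⁻¹ (σ i₀) = i₀
          rw [h2]
          exact inv_app hc
        have h4 := congrArg (ac D c.toAlgHom) (P.2 _ h3)
        rw [← ac_mul, mul_inv_cancel_left, h1] at h4
        exact h4
  have hYs : (Y : Set (PD D QB)).Finite := Set.toFinite _
  refine (hYs.preimage (f := Ph hD hθ) (Ph hD hθ).injective.injOn).subset ?_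
  intro P hP
  exact (mem_iff hi hD hθ).1 hP

/-! ## the conclusion -/

/-- **The Mordell-Weil group.** -/
theorem mw_fin {F : Type} [Field F] [NumberField F] {k : ℕ} {d : Fin k → ℕ} {t : Fin k → F}
    (hcube : ∀ j, t j ^ 3 = (d j : F))
    (hgen : IntermediateField.adjoin ℚ ({x : F | x ^ 3 = 1} ∪ Set.range t) = ⊤)
    {N : ℕ} (hN : N ≠ 0) (hd : ∀ j, d j ≠ 0)
    (hfin : ∀ e : Fin k → ZMod 3,
      Finite (EQ (WD ((N * ∏ j, d j ^ (e j).val : ℕ) : ℤ))).toAffine.Point) :
    Finite (PD N F) := by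
  obtain ⟨i₀, hi⟩ : ∃ i₀ : QB, i₀ ^ 2 + i₀ + 1 = 0 := by
    obtain ⟨z, hz⟩ := IsAlgClosed.exists_pow_nat_eq (-3 : QB) (n := 2) (by norm_num)
    refine ⟨(z - 1) / 2, ?_⟩
    linear_combination (1 / 4 : QB) * hz
  obtain ⟨θ, hθ⟩ := IsAlgClosed.exists_pow_nat_eq (((N : ℤ)) : QB) (n := 3) (by norm_num)
  have hθn : θ ^ 3 = ((N : ℕ) : QB) := by rw [hθ]; push_cast; rfl
  have ψ : F →ₐ[ℚ] QB := IsAlgClosed.lift
  have hDZ : ((N : ℕ) : ℤ) ≠ 0 := by exact_mod_cast hN
  have hN0 : ((N : ℕ) : QB) ≠ 0 := by exact_mod_cast hN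
  have hθ0 : θ ≠ 0 := by
    rintro rfl
    rw [zero_pow (by norm_num)] at hθn
    exact hN0 hθn.symm
  have ht3 : ∀ j, ψ (t j) ^ 3 = (d j : QB) := fun j => by rw [← map_pow, hcube, map_natCast]
  have ht0 : ∀ j, ψ (t j) ≠ 0 := by
    intro j h
    have h1 := ht3 j
    rw [h, zero_pow (by norm_num)] at h1
    exact hd j (by exact_mod_cast h1.symm)
  have hS : (SS hi (Hk (H0 i₀) fun j => ψ (t j)) θ : Set (Pt QB)).Finite := by
    refine steps hi (fun σ hσ => hσ) k (fun j => ψ (t j)) d θ N hθ0 ht0 hθn ht3 fun e => ?_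
    refine base hi (D := N * ∏ j, d j ^ (e j).val) ?_ ?_ (hfin e)
    · have : N * ∏ j, d j ^ (e j).val ≠ 0 :=
        mul_ne_zero hN (Finset.prod_ne_zero_iff.2 fun j _ => pow_ne_zero _ (hd j))
      exact_mod_cast this
    · rw [mul_pow, hθn, ← Finset.prod_pow]
      push_cast
      congr 1
      refine Finset.prod_congr rfl fun j _ => ?_
      rw [← pow_mul, mul_comm, pow_mul, ht3]
  have hinj : Function.Injective (fun P : PD N F => (Ph hDZ hθ).symm (ac N ψ P)) :=
    (Ph hDZ hθ).symm.injective.comp (Affine.Point.map_injective ψ)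
  have hmem : ∀ P : PD N F, (Ph hDZ hθ).symm (ac N ψ P) ∈
      SS hi (Hk (H0 i₀) fun j => ψ (t j)) θ := by
    intro P
    rw [mem_iff hi hDZ hθ]
    intro σ hσ
    rw [AddEquiv.apply_symm_apply]
    have h1 := Pool.Agent.TH841.SH.act_act (EQ (WD (N : ℤ))) ψ σ.toAlgHom P
    have h2 : σ.toAlgHom.comp ψ = ψ := ?_
    · refine h1.trans ?_
      rw [h2]
    refine AlgHom.ext fun x => ?_
    have hx : x ∈ (⊤ : IntermediateField ℚ F) := trivial
    rw [← hgen] at hx
    refine IntermediateField.adjoin_induction ℚ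
      (p := fun y _ => (σ.toAlgHom.comp ψ) y = ψ y) ?_ ?_ ?_ ?_ ?_ hx
    · rintro x (hx | ⟨j, rfl⟩)
      · have hx3 : x ^ 3 = 1 := hx
        have h5 : (ψ x) ^ 3 = 1 := by rw [← map_pow, hx3, map_one]
        have hσi : σ i₀ = i₀ := hσ.1
        have h6 : (ψ x - 1) * ((ψ x - i₀) * (ψ x - i₀ ^ 2)) = 0 := by
          linear_combination h5 + (-(ψ x) ^ 2 + ψ x) * hi + (ψ x - 1) * ip3 hi
        show σ (ψ x) = ψ x
        rcases mul_eq_zero.1 h6 with h7 | h7
        · rw [sub_eq_zero.1 h7, map_one]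
        · rcases mul_eq_zero.1 h7 with h8 | h8
          · rw [sub_eq_zero.1 h8, hσi]
          · rw [sub_eq_zero.1 h8, map_pow, hσi]
      · exact hσ.2 j
    · intro y
      exact ((σ.toAlgHom.comp ψ).commutes y).trans (ψ.commutes y).symm
    · intro x y _ _ hx hy
      rw [map_add, map_add, hx, hy]
    · intro x _ hx
      rw [map_inv₀, map_inv₀, hx]
    · intro x y _ _ hx hy
      rw [map_mul, map_mul, hx, hy]
  have hS' := hS.to_subtype
  exact Finite.of_injective (fun P : PD N F => (⟨_, hmem P⟩ :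
    {P : Pt QB // P ∈ (SS hi (Hk (H0 i₀) fun j => ψ (t j)) θ : Set (Pt QB))}))
    fun P Q h => hinj (congrArg Subtype.val h)

end Q283.MC
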