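import Pool.Agent.Q283.MC.Glo
import Pool.Agent.Q283.MC.Mw
import Pool.Agent.Q283.TQ.Elem

/-!
# The rank part of the conjecture over a field generated by cube roots
-/

set_option autoImplicit false
set_option linter.unusedSectionVars false
set_option linter.style.haveILetI false

open scoped Classical

namespace Q283.MC

open NumberField IsDedekindDomain Module WeierstrassCurve
open Pool.Agent.H921R2.TatePole (below deg nm nm_eq)
open Pool.Agent.H82R3.EK (natCast_mem_iff)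
open W165.CE (av)
open Pool.Agent.Y703.CT (WD IsL EQ Cls NoSplit)
open Pool.Agent.Y710.CTE (Ed Ed_nons co co_inj fin_of)
open Pool.Agent.Y692.CT (PD)

theorem eq_Ed (D : ℕ) : EQ (WD (D : ℤ)) = Ed ((D : ℕ) : ℚ) := by
  ext <;> simp [WD, Ed]

/-- the points of the equations that differ by a cube -/
theorem fin_scale {D c : ℕ} (hD : D ≠ 0) (hc : c ≠ 0)
    (h : Finite (EQ (WD ((D : ℕ) : ℤ))).toAffine.Point) :
    Finite (EQ (WD ((D * c ^ 3 : ℕ) : ℤ))).toAffine.Point := by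
  rw [eq_Ed] at h ⊢
  have hc0 : ((c : ℕ) : ℚ) ≠ 0 := by exact_mod_cast hc
  have hD0 : ((D : ℕ) : ℚ) ≠ 0 := by exact_mod_cast hD
  have key := fin_of (K := ℚ) (F := ℚ) hD0 h ((c : ℚ) ^ 2) ((c : ℚ) ^ 3)
    (V := Ed (((D * c ^ 3 : ℕ) : ℕ) : ℚ)) Set.univ (fun x y hn _ => by
      have h1 : y ^ 2 + ((D * c ^ 3 : ℕ) : ℚ) * y = x ^ 3 := by
        have h2 := (Affine.equation_iff _ _).1 hn.1
        have h3 : y ^ 2 + 0 * x * y + ((D * c ^ 3 : ℕ) : ℚ) * y = x ^ 3 + 0 * x ^ 2 + 0 * x + 0 := h2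
        linear_combination h3
      refine ⟨x / (c : ℚ) ^ 2, y / (c : ℚ) ^ 3, ?_, ?_, ?_⟩
      · push_cast at h1
        have e1 : (y / (c : ℚ) ^ 3) ^ 2 + (D : ℚ) * (y / (c : ℚ) ^ 3) =
            (y ^ 2 + (D : ℚ) * (c : ℚ) ^ 3 * y) / (c : ℚ) ^ 6 := by
          field_simp
        have e2 : (x / (c : ℚ) ^ 2) ^ 3 = x ^ 3 / (c : ℚ) ^ 6 := by
          rw [div_pow, ← pow_mul]
        rw [e1, e2, h1]
      · show x = (x / (c : ℚ) ^ 2) * (c : ℚ) ^ 2
        field_simp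
      · show y = (y / (c : ℚ) ^ 3) * (c : ℚ) ^ 3
        field_simp)
  exact Set.finite_univ_iff.1 key

/-- what is known over the rational numbers -/
theorem conc {D : ℕ} (hC : Cls D) (hS : NoSplit D) :
    Finite (EQ (WD ((D : ℕ) : ℤ))).toAffine.Point ∧ ∃ f, IsL (WD ((D : ℕ) : ℤ)) f ∧ f 1 ≠ 0 := by
  obtain ⟨-, h1, f, hf, hf1, -⟩ := (Q283.TQ.con_iff hC).2 hS
  exact ⟨h1.1, f, hf, hf1⟩

section
variable {F : Type} [Field F] [NumberField F]

/-- the coefficient of the equation `y² + N y = x³` at a place -/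
noncomputable def aF (N : ℕ) (v : HeightOneSpectrum (𝓞 F)) : ℤ :=
  ((Ideal.absNorm v.asIdeal : ℕ) : ℤ) -
    ((Nat.card {x : (𝓞 F ⧸ v.asIdeal) × (𝓞 F ⧸ v.asIdeal) //
      x.2 ^ 2 + (N : 𝓞 F ⧸ v.asIdeal) * x.2 = x.1 ^ 3} : ℕ) : ℤ)

theorem aF_eq {N : ℕ} (v : HeightOneSpectrum (𝓞 F)) (h2 : (below v : ℕ) ≠ 2) :
    aF N v = av 0 (16 * (N : ℤ) ^ 2) v := by
  have hmax : v.asIdeal.IsMaximal := v.isPrime.isMaximal v.ne_bot
  letI : Field (𝓞 F ⧸ v.asIdeal) := Ideal.Quotient.field v.asIdeal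
  have h20 : (2 : 𝓞 F ⧸ v.asIdeal) ≠ 0 := by
    intro h
    have h3 : ((2 : ℕ) : 𝓞 F) ∈ v.asIdeal := by
      rw [← Ideal.Quotient.eq_zero_iff_mem, map_natCast]
      exact_mod_cast h
    rw [natCast_mem_iff] at h3
    exact h2 ((Nat.prime_dvd_prime_iff_eq (below v).2 Nat.prime_two).1 h3)
  have h40 : (4 : 𝓞 F ⧸ v.asIdeal) ≠ 0 := by
    have : (4 : 𝓞 F ⧸ v.asIdeal) = 2 * 2 := by norm_num
    rw [this]
    exact mul_ne_zero h20 h20
  unfold aF av
  congr 2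
  refine Nat.card_congr (Equiv.subtypeEquiv ⟨fun P => (4 * P.1, 4 * (2 * P.2 + N)),
    fun P => (P.1 / 4, (P.2 / 4 - N) / 2), fun P => ?_, fun P => ?_⟩ fun P => ?_)
  · refine Prod.ext ?_ ?_
    · show 4 * P.1 / 4 = P.1
      field_simp
    · show (4 * (2 * P.2 + (N : 𝓞 F ⧸ v.asIdeal)) / 4 - N) / 2 = P.2
      field_simp
      ring
  · refine Prod.ext ?_ ?_
    · show 4 * (P.1 / 4) = P.1
      field_simp
    · show 4 * (2 * ((P.2 / 4 - (N : 𝓞 F ⧸ v.asIdeal)) / 2) + N) = P.2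
      field_simp
      ring
  · show P.2 ^ 2 + (N : 𝓞 F ⧸ v.asIdeal) * P.2 = P.1 ^ 3 ↔ (4 * (2 * P.2 + (N : 𝓞 F ⧸ v.asIdeal))) ^ 2 =
      (4 * P.1) ^ 3 + ((0 : ℤ) : 𝓞 F ⧸ v.asIdeal) * (4 * P.1) +
        ((16 * (N : ℤ) ^ 2 : ℤ) : 𝓞 F ⧸ v.asIdeal)
    push_cast
    constructor
    · intro h
      linear_combination 64 * h
    · intro h
      have h64 : (64 : 𝓞 F ⧸ v.asIdeal) ≠ 0 := by
        have : (64 : 𝓞 F ⧸ v.asIdeal) = 4 * 4 * 4 := by norm_num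
        rw [this]
        exact mul_ne_zero (mul_ne_zero h40 h40) h40
      apply mul_left_cancel₀ h64
      linear_combination h

/-- the Euler factor of `y² + N y = x³`, omitted at the places that divide `M` -/
noncomputable def eF (M N : ℕ) (s : ℂ) (v : HeightOneSpectrum (𝓞 F)) : ℂ :=
  if ((M : ℕ) : 𝓞 F) ∈ v.asIdeal then 1 else
    (1 - ((aF N v : ℤ) : ℂ) * ((Ideal.absNorm v.asIdeal : ℕ) : ℂ) ^ (-s) +
      ((Ideal.absNorm v.asIdeal : ℕ) : ℂ) ^ (1 - 2 * s))⁻¹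

theorem eF_eq {k : ℕ} {N : ℕ} {d : Fin k → ℕ} (s : ℂ) (v : HeightOneSpectrum (𝓞 F)) :
    eF (MM N d) N s v = gv (MM N d) N s v := by
  unfold eF gv
  by_cases h : ((MM N d : ℕ) : 𝓞 F) ∈ v.asIdeal
  · rw [if_pos h, if_pos h]
  · rw [if_neg h, if_neg h]
    rw [natCast_mem_iff] at h
    rw [aF_eq v (MM_ndvd (below v).2 h).1]
    rfl

/-- the rank part of the conjecture, rank `0`: the group of points is finite, and the Euler product
over the places that do not divide `6 N ∏ d_j` has a holomorphic continuation which is not zero at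
`1` -/
def RankZero {k : ℕ} (N : ℕ) (d : Fin k → ℕ) (F : Type) [Field F] [NumberField F] : Prop :=
  Finite ((EQ (WD (N : ℤ))).baseChange F).toAffine.Point ∧
    ∃ L : ℂ → ℂ, Differentiable ℂ L ∧
      (∀ s : ℂ, 3 / 2 < s.re → HasProd (eF (F := F) (MM N d) N s) (L s)) ∧ L 1 ≠ 0

/-- **The theorem for one field.** -/
theorem tf {k r : ℕ} {d : Fin k → ℕ} {θ : Fin k → F} (h : Rd r F d θ) {N : ℕ} (hN : N ≠ 0)
    (hd : ∀ j, d j ≠ 0) {D c : (Fin k → ZMod 3) → ℕ}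
    (hDc : ∀ e, tw N d e = D e * (c e) ^ 3) (hC : ∀ e, Cls (D e)) (hS : ∀ e, NoSplit (D e)) :
    RankZero N d F := by
  have hc : ∀ e, c e ≠ 0 := by
    intro e h0
    have h1 := hDc e
    rw [h0, zero_pow (by norm_num), mul_zero] at h1
    unfold tw at h1
    rcases mul_eq_zero.1 h1 with h2 | h2
    · exact hN h2
    · obtain ⟨j, -, hj⟩ := Finset.prod_eq_zero_iff.1 h2
      exact hd j (eq_zero_of_pow_eq_zero hj)
  choose h1 f hf hf1 using fun e => conc (hC e) (hS e)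
  constructor
  · refine mw_fin h.cube h.gen hN hd fun e => ?_
    have h2 := fin_scale (hC e).1.1 (hc e) (h1 e)
    rw [← hDc e] at h2
    exact h2
  · obtain ⟨L, h3, h4, h5⟩ := glo h hN hd hDc hf
    refine ⟨L, h3, fun s hs => ?_, h5 hf1⟩
    refine (h4 s hs).congr_fun fun v => ?_
    exact eF_eq s v

end

end Q283.MC
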