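import Mathlib

namespace Q283.MC

open WeierstrassCurve

/-- The curve `y² = x³ + k` over `ℚ`. -/
def C (k : ℚ) : WeierstrassCurve ℚ := ⟨0, 0, 0, 0, k⟩

lemma eqn_iff (k x y : ℚ) : (C k).toAffine.Equation x y ↔ y ^ 2 = x ^ 3 + k := by
  rw [Affine.equation_iff]
  simp [C]

lemma nonsing_iff (k x y : ℚ) : (C k).toAffine.Nonsingular x y ↔
    y ^ 2 = x ^ 3 + k ∧ (x ≠ 0 ∨ y ≠ 0) := by
  rw [Affine.nonsingular_iff, eqn_iff]
  refine and_congr_right fun _ => ?_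
  simp only [C, toAffine]
  constructor
  · rintro (h | h)
    · left; intro hx; apply h; rw [hx]; ring
    · right; intro hy; apply h; rw [hy]; ring
  · rintro (h | h)
    · left
      intro h0
      apply h
      have : 3 * x ^ 2 = 0 := by linarith
      have := pow_eq_zero_iff (two_ne_zero) |>.mp (by linarith : x ^ 2 = 0)
      exact this
    · right
      intro h0
      apply h
      linarith

lemma negY_eq (k x y : ℚ) : (C k).toAffine.negY x y = -y := by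
  simp [Affine.negY, C]

/-- Addition of two points with different abscissae. -/
lemma add_ne {k x₁ y₁ x₂ y₂ : ℚ} (h₁ : (C k).toAffine.Nonsingular x₁ y₁)
    (h₂ : (C k).toAffine.Nonsingular x₂ y₂) (hx : x₁ ≠ x₂) :
    ∃ (y₃ : ℚ) (h₃ : (C k).toAffine.Nonsingular
      (((y₁ - y₂) / (x₁ - x₂)) ^ 2 - x₁ - x₂) y₃),
      Affine.Point.some x₁ y₁ h₁ + Affine.Point.some x₂ y₂ h₂ = Affine.Point.some _ y₃ h₃ := by
  classical
  have hs : (C k).toAffine.slope x₁ x₂ y₁ y₂ = (y₁ - y₂) / (x₁ - x₂) := Affine.slope_of_X_ne hx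
  have hX : (C k).toAffine.addX x₁ x₂ ((C k).toAffine.slope x₁ x₂ y₁ y₂) =
      ((y₁ - y₂) / (x₁ - x₂)) ^ 2 - x₁ - x₂ := by
    rw [hs]; simp [Affine.addX, C]
  have h := Affine.Point.add_of_X_ne (h₁ := h₁) (h₂ := h₂) hx
  rw [h]
  have hn := Affine.nonsingular_add h₁ h₂ (fun hxy => hx hxy.1)
  refine ⟨_, hX ▸ hn, ?_⟩
  congr 1

/-- Doubling of a point with nonzero ordinate. -/
lemma add_self {k x y : ℚ} (h : (C k).toAffine.Nonsingular x y) (hy : y ≠ 0) :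
    ∃ (h₃ : (C k).toAffine.Nonsingular
      ((3 * x ^ 2 / (2 * y)) ^ 2 - 2 * x)
      (-(3 * x ^ 2 / (2 * y) * (((3 * x ^ 2 / (2 * y)) ^ 2 - 2 * x) - x) + y))),
      Affine.Point.some x y h + Affine.Point.some x y h = Affine.Point.some _ _ h₃ := by
  classical
  have hne : y ≠ (C k).toAffine.negY x y := by
    rw [negY_eq]; intro h'; apply hy; linarith
  have hs : (C k).toAffine.slope x x y y = 3 * x ^ 2 / (2 * y) := by
    rw [Affine.slope_of_Y_ne rfl hne, negY_eq]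
    simp only [C, toAffine]
    congr 1 <;> ring
  have hX : (C k).toAffine.addX x x ((C k).toAffine.slope x x y y) =
      (3 * x ^ 2 / (2 * y)) ^ 2 - 2 * x := by
    rw [hs]; simp only [Affine.addX, C, toAffine]; ring
  have hY : (C k).toAffine.addY x x y ((C k).toAffine.slope x x y y) =
      -(3 * x ^ 2 / (2 * y) * (((3 * x ^ 2 / (2 * y)) ^ 2 - 2 * x) - x) + y) := by
    rw [Affine.addY, negY_eq, Affine.negAddY, hX, hs]
  have hadd := Affine.Point.add_self_of_Y_ne (h₁ := h) hne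
  rw [hadd]
  have hn := Affine.nonsingular_add h h (fun hxy => hne hxy.2)
  have hn' := hn
  rw [hX, hY] at hn'
  refine ⟨hn', ?_⟩
  congr 1

/-- Tripling of a point. -/
lemma triple {k x y : ℚ} (h : (C k).toAffine.Nonsingular x y) (hx : x ≠ 0) (hy : y ≠ 0)
    (hk : x ^ 3 + 4 * k ≠ 0) :
    ∃ (y₃ : ℚ) (h₃ : (C k).toAffine.Nonsingular
      ((x ^ 9 - 96 * k * x ^ 6 + 48 * k ^ 2 * x ^ 3 + 64 * k ^ 3) /
        (9 * x ^ 2 * (x ^ 3 + 4 * k) ^ 2)) y₃),
      (3 : ℕ) • Affine.Point.some x y h = Affine.Point.some _ y₃ h₃ := by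
  have hE : k = y ^ 2 - x ^ 3 := by
    have := ((nonsing_iff k x y).mp h).1
    linarith
  obtain ⟨h₂, e₂⟩ := add_self h hy
  have hne : (3 * x ^ 2 / (2 * y)) ^ 2 - 2 * x ≠ x := by
    intro h0
    apply hk
    have h1 : 9 * x ^ 4 = 12 * x * y ^ 2 := by
      field_simp at h0
      linear_combination x * h0
    have h2 : x * (x ^ 3 + 4 * k) = 0 := by
      rw [hE]; linear_combination (-1 / 3) * h1
    exact (mul_eq_zero.mp h2).resolve_left hx
  obtain ⟨y₃, h₃, e₃⟩ := add_ne h₂ h hne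
  have hd : x ^ 3 + 4 * (y ^ 2 - x ^ 3) ≠ 0 := by rw [← hE]; exact hk
  have hX : ((-(3 * x ^ 2 / (2 * y) * (((3 * x ^ 2 / (2 * y)) ^ 2 - 2 * x) - x) + y) - y) /
      ((3 * x ^ 2 / (2 * y)) ^ 2 - 2 * x - x)) ^ 2 - ((3 * x ^ 2 / (2 * y)) ^ 2 - 2 * x) - x =
      ((x ^ 9 - 96 * k * x ^ 6 + 48 * k ^ 2 * x ^ 3 + 64 * k ^ 3) /
        (9 * x ^ 2 * (x ^ 3 + 4 * k) ^ 2)) := by
    have e1 : (3 * x ^ 2 / (2 * y)) ^ 2 - 2 * x - x =
        -(3 * x * (x ^ 3 + 4 * (y ^ 2 - x ^ 3))) / (4 * y ^ 2) := by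
      field_simp; ring
    have e2 : (3 * x ^ 2 / (2 * y)) ^ 2 - 2 * x =
        x - (3 * x * (x ^ 3 + 4 * (y ^ 2 - x ^ 3))) / (4 * y ^ 2) := by
      field_simp; ring
    rw [e1, e2, hE]
    field_simp
    ring
  have hn := h₃
  rw [hX] at hn
  refine ⟨y₃, hn, ?_⟩
  have e : (3 : ℕ) • Affine.Point.some x y h =
      (Affine.Point.some x y h + Affine.Point.some x y h) + Affine.Point.some x y h := by
    rw [succ_nsmul, two_nsmul]
  rw [e, e₂, e₃]
  congr 1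

end Q283.MC
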