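import Pool.Agent.Q283.MC.Tf
import Pool.Agent.Q283.TE.Fin

/-!
# Cube-free parts; the common prime twists over all fields generated by cube roots
-/

set_option autoImplicit false
set_option linter.unusedSectionVars false

open scoped Classical

namespace Q283.MC

open Filter Topology
open Pool.Agent.Y703.CT (Cls NoSplit Base)
open Q283.TQ (Bs CN GoodQ AllQ okQ cQ clsN clsN_eq bs_mul cls_iff main_Q)

theorem exists_cf : ∀ n : ℕ, n ≠ 0 → ∃ D c : ℕ, n = D * c ^ 3 ∧ ∀ p : ℕ, p.Prime → ¬ p ^ 3 ∣ D := by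
  intro n
  induction n using Nat.strong_induction_on with
  | _ n ih =>
    intro hn
    by_cases h : ∃ p : ℕ, p.Prime ∧ p ^ 3 ∣ n
    · obtain ⟨p, hp, m, rfl⟩ := h
      have hm : m ≠ 0 := by
        rintro rfl
        exact hn (mul_zero _)
      have h1 : 1 < p ^ 3 := Nat.one_lt_pow (by norm_num) hp.one_lt
      have h2 : m < p ^ 3 * m := by
        have := Nat.pos_of_ne_zero hm
        nlinarith
      obtain ⟨D, c, h3, h4⟩ := ih m h2 hm
      exact ⟨D, p * c, by rw [h3]; ring, h4⟩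
    · push Not at h
      exact ⟨n, 1, by ring, h⟩

theorem mod_three {n : ℕ} (hn : n ≠ 0) (h : ∀ p : ℕ, p.Prime → p ∣ n → p % 3 = 1) : n % 3 = 1 := by
  induction n using Nat.strong_induction_on with
  | _ n ih =>
    by_cases h1 : n = 1
    · rw [h1]
    · obtain ⟨p, hp, m, rfl⟩ := Nat.exists_prime_and_dvd h1
      have hm : m ≠ 0 := by
        rintro rfl
        exact hn (mul_zero _)
      have h2 : m < p * m := by
        have := Nat.pos_of_ne_zero hm
        have := hp.one_lt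
        nlinarith
      rw [Nat.mul_mod, h p hp (dvd_mul_right _ _), ih m h2 hm fun q hq hqm =>
        h q hq (hqm.mul_left _)]

theorem cube_mod {c : ℕ} (h : c % 3 = 1) : c ^ 3 % 9 = 1 := by
  obtain ⟨t, rfl⟩ : ∃ t, c = 3 * t + 1 := ⟨c / 3, by omega⟩
  have : (3 * t + 1) ^ 3 = 9 * (3 * t ^ 3 + 3 * t ^ 2 + t) + 1 := by ring
  omega

/-- the cube-free part of `N R`, if all primes that divide `R` are `1` modulo `3` -/
theorem cf_bs {N R : ℕ} (hN : Bs N) (hR : R ≠ 0) (h1 : ∀ p : ℕ, p.Prime → p ∣ R → p % 3 = 1) :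
    ∃ D c : ℕ, N * R = D * c ^ 3 ∧ Bs D ∧ D % 9 = N * R % 9 ∧ D ∣ N * R := by
  have hn : N * R ≠ 0 := mul_ne_zero hN.ne_zero hR
  obtain ⟨D, c, h2, h3⟩ := exists_cf _ hn
  obtain ⟨⟨h0, h30, hcf⟩, q, hq, hq2, hqN, hall⟩ := hN
  have hD0 : D ≠ 0 := by
    rintro rfl
    rw [zero_mul] at h2
    exact hn h2
  have hc0 : c ≠ 0 := by
    rintro rfl
    rw [zero_pow (by norm_num), mul_zero] at h2
    exact hn h2
  have hc : ∀ p : ℕ, p.Prime → p ∣ c → p % 3 = 1 := by
    intro p hp hpc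
    have h4 : p ^ 3 ∣ N * R := by
      rw [h2]
      exact (pow_dvd_pow_of_dvd hpc 3).mul_left _
    by_cases hpR : p ∣ R
    · exact h1 p hp hpR
    · have h5 : p ^ 3 ∣ N := Nat.Coprime.dvd_of_dvd_mul_right
        (Nat.Coprime.pow_left 3 ((Nat.Prime.coprime_iff_not_dvd hp).2 hpR)) h4
      exact absurd h5 (hcf p hp)
  have hdvd : D ∣ N * R := by
    rw [h2]
    exact dvd_mul_right _ _
  refine ⟨D, c, h2, ⟨⟨hD0, ?_, h3⟩, q, hq, hq2, ?_, ?_⟩, ?_, hdvd⟩
  · intro h
    rcases (Nat.Prime.dvd_mul Nat.prime_three).1 (h.trans hdvd) with h4 | h4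
    · exact h30 h4
    · have := h1 3 Nat.prime_three h4
      norm_num at this
  · have h4 : q ∣ D * c ^ 3 := by
      rw [← h2]
      exact hqN.mul_right _
    rcases (Nat.Prime.dvd_mul hq).1 h4 with h5 | h5
    · exact h5
    · have := hc q hq (hq.dvd_of_dvd_pow h5)
      omega
  · intro p hp hpD hpq
    rcases (Nat.Prime.dvd_mul hp).1 (hpD.trans hdvd) with h4 | h4
    · exact hall p hp h4 hpq
    · exact h1 p hp h4
  · rw [h2, Nat.mul_mod, cube_mod (mod_three hc0 hc), mul_one, Nat.mod_mod]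

theorem mod_prod {ι : Type} (s : Finset ι) (f : ι → ℕ) (e : ι → ℕ) (h : ∀ j, f j % 9 = 1) :
    (∏ j ∈ s, f j ^ e j) % 9 = 1 := by
  induction s using Finset.induction_on with
  | empty => simp
  | insert a s ha ih =>
    rw [Finset.prod_insert ha, Nat.mul_mod, ih, Nat.pow_mod, h a, one_pow]
    rfl

/-- the combination of the two limits -/
theorem comb {n : ℕ} (D : Fin n → ℕ) (hD : ∀ i, Bs (D i)) (hcl : 0 < clsN D) :
    Tendsto (fun X : ℕ => (CN (GoodQ D) X : ℝ) / (CN (fun _ => True) X : ℝ)) atTop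
      (𝓝 ((clsN D : ℝ) / 3 * cQ D)) := by
  obtain ⟨h1, h2, -⟩ := main_Q D hD
  rw [clsN_eq D] at h1 h2
  have h3 := h1.mul (h2 hcl)
  refine h3.congr fun X => ?_
  by_cases h0 : CN (AllQ D) X = 0
  · have h4 : CN (GoodQ D) X = 0 := by
      have h5 : CN (GoodQ D) X ≤ CN (AllQ D) X := by
        unfold CN
        refine Finset.card_le_card fun l hl => ?_
        rw [Finset.mem_filter] at hl ⊢
        exact ⟨hl.1, hl.2.1, fun i => ⟨(hl.2.2 i).1, (hl.2.2 i).2.1, (hl.2.2 i).2.2.1⟩⟩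
      omega
    rw [h0, h4]
    simp
  · have h4 : (CN (AllQ D) X : ℝ) ≠ 0 := by exact_mod_cast h0
    by_cases h5 : (CN (fun _ => True) X : ℝ) = 0
    · rw [h5, div_zero, div_zero, zero_mul]
    · field_simp

/-- **Prime twists over all fields generated by cube roots of the `d_j`.** -/
theorem g2 {N : ℕ} (hN : Bs N) {k : ℕ} (d : Fin k → ℕ) (hd0 : ∀ j, d j ≠ 0)
    (hd9 : ∀ j, d j % 9 = 1) (hd3 : ∀ (j : Fin k) (p : ℕ), p.Prime → p ∣ d j → p % 3 = 1) :
    ∃ m : ℕ, Squarefree m ∧ (∀ p ∈ m.primeFactors, p % 9 = 1 ∧ ¬ p ∣ N) ∧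
      ∃ δ : ℝ, 0 < δ ∧ ∃ S : ℕ → Prop,
        Tendsto (fun X : ℕ => (CN S X : ℝ) / (CN (fun _ => True) X : ℝ)) atTop (𝓝 δ) ∧
        ∀ l : ℕ, l.Prime → l % 3 = 1 → S l →
          ¬ l ∣ N * m ∧ ∀ (r : ℕ) (F : Type) [Field F] [NumberField F] (θ : Fin k → F), Rd r F d θ →
            RankZero (N * m * l) d F := by
  have hR0 : ∀ e : Fin k → ZMod 3, ∏ j, d j ^ (e j).val ≠ 0 := fun e =>
    Finset.prod_ne_zero_iff.2 fun j _ => pow_ne_zero _ (hd0 j)
  have hR3 : ∀ (e : Fin k → ZMod 3) (p : ℕ), p.Prime → p ∣ ∏ j, d j ^ (e j).val →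
      p % 3 = 1 := by
    intro e p hp h
    obtain ⟨j, -, hj⟩ := (hp.prime.dvd_finsetProd_iff _).1 h
    exact hd3 j p hp (hp.dvd_of_dvd_pow hj)
  choose D c hDc hB h9 hdvd using fun e => cf_bs hN (hR0 e) (hR3 e)
  have hD9 : ∀ e, D e % 9 = N % 9 := by
    intro e
    rw [h9 e, Nat.mul_mod, mod_prod _ _ _ hd9, mul_one, Nat.mod_mod]
  -- the family
  let E := Fintype.equivFin (Fin k → ZMod 3)
  let D0 : Fin (Fintype.card (Fin k → ZMod 3)) → ℕ := fun i => D (E.symm i)
  have hB0 : ∀ i, Bs (D0 i) := fun i => hB _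
  have hcard : 0 < Fintype.card (Fin k → ZMod 3) := Fintype.card_pos
  obtain ⟨m, h1, hm9, h2, h3, h4, h5⟩ := Q283.TE.common D0 hB0 hcard
  have hcl : 0 < clsN (fun i => D0 i * m) := by
    rw [Q283.TE.clsN_mul D0 hm9]
    have hNn := Q283.TQ.clsN_pos (fun _ : Fin 1 => N) (by norm_num)
    have : clsN D0 = clsN (fun _ : Fin 1 => N) := by
      unfold clsN
      congr 1
      refine Finset.filter_congr fun r _ => ?_
      have e1 : ∀ i, (D0 i * r) % 9 = (N * r) % 9 := by
        intro i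
        rw [Nat.mul_mod, hD9, ← Nat.mul_mod]
      simp only [e1]
      constructor
      · intro h _
        exact h ⟨0, hcard⟩
      · intro h _
        exact h 0
    rw [this]
    exact hNn
  have hlim := comb (fun i => D0 i * m) h4 hcl
  refine ⟨m, h1, fun p hp => ⟨(h3 p hp).1, fun hpN => ?_⟩, _, ?_, _, hlim, ?_⟩
  · -- `D 0 = N` up to a cube; a prime dividing `N` divides some `D e`
    have hpp := Nat.prime_of_mem_primeFactors hp
    have h6 := hDc 0
    have hz : ∏ j, d j ^ ((0 : Fin k → ZMod 3) j).val = 1 := by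
      refine Finset.prod_eq_one fun j _ => ?_
      rw [Pi.zero_apply, ZMod.val_zero, pow_zero]
    rw [hz, mul_one] at h6
    have hc1 : c 0 = 1 := by
      by_contra hc1
      obtain ⟨q, hq, hqc⟩ := Nat.exists_prime_and_dvd hc1
      exact hN.1.2.2 q hq (by
        rw [h6]
        exact (pow_dvd_pow_of_dvd hqc 3).mul_left _)
    rw [hc1, one_pow, mul_one] at h6
    refine (h3 p hp).2 (E 0) ?_
    show p ∣ D (E.symm (E 0))
    rw [Equiv.symm_apply_apply, ← h6]
    exact hpN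
  · have : (0 : ℝ) < clsN (fun i => D0 i * m) := by exact_mod_cast hcl
    positivity
  · intro l hl hl1 hS
    have hall : ∀ e, ¬ l ∣ D e * m ∧ (D e * m * l) % 9 ≠ 1 ∧ (D e * m * l) % 9 ≠ 8 ∧
        NoSplit (D e * m * l) := by
      intro e
      have := hS (E e)
      simp only [D0, Equiv.symm_apply_apply] at this
      exact this
    have hBm : ∀ e, Bs (D e * m) := by
      intro e
      have := h4 (E e)
      simp only [D0, Equiv.symm_apply_apply] at this
      exact this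
    refine ⟨?_, fun r F _ _ θ h => ?_⟩
    · have h6 := hDc 0
      have hz : ∏ j, d j ^ ((0 : Fin k → ZMod 3) j).val = 1 := by
        refine Finset.prod_eq_one fun j _ => ?_
        rw [Pi.zero_apply, ZMod.val_zero, pow_zero]
      rw [hz, mul_one] at h6
      have hc1 : c 0 = 1 := by
        by_contra hc1
        obtain ⟨q, hq, hqc⟩ := Nat.exists_prime_and_dvd hc1
        exact hN.1.2.2 q hq (by
          rw [h6]
          exact (pow_dvd_pow_of_dvd hqc 3).mul_left _)
      rw [hc1, one_pow, mul_one] at h6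
      rw [h6]
      exact (hall 0).1
    · have hm0 : m ≠ 0 := fun h => by
        rw [h] at h1
        exact not_squarefree_zero h1
      refine tf h (mul_ne_zero (mul_ne_zero hN.ne_zero hm0) hl.ne_zero) hd0
        (D := fun e => D e * m * l) (c := c) (fun e => ?_) (fun e => ?_) fun e => (hall e).2.2.2
      · unfold tw
        have := hDc e
        calc N * m * l * ∏ j, d j ^ (e j).val = (N * ∏ j, d j ^ (e j).val) * m * l := by ring
          _ = D e * m * l * c e ^ 3 := by rw [this]; ring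
      · obtain ⟨a1, a2, a3, a4⟩ := hall e
        exact (cls_iff (bs_mul (hBm e) hl hl1 a1)).2 ⟨a2, a3⟩

end Q283.MC
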