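import Pool.Agent.Q283.MC.Spl

/-!
# The residue degrees in a field generated by cube roots
-/

set_option autoImplicit false
set_option linter.unusedSectionVars false
set_option linter.style.haveILetI false

open scoped Classical

namespace Q283.MC

open NumberField IsDedekindDomain Module
open Pool.Agent.H921R2.TatePole (below deg nm nm_eq)

section
variable {F : Type} [Field F] [NumberField F]

theorem fin_quot (v : HeightOneSpectrum (𝓞 F)) : Finite (𝓞 F ⧸ v.asIdeal) :=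
  Ideal.finiteQuotientOfFreeOfNeBot v.asIdeal v.ne_bot

theorem card_quot (v : HeightOneSpectrum (𝓞 F)) :
    Nat.card (𝓞 F ⧸ v.asIdeal) = (below v : ℕ) ^ deg v := by
  have h := (nm_eq v).1
  rw [← h]
  rfl

theorem cast_zero (v : HeightOneSpectrum (𝓞 F)) : (((below v : ℕ) : ℕ) : 𝓞 F ⧸ v.asIdeal) = 0 := by
  have := Ideal.Quotient.eq_zero_iff_mem.2 (nm_eq v).2.2
  simpa using this

/-- a fixed equation bounds the degree -/
theorem sub_dvd (v : HeightOneSpectrum (𝓞 F)) {n : ℕ}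
    (h : ∀ z : 𝓞 F ⧸ v.asIdeal, z ^ ((below v : ℕ) ^ n) = z) :
    (below v : ℕ) ^ deg v - 1 ∣ (below v : ℕ) ^ n - 1 := by
  have hmax : v.asIdeal.IsMaximal := v.isPrime.isMaximal v.ne_bot
  letI : Field (𝓞 F ⧸ v.asIdeal) := Ideal.Quotient.field v.asIdeal
  have hfin := fin_quot v
  obtain ⟨g, hg⟩ := IsCyclic.exists_generator (α := (𝓞 F ⧸ v.asIdeal)ˣ)
  have h1 : orderOf g = (below v : ℕ) ^ deg v - 1 := by
    rw [orderOf_eq_card_of_forall_mem_zpowers hg, Nat.card_units, card_quot]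
  rw [← h1]
  apply orderOf_dvd_of_pow_eq_one
  have hpos : 0 < (below v : ℕ) ^ n := pow_pos (below v).2.pos n
  have h2 : g ^ ((below v : ℕ) ^ n) = g := by
    ext
    rw [Units.val_pow_eq_pow_val]
    exact h _
  have h3 : g ^ ((below v : ℕ) ^ n - 1) * g = g := by
    rw [← pow_succ, Nat.sub_add_cancel hpos, h2]
  exact mul_eq_right.1 h3

theorem deg_le (v : HeightOneSpectrum (𝓞 F)) {n : ℕ} (hn : n ≠ 0)
    (h : ∀ z : 𝓞 F ⧸ v.asIdeal, z ^ ((below v : ℕ) ^ n) = z) : deg v ≤ n := by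
  have h1 := sub_dvd v h
  have hp := (below v).2.one_lt
  have h2 : 1 < (below v : ℕ) ^ n := Nat.one_lt_pow hn hp
  have h3 := Nat.le_of_dvd (by omega) h1
  have h4 : 0 < (below v : ℕ) ^ deg v := pow_pos (by omega) _
  have h5 : (below v : ℕ) ^ deg v ≤ (below v : ℕ) ^ n := by omega
  exact (Nat.pow_le_pow_iff_right hp).1 h5

theorem deg_three (v : HeightOneSpectrum (𝓞 F))
    (h : ∀ z : 𝓞 F ⧸ v.asIdeal, z ^ ((below v : ℕ) ^ 3) = z) (h1 : deg v ≠ 1) : deg v = 3 := by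
  have h2 := deg_le v (by norm_num) h
  have h3 := (nm_eq v).2.1
  have h4 : deg v ≠ 2 := by
    intro h4
    have h5 := sub_dvd v h
    rw [h4] at h5
    have hp := (below v).2.one_lt
    set p := (below v : ℕ) with hpd
    have h6 : p ^ 3 - 1 = p * (p ^ 2 - 1) + (p - 1) := by
      have : 1 ≤ p ^ 2 := Nat.one_le_pow _ _ (by omega)
      zify [Nat.one_le_pow 3 p (by omega), this, hp.le]
      ring
    rw [h6] at h5
    have h7 : p ^ 2 - 1 ∣ p - 1 := (Nat.dvd_add_right (Dvd.intro_left _ rfl)).1 h5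
    have h8 := Nat.le_of_dvd (by omega) h7
    have h9 : p < p ^ 2 := by nlinarith
    omega
  omega

end

section
variable {F : Type} [Field F] [NumberField F] {k r : ℕ} {d : Fin k → ℕ} {θ : Fin k → F}

/-- the powers of a cube root -/
theorem root_pow {R : Type} [CommRing R] [NoZeroDivisors R] {p : ℕ} [Fact p.Prime] [CharP R p]
    {x : R} {a : ℕ} (hx : x ^ 3 = (a : R)) {m : ℕ} (hm : 3 ∣ m)
    (ha : ((a : ZMod p)) ^ (m / 3) = 1) : x ^ (m + 1) = x := by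
  obtain ⟨c, rfl⟩ := hm
  rw [Nat.mul_div_cancel_left _ (by norm_num)] at ha
  rw [pow_succ, pow_mul, hx]
  have h1 : ((a : R)) ^ c = 1 := by
    have h2 := congrArg (ZMod.castHom (dvd_refl p) R) ha
    rw [map_pow, map_natCast, map_one] at h2
    exact h2
  rw [h1, one_mul]

theorem zmod_pow {p : ℕ} [Fact p.Prime] {a : ℕ} (ha : ¬ p ∣ a) (c : ℕ) :
    ((a : ZMod p)) ^ ((p - 1) * c) = 1 := by
  have h0 : (a : ZMod p) ≠ 0 := by
    rw [Ne, ZMod.natCast_eq_zero_iff]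
    exact ha
  rw [pow_mul, ZMod.pow_card_sub_one_eq_one h0, one_pow]

/-- **The degrees.** -/
theorem degrees (h : Rd r F d θ) (p : Nat.Primes) (hp3 : (p : ℕ) ≠ 3)
    (hpd : ∀ j, ¬ (p : ℕ) ∣ d j) :
    (∑ v : {v : HeightOneSpectrum (𝓞 F) // below v = p}, deg v.1 = r * 3 ^ k) ∧
    ((p : ℕ) % 3 = 2 → ∀ v : HeightOneSpectrum (𝓞 F), below v = p → deg v = 1 ∨ deg v = 2) ∧
    ((p : ℕ) % 3 = 1 → (∀ j, ((d j : ℕ) : ZMod p) ^ (((p : ℕ) - 1) / 3) = 1) →
      ∀ v : HeightOneSpectrum (𝓞 F), below v = p → deg v = 1) ∧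
    ((p : ℕ) % 3 = 1 → (¬ ∀ j, ((d j : ℕ) : ZMod p) ^ (((p : ℕ) - 1) / 3) = 1) →
      ∀ v : HeightOneSpectrum (𝓞 F), below v = p → deg v = 3) := by
  have hpf : Fact (p : ℕ).Prime := ⟨p.2⟩
  have hp1 := p.2.one_lt
  set T : Set (𝓞 F) := {x | x ^ 3 = 1 ∨ ∃ j, x ^ 3 = (d j : 𝓞 F)} with hT
  have hgen : IntermediateField.adjoin ℚ ((fun x : 𝓞 F => (x : F)) '' T) = ⊤ := by
    rw [eq_top_iff, ← h.gen, IntermediateField.adjoin_le_iff]
    rintro x (hx | ⟨j, rfl⟩)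
    · have hx' : x ^ 3 = ((1 : ℕ) : F) := by
        rw [Nat.cast_one]
        exact hx
      obtain ⟨X, hX, hX3⟩ := exists_int hx'
      rw [Nat.cast_one] at hX3
      exact IntermediateField.subset_adjoin ℚ _ ⟨X, Or.inl hX3, hX⟩
    · obtain ⟨X, hX, hX3⟩ := exists_int (h.cube j)
      exact IntermediateField.subset_adjoin ℚ _ ⟨X, Or.inr ⟨j, hX3⟩, hX⟩
  have hc : ∀ x ∈ T, ∃ n : ℕ, x ^ 3 = (n : 𝓞 F) ∧ ¬ (p : ℕ) ∣ n := by
    rintro x (hx | ⟨j, hx⟩)
    · exact ⟨1, by rw [hx, Nat.cast_one], fun h => by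
        have := Nat.dvd_one.1 h
        omega⟩
    · exact ⟨d j, hx, hpd j⟩
  obtain ⟨h1, h2⟩ := main_split hgen p hp3 hc
  rw [h.deg] at h1
  -- the general tool
  have key : ∀ v : HeightOneSpectrum (𝓞 F), below v = p → ∀ n : ℕ, 3 ∣ (p : ℕ) ^ n - 1 →
      (∀ j, ((d j : ℕ) : ZMod p) ^ (((p : ℕ) ^ n - 1) / 3) = 1) →
      ∀ z : 𝓞 F ⧸ v.asIdeal, z ^ ((p : ℕ) ^ n) = z := by
    intro v hv n hn hj
    refine h2 v hv n fun x hx => ?_
    have hmax : v.asIdeal.IsMaximal := v.isPrime.isMaximal v.ne_bot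
    letI : Field (𝓞 F ⧸ v.asIdeal) := Ideal.Quotient.field v.asIdeal
    have hc := cast_zero v
    rw [hv] at hc
    have : CharP (𝓞 F ⧸ v.asIdeal) (p : ℕ) := by
      have : ringChar (𝓞 F ⧸ v.asIdeal) = (p : ℕ) := CharP.ringChar_of_prime_eq_zero p.2 hc
      rw [← this]; infer_instance
    have hpos : 0 < (p : ℕ) ^ n := pow_pos p.2.pos n
    rcases hx with hx | ⟨j, hx⟩
    · have h3 : Ideal.Quotient.mk v.asIdeal x ^ 3 = ((1 : ℕ) : 𝓞 F ⧸ v.asIdeal) := by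
        rw [← map_pow, hx, map_one, Nat.cast_one]
      have h4 := root_pow (p := (p : ℕ)) h3 hn (by rw [Nat.cast_one, one_pow])
      rwa [Nat.sub_add_cancel hpos] at h4
    · have h3 : Ideal.Quotient.mk v.asIdeal x ^ 3 = ((d j : ℕ) : 𝓞 F ⧸ v.asIdeal) := by
        rw [← map_pow, hx, map_natCast]
      have h4 := root_pow (p := (p : ℕ)) h3 hn (hj j)
      rwa [Nat.sub_add_cancel hpos] at h4
  refine ⟨h1, fun hm v hv => ?_, fun hm hall v hv => ?_, fun hm hall v hv => ?_⟩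
  · have h3 : (p : ℕ) ^ 2 - 1 = 3 * (((p : ℕ) - 1) * (((p : ℕ) + 1) / 3)) := by
      obtain ⟨t, ht⟩ : ∃ t, (p : ℕ) = 3 * t + 2 := ⟨(p : ℕ) / 3, by omega⟩
      rw [ht]
      have e1 : (3 * t + 2 + 1) / 3 = t + 1 := by omega
      have e2 : 3 * t + 2 - 1 = 3 * t + 1 := by omega
      rw [e1, e2]
      have : (3 * t + 2) ^ 2 = 3 * ((3 * t + 1) * (t + 1)) + 1 := by ring
      omega
    have h4 := key v hv 2 ⟨_, h3⟩ fun j => by
      rw [h3, Nat.mul_div_cancel_left _ (by norm_num)]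
      exact zmod_pow (hpd j) _
    rw [← hv] at h4
    have h5 := deg_le v (by norm_num) h4
    have h6 := (nm_eq v).2.1
    omega
  · have h4 := key v hv 1 (by rw [pow_one]; omega) fun j => by
      rw [pow_one]
      exact hall j
    rw [← hv] at h4
    have h5 := deg_le v (by norm_num) h4
    have h6 := (nm_eq v).2.1
    omega
  · have h3 : (p : ℕ) ^ 3 - 1 = 3 * (((p : ℕ) - 1) * (((p : ℕ) ^ 2 + (p : ℕ) + 1) / 3)) := by
      obtain ⟨t, ht⟩ : ∃ t, (p : ℕ) = 3 * t + 1 := ⟨(p : ℕ) / 3, by omega⟩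
      rw [ht]
      have e1 : ((3 * t + 1) ^ 2 + (3 * t + 1) + 1) / 3 = 3 * t ^ 2 + 3 * t + 1 := by
        have : (3 * t + 1) ^ 2 + (3 * t + 1) + 1 = 3 * (3 * t ^ 2 + 3 * t + 1) := by ring
        rw [this, Nat.mul_div_cancel_left _ (by norm_num)]
      have e2 : 3 * t + 1 - 1 = 3 * t := by omega
      rw [e1, e2]
      have : (3 * t + 1) ^ 3 = 3 * (3 * t * (3 * t ^ 2 + 3 * t + 1)) + 1 := by ring
      omega
    have h4 := key v hv 3 ⟨_, h3⟩ fun j => by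
      rw [h3, Nat.mul_div_cancel_left _ (by norm_num)]
      exact zmod_pow (hpd j) _
    rw [← hv] at h4
    refine deg_three v h4 fun hd => hall fun j => ?_
    -- degree one
    have hmax : v.asIdeal.IsMaximal := v.isPrime.isMaximal v.ne_bot
    letI : Field (𝓞 F ⧸ v.asIdeal) := Ideal.Quotient.field v.asIdeal
    have hfin := fin_quot v
    letI : Fintype (𝓞 F ⧸ v.asIdeal) := Fintype.ofFinite _
    have hc := cast_zero v
    rw [hv] at hc
    have hch : CharP (𝓞 F ⧸ v.asIdeal) (p : ℕ) := by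
      have : ringChar (𝓞 F ⧸ v.asIdeal) = (p : ℕ) := CharP.ringChar_of_prime_eq_zero p.2 hc
      rw [← this]; infer_instance
    have hcard := card_quot v
    rw [hd, pow_one, hv, Nat.card_eq_fintype_card] at hcard
    obtain ⟨X, hX, hX3⟩ := exists_int (h.cube j)
    have h5 : Ideal.Quotient.mk v.asIdeal X ^ 3 = ((d j : ℕ) : 𝓞 F ⧸ v.asIdeal) := by
      rw [← map_pow, hX3, map_natCast]
    have hd0 : ((d j : ℕ) : 𝓞 F ⧸ v.asIdeal) ≠ 0 := by
      rw [Ne, CharP.cast_eq_zero_iff (𝓞 F ⧸ v.asIdeal) (p : ℕ)]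
      exact hpd j
    have hx0 : Ideal.Quotient.mk v.asIdeal X ≠ 0 := by
      intro h0
      rw [h0, zero_pow (by norm_num)] at h5
      exact hd0 h5.symm
    have h6 := FiniteField.pow_card_sub_one_eq_one _ hx0
    rw [hcard] at h6
    have h7 : ((d j : ℕ) : 𝓞 F ⧸ v.asIdeal) ^ (((p : ℕ) - 1) / 3) = 1 := by
      rw [← h5, ← pow_mul, ← h6]
      congr 1
      omega
    have hinj : Function.Injective (ZMod.castHom (dvd_refl (p : ℕ)) (𝓞 F ⧸ v.asIdeal)) :=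
      RingHom.injective _
    apply hinj
    rw [map_pow, map_natCast, map_one]
    exact h7

end

end Q283.MC
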