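import Pool.Agent.Q283.MC.Pigeon

namespace Q283.MC

open WeierstrassCurve

local instance fact3'' : Fact (Nat.Prime 3) := ⟨Nat.prime_three⟩

lemma N_ne {x : ℚ} (h : 0 < N x) : x ≠ 0 := by
  rintro rfl
  have : N 0 = 0 := padicNorm.zero
  rw [this] at h
  exact lt_irrefl _ h

lemma den_dvd {x : ℚ} (h : 1 < N x) : 3 ∣ x.den := by
  by_contra hd
  have h1 : N (x.den : ℚ) = 1 := (padicNorm.nat_eq_one_iff (p := 3) x.den).mpr hd
  have h2 : N x ≤ 1 := by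
    have : x = (x.num : ℚ) / (x.den : ℚ) := (Rat.num_div_den x).symm
    rw [this, N_div, h1, div_one]
    exact N_int _
  linarith

lemma N_ge {x : ℚ} (h : 1 < N x) : 3 ≤ N x := by
  have hd := den_dvd h
  have hn : ¬ ((3 : ℤ) ∣ x.num) := by
    intro h'
    have h1 : 3 ∣ x.num.natAbs := by
      have := Int.natAbs_dvd_natAbs.mpr h'
      simpa using this
    have := Nat.dvd_gcd h1 hd
    rw [x.reduced] at this
    norm_num at this
  have h1 : N (x.num : ℚ) = 1 := (padicNorm.int_eq_one_iff (p := 3) x.num).mpr (by exact_mod_cast hn)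
  obtain ⟨e, he⟩ := hd
  have h2 : N (x.den : ℚ) ≤ 1 / 3 := by
    rw [he]
    push_cast
    rw [N_mul, N_three]
    have : N (e : ℚ) ≤ 1 := by simpa using N_int (e : ℤ)
    nlinarith
  have h0 : 0 < N (x.den : ℚ) := N_pos (by exact_mod_cast x.den_nz)
  have : x = (x.num : ℚ) / (x.den : ℚ) := (Rat.num_div_den x).symm
  rw [this, N_div, h1, le_div_iff₀ h0]
  linarith

/-- The two extra points. -/
lemma goods {a : ℤ} {x y : ℚ} (he : y ^ 2 = x ^ 3 + a) (hN : 1 < N x) (d : ℚ)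
    (hd : d = x ^ 3 * ((x ^ 3) ^ 2 - 16 * a * x ^ 3 - 16 * a ^ 2) / (3 * x ^ 3 + 4 * a) ^ 2) :
    Good (a : ℚ) ∧ Good (a * d ^ 2) ∧ Good (a * d ^ 4) ∧ d ≠ 0 := by
  have h3 := N_ge hN
  have hx : x ≠ 0 := N_ne (by linarith)
  have haN : N (a : ℚ) ≤ 1 := N_int a
  obtain ⟨X, hX⟩ : ∃ X, X = x ^ 3 := ⟨_, rfl⟩
  rw [← hX] at hd
  have hX0 : X ≠ 0 := by rw [hX]; exact pow_ne_zero _ hx
  have hNX : 27 ≤ N X := by
    rw [hX, N_pow]
    calc (27 : ℚ) = 3 ^ 3 := by norm_num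
      _ ≤ N x ^ 3 := pow_le_pow_left₀ (by norm_num) h3 3
  obtain ⟨u, hu⟩ : ∃ u, u = (a : ℚ) / X := ⟨_, rfl⟩
  have hau : (a : ℚ) = u * X := by rw [hu]; field_simp
  have hNu : N u ≤ 1 / 27 := by
    rw [hu, N_div, div_le_div_iff₀ (by linarith) (by norm_num)]
    linarith
  have hw : N (1 + u * (-16 + -16 * u)) = 1 := by
    refine N_one_add (by linarith) (N_add_le ?_ ?_)
    · simpa using N_int (-16)
    · rw [N_mul]
      exact mul_le_one₀ (by simpa using N_int (-16)) (N_nonneg _) (by linarith)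
  have h34 : N (3 + 4 * u) = 1 / 3 := by
    rw [N_add_eq, N_three]
    rw [N_three, N_mul, N_four, one_mul]
    linarith
  have h34' : 3 + 4 * u ≠ 0 := N_ne (by rw [h34]; norm_num)
  have hd2 : d = X * (1 + u * (-16 + -16 * u)) / (3 + 4 * u) ^ 2 := by
    rw [hd, hau]
    have : 3 * X + 4 * (u * X) = X * (3 + 4 * u) := by ring
    rw [this]
    field_simp
    ring
  have hNd : N d = 9 * N X := by
    rw [hd2, N_div, N_mul, N_pow, hw, h34]
    ring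
  have hd0 : d ≠ 0 := N_ne (by rw [hNd]; linarith)
  have hden : 3 * X + 4 * (a : ℚ) ≠ 0 := by
    rw [hau]
    have : 3 * X + 4 * (u * X) = X * (3 + 4 * u) := by ring
    rw [this]
    exact mul_ne_zero hX0 h34'
  have hY : y ^ 2 = X + a := by rw [he, hX]
  refine ⟨⟨x, y, he, ?_⟩, ⟨d, d * (y * (4 * (X + a) - 5 * X) / (3 * X + 4 * a)), ?_, ?_⟩,
    ⟨d ^ 2 / x, d ^ 2 * (y * (16 * (X + a) ^ 2 - 8 * X * (X + a) - 7 * X ^ 2) /
      (3 * X + 4 * a) ^ 2), ?_, ?_⟩, hd0⟩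
  · rw [← N_pow, ← hX]; linarith
  · have h1 : (y * (4 * (X + a) - 5 * X) / (3 * X + 4 * a)) ^ 2 = d + a := by
      rw [div_pow, mul_pow, hY, hd]
      obtain ⟨M, hM⟩ : ∃ M, M = 3 * X + 4 * (a : ℚ) := ⟨_, rfl⟩
      rw [← hM] at hden ⊢
      field_simp
      rw [hM]
      ring
    rw [mul_pow, h1]; ring
  · rw [N_mul, N_pow, hNd]
    have h1 : N (a : ℚ) < 9 * N X := by linarith
    calc N (a : ℚ) * (9 * N X) ^ 2 < 9 * N X * (9 * N X) ^ 2 :=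
          mul_lt_mul_of_pos_right h1 (by positivity)
      _ = (9 * N X) ^ 3 := by ring
  · have h1 : (y * (16 * (X + a) ^ 2 - 8 * X * (X + a) - 7 * X ^ 2) /
      (3 * X + 4 * a) ^ 2) ^ 2 = d ^ 2 / X + a := by
      rw [div_pow, mul_pow, hY, hd]
      obtain ⟨M, hM⟩ : ∃ M, M = 3 * X + 4 * (a : ℚ) := ⟨_, rfl⟩
      rw [← hM] at hden ⊢
      field_simp
      rw [hM]
      ring
    rw [mul_pow, h1, div_pow, ← hX]
    field_simp
  · rw [N_mul, N_pow, N_div, N_pow, div_pow, ← N_pow x, ← hX, hNd, lt_div_iff₀ (by linarith)]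
    have h1 : N (a : ℚ) * N X < (9 * N X) ^ 2 := by nlinarith
    calc N (a : ℚ) * (9 * N X) ^ 4 * N X = (N (a : ℚ) * N X) * (9 * N X) ^ 4 := by ring
      _ < (9 * N X) ^ 2 * (9 * N X) ^ 4 := mul_lt_mul_of_pos_right h1 (by positivity)
      _ = ((9 * N X) ^ 2) ^ 3 := by ring

/-- The six classes. -/
lemma good_all {a : ℤ} {d s D : ℚ} (h0 : Good (a : ℚ)) (h2 : Good (a * d ^ 2))
    (h4 : Good (a * d ^ 4)) (hs : s ≠ 0) (hD : D ≠ 0) (hd : d = D * s ^ 3) (i : ℕ) :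
    Good (a * (-27 * D ^ 2) ^ i) := by
  obtain ⟨j, r, hr, rfl⟩ : ∃ j r : ℕ, r < 6 ∧ i = 6 * j + r :=
    ⟨i / 6, i % 6, Nat.mod_lt _ (by norm_num), (Nat.div_add_mod i 6).symm⟩
  obtain ⟨q, hq⟩ : ∃ q, q = (-27 * D ^ 2) ^ j := ⟨_, rfl⟩
  have hq0 : q ≠ 0 := by rw [hq]; positivity
  have e : (a : ℚ) * (-27 * D ^ 2) ^ (6 * j + r) = a * (-27 * D ^ 2) ^ r * q ^ 6 := by
    rw [hq, pow_add, ← pow_mul, mul_comm 6 j]
    ring
  rw [e]
  have hm : ∀ {k u : ℚ}, Good k → u ≠ 0 → ∀ l : ℚ, l = k * u ^ 6 → Good l := by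
    rintro k u hk hu l rfl
    exact hk.scale hu
  interval_cases r
  · exact hm h0 hq0 _ (by ring)
  · refine hm h2.iso (div_ne_zero hq0 hs) _ ?_
    rw [hd]; field_simp
  · refine hm h4 (div_ne_zero (mul_ne_zero (by norm_num : (3 : ℚ) ≠ 0) hq0)
      (pow_ne_zero 2 hs)) _ ?_
    rw [hd]; field_simp; ring
  · refine hm h0.iso (mul_ne_zero (mul_ne_zero (by norm_num : (3 : ℚ) ≠ 0) hD) hq0) _ ?_
    ring
  · refine hm h2 (div_ne_zero (mul_ne_zero (mul_ne_zero (by norm_num : (9 : ℚ) ≠ 0) hD) hq0)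
      hs) _ ?_
    rw [hd]; field_simp; ring
  · refine hm h4.iso (div_ne_zero (mul_ne_zero (mul_ne_zero (by norm_num : (9 : ℚ) ≠ 0) hD) hq0)
      (pow_ne_zero 2 hs)) _ ?_
    rw [hd]; field_simp; ring

/-- For every nonzero integer `a` with `rk E_a > 0` there is a suitable integer `D`. -/
lemma exists_D {a : ℤ} (ha : a ≠ 0) (hr : 0 < Module.rank ℤ (C (a : ℚ)).toAffine.Point) :
    ∃ D : ℤ, padicValInt 3 D = 1 ∧ D ≠ 0 ∧
      ∀ i : ℕ, Good ((a : ℚ) * (-27 * (D : ℚ) ^ 2) ^ i) := by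
  obtain ⟨x, y, he, hN⟩ := exists_nonintegral ha hr
  obtain ⟨d, hd⟩ : ∃ d, d = x ^ 3 * ((x ^ 3) ^ 2 - 16 * a * x ^ 3 - 16 * a ^ 2) /
    (3 * x ^ 3 + 4 * a) ^ 2 := ⟨_, rfl⟩
  obtain ⟨g0, g2, g4, hd0⟩ := goods he hN d hd
  obtain ⟨e, hq⟩ := den_dvd hN
  have hp : ¬ ((3 : ℤ) ∣ x.num) := by
    intro h'
    have h1 : 3 ∣ x.num.natAbs := by
      have := Int.natAbs_dvd_natAbs.mpr h'
      simpa using this
    have := Nat.dvd_gcd h1 (den_dvd hN)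
    rw [x.reduced] at this
    norm_num at this
  obtain ⟨p, hpd⟩ : ∃ p, p = x.num := ⟨_, rfl⟩
  rw [← hpd] at hp
  obtain ⟨q, hqd⟩ : ∃ q : ℤ, q = x.den := ⟨_, rfl⟩
  have hqe : q = 3 * e := by rw [hqd, hq]; push_cast; ring
  have hq0 : (q : ℚ) ≠ 0 := by
    rw [hqd]; exact_mod_cast x.den_nz
  have hxpq : x = (p : ℚ) / (q : ℚ) := by
    rw [hpd, hqd]; exact_mod_cast (Rat.num_div_den x).symm
  obtain ⟨M, hM⟩ : ∃ M : ℤ, M = 3 * p ^ 3 + 4 * a * q ^ 3 := ⟨_, rfl⟩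
  obtain ⟨L, hL⟩ : ∃ L : ℤ, L = p ^ 6 - 16 * a * p ^ 3 * q ^ 3 - 16 * a ^ 2 * q ^ 6 := ⟨_, rfl⟩
  have hp3 : Prime (3 : ℤ) := Int.prime_three
  have hLn : ¬ ((3 : ℤ) ∣ L) := by
    intro h
    apply hp
    have h6 : (3 : ℤ) ∣ p ^ 6 := by
      have : p ^ 6 = L + 3 * (e * (16 * a * p ^ 3 * q ^ 2 + 16 * a ^ 2 * q ^ 5)) := by
        rw [hL]
        have : (3 : ℤ) * e = q := hqe.symm
        calc p ^ 6 = p ^ 6 - 16 * a * p ^ 3 * q ^ 3 - 16 * a ^ 2 * q ^ 6 +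
              q * (16 * a * p ^ 3 * q ^ 2 + 16 * a ^ 2 * q ^ 5) := by ring
          _ = _ := by rw [← this]; ring
      rw [this]
      exact dvd_add h (dvd_mul_right _ _)
    exact hp3.dvd_of_dvd_pow h6
  obtain ⟨M', hM'⟩ : ∃ M' : ℤ, M' = p ^ 3 + 36 * a * e ^ 3 := ⟨_, rfl⟩
  have hMM : M = 3 * M' := by rw [hM, hM', hqe]; ring
  have hM'n : ¬ ((3 : ℤ) ∣ M') := by
    intro h
    apply hp
    have h3 : (3 : ℤ) ∣ p ^ 3 := by
      have : p ^ 3 = M' - 3 * (12 * a * e ^ 3) := by rw [hM']; ring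
      rw [this]
      exact dvd_sub h (dvd_mul_right _ _)
    exact hp3.dvd_of_dvd_pow h3
  have hLM : ¬ ((3 : ℤ) ∣ L * M') := fun h => (hp3.dvd_or_dvd h).elim hLn hM'n
  have hLM0 : L * M' ≠ 0 := fun h => hLM (h ▸ dvd_zero _)
  have hp0 : (p : ℚ) ≠ 0 := by
    intro h
    have : p = 0 := by exact_mod_cast h
    exact hp (this ▸ dvd_zero _)
  have hM0 : (M : ℚ) ≠ 0 := by
    intro h
    have h0 : M = 0 := by exact_mod_cast h
    rw [hMM] at h0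
    have : M' = 0 := by linarith
    exact hM'n (this ▸ dvd_zero _)
  have hval : padicValInt 3 (L * M) = 1 := by
    have e1 : L * M = 3 * (L * M') := by rw [hMM]; ring
    rw [e1, padicValInt.mul (by norm_num) hLM0]
    have h1 : padicValInt 3 3 = 1 := by
      have := padicValInt.self (p := 3) (by norm_num)
      exact_mod_cast this
    have h2 : padicValInt 3 (L * M') = 0 :=
      padicValInt.eq_zero_of_not_dvd (by exact_mod_cast hLM)
    rw [h1, h2]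
  have hD0 : L * M ≠ 0 := by
    rw [hMM]
    intro h
    apply hLM0
    linarith
  refine ⟨L * M, hval, hD0, ?_⟩
  have hD0q : ((L * M : ℤ) : ℚ) ≠ 0 := by exact_mod_cast hD0
  refine good_all (s := p / (q * M)) g0 g2 g4 (div_ne_zero hp0 (mul_ne_zero hq0 hM0)) hD0q ?_
  have hden : 3 * (p : ℚ) ^ 3 + 4 * a * q ^ 3 ≠ 0 := by
    have : ((M : ℤ) : ℚ) = 3 * (p : ℚ) ^ 3 + 4 * a * q ^ 3 := by rw [hM]; push_cast; ring
    rw [← this]; exact hM0
  rw [hd, hxpq, hL, hM]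
  push_cast
  have h5 : 3 * ((p : ℚ) / q) ^ 3 + 4 * a = (3 * (p : ℚ) ^ 3 + 4 * a * q ^ 3) / q ^ 3 := by
    field_simp
  rw [h5]
  field_simp

lemma not_cube {D t s : ℤ} (hD : padicValInt 3 D = 1) (hD0 : D ≠ 0) (ht : t ≠ 0) :
    -27 * D ^ 2 * t ^ 6 ≠ s ^ 3 := by
  intro h
  have hs : s ≠ 0 := by
    rintro rfl
    have : -27 * D ^ 2 * t ^ 6 ≠ 0 := by positivity
    exact this (by rw [h]; norm_num)
  have h1 : padicValInt 3 (-27 * D ^ 2 * t ^ 6) = padicValInt 3 (s ^ 3) := by rw [h]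
  have hpow : ∀ (z : ℤ) (n : ℕ), z ≠ 0 → padicValInt 3 (z ^ n) = n * padicValInt 3 z := by
    intro z n hz
    induction n with
    | zero => simp
    | succ n ih => rw [pow_succ, padicValInt.mul (pow_ne_zero _ hz) hz, ih]; ring
  have h3 : padicValInt 3 3 = 1 := by
    have := padicValInt.self (p := 3) (by norm_num)
    exact_mod_cast this
  have h27 : padicValInt 3 (-27) = 3 := by
    have e : (-27 : ℤ) = -(3 ^ 3) := by norm_num
    rw [e]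
    have : padicValInt 3 (-(3 ^ 3)) = padicValInt 3 (3 ^ 3) := by
      simp [padicValInt]
    rw [this, hpow 3 3 (by norm_num), h3]
  rw [padicValInt.mul (by positivity) (pow_ne_zero _ ht),
    padicValInt.mul (by norm_num) (pow_ne_zero _ hD0), hpow _ _ hD0, hpow _ _ ht,
    hpow _ _ hs, hD, h27] at h1
  omega

end Q283.MC
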