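import Pool.Agent.Q283.MC.Basic

namespace Q283.MC

open WeierstrassCurve

local instance fact3 : Fact (Nat.Prime 3) := ⟨Nat.prime_three⟩

/-- 3-adic absolute value on `ℚ`. -/
abbrev N (x : ℚ) : ℚ := padicNorm 3 x

lemma N_pow (x : ℚ) (n : ℕ) : N (x ^ n) = N x ^ n := by
  induction n with
  | zero => simp [N]
  | succ n ih => rw [pow_succ, pow_succ]; simp only [N] at *; rw [padicNorm.mul, ih]

lemma N_mul (x y : ℚ) : N (x * y) = N x * N y := padicNorm.mul x y

lemma N_div (x y : ℚ) : N (x / y) = N x / N y := padicNorm.div x y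

lemma N_nonneg (x : ℚ) : 0 ≤ N x := padicNorm.nonneg x

lemma N_pos {x : ℚ} (h : x ≠ 0) : 0 < N x :=
  lt_of_le_of_ne (N_nonneg x) (Ne.symm (padicNorm.nonzero h))

lemma N_int (z : ℤ) : N z ≤ 1 := padicNorm.of_int z

lemma N_neg (x : ℚ) : N (-x) = N x := padicNorm.neg x

lemma N_add_le {x y c : ℚ} (hx : N x ≤ c) (hy : N y ≤ c) : N (x + y) ≤ c :=
  le_trans padicNorm.nonarchimedean (max_le hx hy)

lemma N_sub_le {x y c : ℚ} (hx : N x ≤ c) (hy : N y ≤ c) : N (x - y) ≤ c := by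
  rw [sub_eq_add_neg]; exact N_add_le hx (by rw [N_neg]; exact hy)

lemma N_add_eq {x y : ℚ} (h : N y < N x) : N (x + y) = N x := by
  have := padicNorm.add_eq_max_of_ne (p := 3) (q := x) (r := y) (ne_of_gt h)
  simp only [N] at *
  rw [this, max_eq_left h.le]

lemma N_three : N 3 = 1 / 3 := by
  have := padicNorm.padicNorm_p (p := 3) (by norm_num)
  simp only [N]
  norm_num at this ⊢
  exact this

lemma N_one : N 1 = 1 := padicNorm.one

lemma N_two : N 2 = 1 := by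
  have := (padicNorm.nat_eq_one_iff (p := 3) 2).mpr (by norm_num)
  simpa [N] using this

lemma N_four : N 4 = 1 := by
  have : (4 : ℚ) = 2 ^ 2 := by norm_num
  rw [this, N_pow, N_two]; norm_num

lemma N_nine : N 9 = 1 / 9 := by
  have : (9 : ℚ) = 3 ^ 2 := by norm_num
  rw [this, N_pow, N_three]; norm_num

lemma N_one_add {u w : ℚ} (hu : N u < 1) (hw : N w ≤ 1) : N (1 + u * w) = 1 := by
  rw [N_add_eq, N_one]
  rw [N_one, N_mul]
  calc N u * N w ≤ N u * 1 := mul_le_mul_of_nonneg_left hw (N_nonneg _)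
    _ < 1 := by rw [mul_one]; exact hu

/-- `y² = x³ + k` has a rational point whose abscissa is 3-adically large compared with `k`. -/
def Good (k : ℚ) : Prop := ∃ x y : ℚ, y ^ 2 = x ^ 3 + k ∧ N k < N x ^ 3

lemma step {k x y : ℚ} (h : (C k).toAffine.Nonsingular x y) (hN : N k < N x ^ 3) :
    ∃ (x₃ y₃ : ℚ) (h₃ : (C k).toAffine.Nonsingular x₃ y₃),
      (3 : ℕ) • Affine.Point.some x y h = Affine.Point.some x₃ y₃ h₃ ∧ N x₃ = 9 * N x := by
  have hE := ((nonsing_iff k x y).mp h).1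
  have hx : x ≠ 0 := by
    rintro rfl
    have : N 0 = 0 := padicNorm.zero
    rw [this] at hN
    have := N_nonneg k
    norm_num at hN
    linarith
  have hNx : 0 < N x := N_pos hx
  have hx3 : x ^ 3 ≠ 0 := pow_ne_zero _ hx
  obtain ⟨u, hu⟩ : ∃ u, u = k / x ^ 3 := ⟨_, rfl⟩
  have hku : k = u * x ^ 3 := by rw [hu]; field_simp
  have hNu : N u < 1 := by
    rw [hu, N_div, N_pow, div_lt_one (pow_pos hNx 3)]
    exact hN
  have hi : ∀ (c : ℤ), N (c : ℚ) ≤ 1 := N_int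
  have h1 : N (1 + u * 4) = 1 := N_one_add hNu (by simpa using hi 4)
  have h1' : N (1 + u * 1) = 1 := N_one_add hNu N_one.le
  have hne0 : ∀ {z : ℚ}, N z = 1 → z ≠ 0 := by
    rintro z hz rfl
    have : N 0 = 0 := padicNorm.zero
    rw [this] at hz
    norm_num at hz
  have hy : y ≠ 0 := by
    rintro rfl
    have : x ^ 3 * (1 + u * 1) = 0 := by
      rw [hku] at hE
      linear_combination -hE
    rcases mul_eq_zero.mp this with h' | h'
    · exact hx3 h'
    · exact hne0 h1' h'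
  have hk4 : x ^ 3 + 4 * k ≠ 0 := by
    have : x ^ 3 + 4 * k = x ^ 3 * (1 + u * 4) := by rw [hku]; ring
    rw [this]
    exact mul_ne_zero hx3 (hne0 h1)
  obtain ⟨y₃, h₃, e₃⟩ := triple h hx hy hk4
  refine ⟨_, y₃, h₃, e₃, ?_⟩
  have hw : N (-96 + 48 * u + 64 * u ^ 2) ≤ 1 := by
    refine N_add_le (N_add_le ?_ ?_) ?_
    · simpa using hi (-96)
    · rw [N_mul]
      exact mul_le_one₀ (by simpa using hi 48) (N_nonneg _) hNu.le
    · rw [N_mul, N_pow]
      exact mul_le_one₀ (by simpa using hi 64) (pow_nonneg (N_nonneg _) _)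
        (pow_le_one₀ (N_nonneg _) hNu.le)
  have h2 : N (1 + u * (-96 + 48 * u + 64 * u ^ 2)) = 1 := N_one_add hNu hw
  have e : (x ^ 9 - 96 * k * x ^ 6 + 48 * k ^ 2 * x ^ 3 + 64 * k ^ 3) /
        (9 * x ^ 2 * (x ^ 3 + 4 * k) ^ 2) =
      x * (1 + u * (-96 + 48 * u + 64 * u ^ 2)) / (9 * (1 + u * 4) ^ 2) := by
    have h4 : (1 + u * 4) ≠ 0 := hne0 h1
    have : x ^ 3 + 4 * k = x ^ 3 * (1 + u * 4) := by rw [hku]; ring
    rw [this, hku]
    field_simp
    ring
  rw [e, N_div, N_mul, N_mul, N_pow, h1, h2, N_nine]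
  ring

lemma steps {k x y : ℚ} (h : (C k).toAffine.Nonsingular x y) (hN : N k < N x ^ 3) (n : ℕ) :
    ∃ (x₃ y₃ : ℚ) (h₃ : (C k).toAffine.Nonsingular x₃ y₃),
      (3 ^ n : ℕ) • Affine.Point.some x y h = Affine.Point.some x₃ y₃ h₃ ∧
        N x₃ = 9 ^ n * N x := by
  induction n with
  | zero => exact ⟨x, y, h, by simp, by simp⟩
  | succ n ih =>
    obtain ⟨x₁, y₁, h₁, e₁, n₁⟩ := ih
    have hlt : N k < N x₁ ^ 3 := by
      refine lt_of_lt_of_le hN ?_
      rw [n₁]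
      refine pow_le_pow_left₀ (N_nonneg _) ?_ 3
      have : (1 : ℚ) ≤ 9 ^ n := one_le_pow₀ (by norm_num)
      nlinarith [N_nonneg x]
    obtain ⟨x₂, y₂, h₂, e₂, n₂⟩ := step h₁ hlt
    refine ⟨x₂, y₂, h₂, ?_, ?_⟩
    · rw [pow_succ, mul_comm, mul_nsmul', e₁, e₂]
    · rw [n₂, n₁]; ring

lemma not_torsion {k x y : ℚ} (h : (C k).toAffine.Nonsingular x y) (hN : N k < N x ^ 3) :
    ¬ IsOfFinAddOrder (Affine.Point.some x y h) := by
  intro hfin
  have hx : x ≠ 0 := by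
    rintro rfl
    have : N 0 = 0 := padicNorm.zero
    rw [this] at hN
    have := N_nonneg k
    norm_num at hN
    linarith
  have hNx : 0 < N x := N_pos hx
  have hs := finite_multiples.mpr hfin
  have hinj : Function.Injective
      (fun n : ℕ => (3 ^ n : ℕ) • Affine.Point.some x y h) := by
    intro m n hmn
    obtain ⟨x₁, y₁, h₁, e₁, n₁⟩ := steps h hN m
    obtain ⟨x₂, y₂, h₂, e₂, n₂⟩ := steps h hN n
    simp only [] at hmn
    rw [e₁, e₂] at hmn
    have hxx : x₁ = x₂ := by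
      injection hmn
    rw [hxx, n₂] at n₁
    have h9 : (9 : ℚ) ^ n = 9 ^ m := mul_right_cancel₀ hNx.ne' n₁
    exact (pow_right_injective₀ (by norm_num) (by norm_num) h9).symm
  refine Set.infinite_of_injective_forall_mem
    (s := (AddSubmonoid.multiples (Affine.Point.some x y h) : Set (C k).toAffine.Point))
    hinj (fun n => ?_) hs
  exact (AddSubmonoid.mem_multiples_iff _ _).mpr ⟨3 ^ n, rfl⟩

lemma rank_pos_of_good {k : ℚ} (h : Good k) : 0 < Module.rank ℤ (C k).toAffine.Point := by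
  obtain ⟨x, y, he, hN⟩ := h
  have hx : x ≠ 0 := by
    rintro rfl
    have : N 0 = 0 := padicNorm.zero
    rw [this] at hN
    have := N_nonneg k
    norm_num at hN
    linarith
  have hns : (C k).toAffine.Nonsingular x y := (nonsing_iff k x y).mpr ⟨he, Or.inl hx⟩
  rw [pos_iff_ne_zero]
  intro h0
  rw [rank_eq_zero_iff] at h0
  obtain ⟨a, ha, hz⟩ := h0 (Affine.Point.some x y hns)
  exact not_torsion hns hN (isOfFinAddOrder_iff_zsmul_eq_zero.mpr ⟨a, ha, hz⟩)

lemma Good.scale {k : ℚ} (h : Good k) {u : ℚ} (hu : u ≠ 0) : Good (k * u ^ 6) := by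
  obtain ⟨x, y, he, hN⟩ := h
  refine ⟨u ^ 2 * x, u ^ 3 * y, ?_, ?_⟩
  · linear_combination u ^ 6 * he
  · rw [N_mul, N_mul, N_pow, N_pow]
    have hp := pow_pos (N_pos hu) 6
    calc N k * N u ^ 6 < N x ^ 3 * N u ^ 6 := mul_lt_mul_of_pos_right hN hp
      _ = (N u ^ 2 * N x) ^ 3 := by ring

lemma Good.iso {k : ℚ} (h : Good k) : Good (-27 * k) := by
  obtain ⟨x, y, he, hN⟩ := h
  have hx : x ≠ 0 := by
    rintro rfl
    have : N 0 = 0 := padicNorm.zero
    rw [this] at hN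
    have := N_nonneg k
    norm_num at hN
    linarith
  have hNx := N_pos hx
  refine ⟨(x ^ 3 + 4 * k) / x ^ 2, y * (x ^ 3 - 8 * k) / x ^ 3, ?_, ?_⟩
  · field_simp
    linear_combination (x ^ 3 - 8 * k) ^ 2 * he
  · have h4 : N (x ^ 3 + 4 * k) = N x ^ 3 := by
      rw [N_add_eq, N_pow]
      rw [N_mul, N_four, one_mul, N_pow]; exact hN
    have h27 : N (-27 * k) ≤ N k := by
      rw [N_mul]
      have : N (-27) ≤ 1 := by simpa using N_int (-27)
      calc N (-27) * N k ≤ 1 * N k := mul_le_mul_of_nonneg_right this (N_nonneg _)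
        _ = N k := one_mul _
    rw [N_div, h4, N_pow]
    have : N x ^ 3 / N x ^ 2 = N x := by field_simp
    rw [this]
    exact lt_of_le_of_lt h27 hN

end Q283.MC
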