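import Pool.Agent.Q283.MC.Norm

namespace Q283.MC

open WeierstrassCurve

local instance fact3' : Fact (Nat.Prime 3) := ⟨Nat.prime_three⟩

lemma norm_cast_rat (x : ℚ) : ‖(x : ℚ_[3])‖ = ((N x : ℚ) : ℝ) :=
  Padic.eq_padicNorm x

lemma norm_cast_le {x : ℚ} (hx : N x ≤ 1) : ‖(x : ℚ_[3])‖ ≤ 1 := by
  rw [norm_cast_rat]
  exact_mod_cast hx

/-- A 3-integral rational number as a 3-adic integer. -/
noncomputable def toZ (x : ℚ) (hx : N x ≤ 1) : ℤ_[3] := ⟨(x : ℚ_[3]), norm_cast_le hx⟩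

lemma coe_toZ (x : ℚ) (hx : N x ≤ 1) : ((toZ x hx : ℤ_[3]) : ℚ_[3]) = (x : ℚ_[3]) := rfl

/-- Pigeonhole for pairs of 3-integral rational numbers. -/
lemma pigeon (X Y : ℕ → ℚ) (hX : ∀ n, N (X n) ≤ 1) (hY : ∀ n, N (Y n) ≤ 1) (K : ℕ) :
    ∃ m n : ℕ, m ≠ n ∧ N (X m - X n) ≤ 1 / 3 ^ K ∧ N (Y m - Y n) ≤ 1 / 3 ^ K := by
  let f : ℕ → ZMod (3 ^ K) × ZMod (3 ^ K) := fun n =>
    (PadicInt.toZModPow K (toZ (X n) (hX n)), PadicInt.toZModPow K (toZ (Y n) (hY n)))
  have : NeZero (3 ^ K) := ⟨pow_ne_zero _ (by norm_num)⟩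
  obtain ⟨m, n, hmn, hf⟩ := Finite.exists_ne_map_eq_of_infinite f
  have key : ∀ (x y : ℚ) (hx : N x ≤ 1) (hy : N y ≤ 1),
      PadicInt.toZModPow K (toZ x hx) = PadicInt.toZModPow K (toZ y hy) →
        N (x - y) ≤ 1 / 3 ^ K := by
    intro x y hx hy he
    have h1 : toZ x hx - toZ y hy ∈ RingHom.ker (PadicInt.toZModPow (p := 3) K) := by
      rw [RingHom.mem_ker, map_sub, he, sub_self]
    rw [PadicInt.ker_toZModPow, ← PadicInt.norm_le_pow_iff_mem_span_pow] at h1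
    have h2 : ‖((x - y : ℚ) : ℚ_[3])‖ ≤ (3 : ℝ) ^ (-(K : ℤ)) := by
      have e : ((x - y : ℚ) : ℚ_[3]) = ((toZ x hx - toZ y hy : ℤ_[3]) : ℚ_[3]) := by
        rw [PadicInt.coe_sub, coe_toZ, coe_toZ, Rat.cast_sub]
      rw [e, PadicInt.padic_norm_e_of_padicInt]
      simpa using h1
    rw [norm_cast_rat] at h2
    have h3 : ((N (x - y) : ℚ) : ℝ) ≤ ((1 / 3 ^ K : ℚ) : ℝ) := by
      push_cast
      rw [one_div, ← zpow_natCast, ← zpow_neg]
      exact h2
    exact_mod_cast h3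
  have hf1 := congrArg Prod.fst hf
  have hf2 := congrArg Prod.snd hf
  exact ⟨m, n, hmn, key _ _ (hX m) (hX n) hf1, key _ _ (hY m) (hY n) hf2⟩

/-- If `E_a` has positive rank, it has a rational point whose abscissa is not 3-integral. -/
lemma exists_nonintegral {a : ℤ} (ha : a ≠ 0)
    (hr : 0 < Module.rank ℤ (C (a : ℚ)).toAffine.Point) :
    ∃ x y : ℚ, y ^ 2 = x ^ 3 + a ∧ 1 < N x := by
  classical
  by_contra hcon
  push Not at hcon
  -- a point of infinite order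
  obtain ⟨P, hP⟩ : ∃ P : (C (a : ℚ)).toAffine.Point, ∀ n : ℤ, n ≠ 0 → n • P ≠ 0 := by
    by_contra h
    push Not at h
    have h0 : Module.rank ℤ (C (a : ℚ)).toAffine.Point = 0 := by
      rw [rank_eq_zero_iff]
      exact h
    rw [h0] at hr
    exact lt_irrefl _ hr
  have hcoord : ∀ n : ℕ, ∃ (x y : ℚ) (h : (C (a : ℚ)).toAffine.Nonsingular x y),
      ((n : ℤ) + 1) • P = Affine.Point.some x y h := by
    intro n
    have h0 := hP ((n : ℤ) + 1) (by positivity)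
    rcases h : ((n : ℤ) + 1) • P with _ | ⟨x, y, h'⟩
    · exact absurd h h0
    · exact ⟨x, y, h', rfl⟩
  choose X Y hns hXY using hcoord
  have hE : ∀ {x y : ℚ}, (C (a : ℚ)).toAffine.Nonsingular x y → y ^ 2 = x ^ 3 + a :=
    fun h => ((nonsing_iff _ _ _).mp h).1
  have hx1 : ∀ {x y : ℚ}, (C (a : ℚ)).toAffine.Nonsingular x y → N x ≤ 1 :=
    fun h => hcon _ _ (hE h)
  have hy1 : ∀ {x y : ℚ}, (C (a : ℚ)).toAffine.Nonsingular x y → N y ≤ 1 := by
    intro x y h
    have h2 : N y ^ 2 ≤ 1 := by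
      rw [← N_pow, hE h]
      refine N_add_le ?_ (N_int a)
      rw [N_pow]
      exact pow_le_one₀ (N_nonneg _) (hx1 h)
    exact (pow_le_one_iff_of_nonneg (N_nonneg _) two_ne_zero).mp h2
  have haN : 0 < N (a : ℚ) := N_pos (by exact_mod_cast ha)
  obtain ⟨K, hK⟩ : ∃ K : ℕ, (1 / 3 : ℚ) ^ K < N (a : ℚ) / 3 :=
    exists_pow_lt_of_lt_one (by positivity) (by norm_num)
  have hδ : (1 : ℚ) / 3 ^ K < N (a : ℚ) / 3 := by
    rw [one_div_pow] at hK; exact hK
  have hδ0 : (0 : ℚ) < 1 / 3 ^ K := by positivity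
  obtain ⟨m, n, hmn, h1, h2⟩ := pigeon X Y (fun n => hx1 (hns n)) (fun n => hy1 (hns n)) K
  -- the two points differ
  have hPne : Affine.Point.some (X m) (Y m) (hns m) ≠ Affine.Point.some (X n) (Y n) (hns n) := by
    rw [← hXY, ← hXY]
    intro h
    have : (((m : ℤ) + 1) - ((n : ℤ) + 1)) • P = 0 := by
      rw [sub_smul, h, sub_self]
    refine hP _ ?_ this
    intro h'
    apply hmn
    have : (m : ℤ) = n := by linarith
    exact_mod_cast this
  have hyn : N (Y n) ≤ 1 / 3 ^ K := by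
    by_cases hx : X m = X n
    · have hsq : Y m ^ 2 = Y n ^ 2 := by rw [hE (hns m), hE (hns n), hx]
      rcases sq_eq_sq_iff_eq_or_eq_neg.mp hsq with h | h
      · exact absurd (by congr 1) hPne
      · rw [h] at h2
        have : N (-Y n - Y n) = N (Y n) := by
          have : -Y n - Y n = -(2 * Y n) := by ring
          rw [this, N_neg, N_mul, N_two, one_mul]
        rw [this] at h2
        exact h2
    · -- subtract the two points
      have hnn : (C (a : ℚ)).toAffine.Nonsingular (X n) (-Y n) := by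
        rw [nonsing_iff]
        have := (nonsing_iff _ _ _).mp (hns n)
        refine ⟨by rw [neg_sq]; exact this.1, ?_⟩
        rcases this.2 with h | h
        · exact Or.inl h
        · exact Or.inr (neg_ne_zero.mpr h)
      obtain ⟨y₃, h₃, -⟩ := add_ne (hns m) hnn hx
      have hle := hx1 h₃
      have hd : X m - X n ≠ 0 := sub_ne_zero.mpr hx
      have hl : N (((Y m - -Y n) / (X m - X n)) ^ 2) ≤ 1 := by
        have e : ((Y m - -Y n) / (X m - X n)) ^ 2 =
            (((Y m - -Y n) / (X m - X n)) ^ 2 - X m - X n) + (X m + X n) := by ring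
        rw [e]
        exact N_add_le hle (N_add_le (hx1 (hns m)) (hx1 (hns n)))
      rw [N_pow, pow_le_one_iff_of_nonneg (N_nonneg _) two_ne_zero, N_div,
        div_le_one (N_pos hd)] at hl
      have hs : N (Y m + Y n) ≤ 1 / 3 ^ K := by
        rw [sub_neg_eq_add] at hl
        exact le_trans hl h1
      have : N (2 * Y n) ≤ 1 / 3 ^ K := by
        have e : 2 * Y n = (Y m + Y n) - (Y m - Y n) := by ring
        rw [e]
        exact N_sub_le hs h2
      rwa [N_mul, N_two, one_mul] at this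
  have hy0 : Y n ≠ 0 := by
    intro h0
    have hself : Affine.Point.some (X n) (Y n) (hns n) + Affine.Point.some (X n) (Y n) (hns n)
        = 0 := by
      apply Affine.Point.add_self_of_Y_eq
      rw [negY_eq, h0, neg_zero]
    rw [← hXY, ← two_nsmul, ← natCast_zsmul, smul_smul] at hself
    exact hP _ (by positivity) hself
  obtain ⟨h₃, -⟩ := add_self (hns n) hy0
  have hle := hx1 h₃
  have hl : N ((3 * X n ^ 2 / (2 * Y n)) ^ 2) ≤ 1 := by
    have e : (3 * X n ^ 2 / (2 * Y n)) ^ 2 =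
        ((3 * X n ^ 2 / (2 * Y n)) ^ 2 - 2 * X n) + 2 * X n := by ring
    rw [e]
    refine N_add_le hle ?_
    rw [N_mul, N_two, one_mul]
    exact hx1 (hns n)
  have hyp := N_pos hy0
  rw [N_pow, pow_le_one_iff_of_nonneg (N_nonneg _) two_ne_zero, N_div, N_mul, N_mul, N_two,
    one_mul, N_pow, N_three, div_le_one hyp] at hl
  -- compare norms
  have hδ1 : (1 : ℚ) / 3 ^ K ≤ 1 := by
    rw [div_le_one (by positivity)]
    exact one_le_pow₀ (by norm_num)
  have hx3 : N (X n) ^ 3 = N (a : ℚ) := by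
    have e : X n ^ 3 = -(a : ℚ) + Y n ^ 2 := by
      have := hE (hns n)
      linarith
    rw [← N_pow, e, N_add_eq, N_neg]
    rw [N_neg, N_pow]
    calc N (Y n) ^ 2 ≤ N (Y n) * 1 := by
          rw [sq]; exact mul_le_mul_of_nonneg_left (hyn.trans hδ1) (N_nonneg _)
      _ ≤ 1 / 3 ^ K := by rw [mul_one]; exact hyn
      _ < N (a : ℚ) / 3 := hδ
      _ ≤ N (a : ℚ) := by linarith
  have hxx : N (X n) ^ 3 ≤ N (X n) ^ 2 :=
    pow_le_pow_of_le_one (N_nonneg _) (hx1 (hns n)) (by norm_num)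
  have : N (a : ℚ) / 3 ≤ 1 / 3 ^ K := by
    calc N (a : ℚ) / 3 = 1 / 3 * N (X n) ^ 3 := by rw [hx3]; ring
      _ ≤ 1 / 3 * N (X n) ^ 2 := by linarith
      _ ≤ N (Y n) := hl
      _ ≤ 1 / 3 ^ K := hyn
  linarith

end Q283.MC
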