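import Pool.Agent.Q283.MC.Cf
import Pool.Agent.Q283.MC.Ind

/-!
# Infinite towers of fields generated by cube roots
-/

set_option autoImplicit false
set_option linter.unusedSectionVars false
set_option linter.unusedVariables false

open scoped Classical

namespace Q283.MC

open Filter Topology
open Pool.Agent.Y703.CT (Cls NoSplit Base)
open Q283.TQ
open Pool.Agent.Y703.CX
open Pool.Agent.Y333.CX (t_LAM)

/-- the product is the cube of the radical -/
def Dual (a b : ℕ) : Prop := a ≠ 0 ∧ a * b = (∏ p ∈ a.primeFactors, p) ^ 3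

theorem rad_ne (a : ℕ) : ∏ p ∈ a.primeFactors, p ≠ 0 :=
  Finset.prod_ne_zero_iff.2 fun p hp => (Nat.prime_of_mem_primeFactors hp).ne_zero

theorem rad_fac {a p : ℕ} (hp : p.Prime) :
    (∏ q ∈ a.primeFactors, q).factorization p = if p ∈ a.primeFactors then 1 else 0 := by
  rw [Nat.factorization_prod fun q hq => (Nat.prime_of_mem_primeFactors hq).ne_zero,
    Finsupp.finsetSum_apply]
  by_cases h : p ∈ a.primeFactors
  · rw [if_pos h, Finset.sum_eq_single p]
    · exact hp.factorization_self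
    · intro q hq hqp
      rw [(Nat.prime_of_mem_primeFactors hq).factorization, Finsupp.single_apply, if_neg hqp]
    · intro h'
      exact absurd h h'
  · rw [if_neg h]
    refine Finset.sum_eq_zero fun q hq => ?_
    rw [(Nat.prime_of_mem_primeFactors hq).factorization, Finsupp.single_apply, if_neg]
    rintro rfl
    exact h hq

theorem Dual.ne {a b : ℕ} (h : Dual a b) : b ≠ 0 := by
  rintro rfl
  have := h.2
  rw [mul_zero] at this
  exact pow_ne_zero 3 (rad_ne a) this.symm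

theorem Dual.fac {a b : ℕ} (h : Dual a b) {p : ℕ} (hp : p.Prime) :
    a.factorization p + b.factorization p = if p ∈ a.primeFactors then 3 else 0 := by
  have h1 := congrArg (fun n : ℕ => n.factorization p) h.2
  simp only [Nat.factorization_mul h.1 h.ne, Nat.factorization_pow, Finsupp.add_apply,
    Finsupp.smul_apply, rad_fac hp, smul_eq_mul] at h1
  rw [h1]
  split_ifs <;> norm_num

theorem Dual.facs {a b : ℕ} (h : Dual a b) (hcf : ∀ p : ℕ, p.Prime → ¬ p ^ 3 ∣ a) :
    b.primeFactors = a.primeFactors := by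
  ext p
  by_cases hp : p.Prime
  · have h1 := h.fac hp
    have h2 : a.factorization p ≤ 2 := by
      by_contra hcon
      exact hcf p hp ((hp.pow_dvd_iff_le_factorization h.1).2 (by omega))
    rw [Nat.mem_primeFactors, hp.dvd_iff_one_le_factorization h.ne]
    constructor
    · rintro ⟨-, h3, -⟩
      by_contra h4
      rw [if_neg h4] at h1
      omega
    · intro h4
      rw [if_pos h4] at h1
      exact ⟨hp, by omega, h.ne⟩
  · constructor
    · intro h'
      exact absurd (Nat.prime_of_mem_primeFactors h') hp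
    · intro h'
      exact absurd (Nat.prime_of_mem_primeFactors h') hp

theorem Dual.symm {a b : ℕ} (h : Dual a b) (hcf : ∀ p : ℕ, p.Prime → ¬ p ^ 3 ∣ a) : Dual b a :=
  ⟨h.ne, by rw [h.facs hcf, mul_comm, h.2]⟩

theorem Dual.bs {a b : ℕ} (h : Dual a b) (ha : Bs a) : Bs b := by
  obtain ⟨⟨h0, h3, hcf⟩, q, hq, hq2, hqa, hall⟩ := ha
  have hf := h.facs hcf
  have hmem : ∀ p : ℕ, p.Prime → (p ∣ b ↔ p ∣ a) := by
    intro p hp
    have := Finset.ext_iff.1 hf p
    rw [Nat.mem_primeFactors, Nat.mem_primeFactors] at this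
    constructor
    · intro h1
      exact (this.1 ⟨hp, h1, h.ne⟩).2.1
    · intro h1
      exact (this.2 ⟨hp, h1, h0⟩).2.1
  refine ⟨⟨h.ne, ?_, fun p hp hd => ?_⟩, q, hq, hq2, (hmem q hq).2 hqa, fun p hp hpb =>
    hall p hp ((hmem p hp).1 hpb)⟩
  · rw [hmem 3 Nat.prime_three]
    exact h3
  · have h1 := h.fac hp
    have h2 : 3 ≤ b.factorization p := (hp.pow_dvd_iff_le_factorization h.ne).1 hd
    have h4 : p ∣ a := (hmem p hp).1 ((dvd_pow_self p (by norm_num)).trans hd)
    have h5 := (hp.dvd_iff_one_le_factorization h0).1 h4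
    split_ifs at h1 <;> omega

theorem Dual.nosplit {a b : ℕ} (h : Dual a b) (ha : Bs a) : NoSplit a ↔ NoSplit b := by
  rw [nosplit_iff t_LAM ha, nosplit_iff t_LAM (h.bs ha)]
  have hf := h.facs ha.1.2.2
  unfold Ker
  rw [hf]
  refine forall_congr' fun c => ?_
  have hmu : ∀ r ∈ a.primeFactors, mu b r = -mu a r := by
    intro r hr
    have h1 := h.fac (Nat.prime_of_mem_primeFactors hr)
    rw [if_pos hr] at h1
    unfold mu
    rw [eq_neg_iff_add_eq_zero, ← Nat.cast_add, add_comm, h1]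
    decide
  have hsum : ∀ p, ∑ r ∈ a.primeFactors, mu b r * lam p r * (c r - c p) =
      -∑ r ∈ a.primeFactors, mu a r * lam p r * (c r - c p) := by
    intro p
    rw [← Finset.sum_neg_distrib]
    refine Finset.sum_congr rfl fun r hr => ?_
    rw [hmu r hr]
    ring
  simp only [hsum, neg_eq_zero]

theorem cube_nine {n : ℕ} (h : ¬ 3 ∣ n) : n ^ 3 % 9 = 1 ∨ n ^ 3 % 9 = 8 := by
  have h1 : n % 9 = 1 ∨ n % 9 = 2 ∨ n % 9 = 4 ∨ n % 9 = 5 ∨ n % 9 = 7 ∨ n % 9 = 8 := by omega
  rw [Nat.pow_mod]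
  rcases h1 with h1 | h1 | h1 | h1 | h1 | h1 <;> rw [h1] <;> norm_num

theorem Dual.mod {a b : ℕ} (h : Dual a b) (ha : Bs a) (h1 : a % 9 ≠ 1) (h8 : a % 9 ≠ 8) :
    b % 9 ≠ 1 ∧ b % 9 ≠ 8 := by
  have h3 : ¬ 3 ∣ ∏ p ∈ a.primeFactors, p := by
    intro hd
    obtain ⟨p, hp, hpd⟩ := (Nat.prime_three.prime.dvd_finsetProd_iff _).1 hd
    have := (Nat.prime_dvd_prime_iff_eq Nat.prime_three (Nat.prime_of_mem_primeFactors hp)).1 hpd
    exact ha.three p hp this.symm
  have h4 := cube_nine h3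
  rw [← h.2, Nat.mul_mod] at h4
  have ha9 : a % 9 < 9 := Nat.mod_lt _ (by norm_num)
  constructor
  · intro hb
    rw [hb, mul_one, Nat.mod_mod] at h4
    omega
  · intro hb
    rw [hb] at h4
    omega

/-- the dual exists -/
theorem exists_dual {a : ℕ} (ha : Bs a) : ∃ b, Dual a b := by
  have hdvd : a ∣ (∏ p ∈ a.primeFactors, p) ^ 3 := by
    rw [← Nat.factorization_le_iff_dvd ha.ne_zero (pow_ne_zero 3 (rad_ne a))]
    intro p
    by_cases hp : p.Prime
    · rw [Nat.factorization_pow, Finsupp.smul_apply, smul_eq_mul, rad_fac hp]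
      have h2 : a.factorization p ≤ 2 := by
        by_contra hcon
        exact ha.1.2.2 p hp ((hp.pow_dvd_iff_le_factorization ha.ne_zero).2 (by omega))
      by_cases h3 : p ∈ a.primeFactors
      · rw [if_pos h3]
        omega
      · rw [if_neg h3]
        have h4 : a.factorization p = 0 := by
          rw [Nat.factorization_eq_zero_of_not_dvd]
          intro h5
          exact h3 (Nat.mem_primeFactors.2 ⟨hp, h5, ha.ne_zero⟩)
        omega
    · rw [Nat.factorization_eq_zero_of_not_prime _ hp]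
      exact Nat.zero_le _
  obtain ⟨b, hb⟩ := hdvd
  exact ⟨b, ha.ne_zero, hb.symm⟩

/-- the product with a new number -/
theorem Dual.mul {a b M : ℕ} (h : Dual a b) (hM : Squarefree M) (hc : Nat.Coprime a M) :
    Dual (a * M) (b * M ^ 2) := by
  refine ⟨mul_ne_zero h.1 hM.ne_zero, ?_⟩
  rw [hc.primeFactors_mul, Finset.prod_union hc.disjoint_primeFactors,
    Nat.prod_primeFactors_of_squarefree hM, mul_pow, ← h.2]
  ring

/-! ## the states -/

/-- the good finite sets -/
structure St (A : Finset ℕ) : Prop where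
  ne : A.Nonempty
  bs : ∀ x ∈ A, Bs x
  ns : ∀ x ∈ A, NoSplit x
  nine : ∀ x ∈ A, x % 9 ≠ 1 ∧ x % 9 ≠ 8
  dual : ∀ x ∈ A, ∃ y ∈ A, Dual x y

/-- the next set -/
noncomputable def nx (A : Finset ℕ) (M : ℕ) : Finset ℕ :=
  A ∪ (A.image fun x => x * M) ∪ A.image fun x => x * M ^ 2

theorem mem_nx {A : Finset ℕ} {M x : ℕ} (hx : x ∈ A) : x ∈ nx A M ∧ x * M ∈ nx A M ∧
    x * M ^ 2 ∈ nx A M := by
  unfold nx
  refine ⟨?_, ?_, ?_⟩
  · exact Finset.mem_union_left _ (Finset.mem_union_left _ hx)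
  · exact Finset.mem_union_left _ (Finset.mem_union_right _ (Finset.mem_image_of_mem _ hx))
  · exact Finset.mem_union_right _ (Finset.mem_image_of_mem _ hx)

theorem of_nx {A : Finset ℕ} {M y : ℕ} (hy : y ∈ nx A M) :
    ∃ x ∈ A, y = x ∨ y = x * M ∨ y = x * M ^ 2 := by
  unfold nx at hy
  rcases Finset.mem_union.1 hy with h | h
  · rcases Finset.mem_union.1 h with h | h
    · exact ⟨y, h, Or.inl rfl⟩
    · obtain ⟨x, hx, rfl⟩ := Finset.mem_image.1 h
      exact ⟨x, hx, Or.inr (Or.inl rfl)⟩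
  · obtain ⟨x, hx, rfl⟩ := Finset.mem_image.1 h
    exact ⟨x, hx, Or.inr (Or.inr rfl)⟩

/-- **The extension.** -/
theorem extend {A : Finset ℕ} (hA : St A) (B : ℕ) :
    ∃ M : ℕ, 1 < M ∧ Squarefree M ∧ (∀ x ∈ A, Nat.Coprime x M) ∧
      (∀ p : ℕ, p.Prime → p ∣ M → p % 3 = 1) ∧ B < M ∧ St (nx A M) := by
  let E := A.equivFin
  let D0 : Fin A.card → ℕ := fun i => (E.symm i : ℕ)
  have hD0 : ∀ i, D0 i ∈ A := fun i => (E.symm i).2
  have hB0 : ∀ i, Bs (D0 i) := fun i => hA.bs _ (hD0 i)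
  have hcard : 0 < A.card := hA.ne.card_pos
  obtain ⟨m, h1, hm9, h2, h3, h4, h5⟩ := Q283.TE.common D0 hB0 hcard
  have hcl : 0 < clsN (fun i => D0 i * m) := by
    rw [Q283.TE.clsN_mul D0 hm9]
    unfold clsN
    refine Finset.card_pos.2 ⟨1, Finset.mem_filter.2 ⟨by simp, fun i => ?_⟩⟩
    rw [mul_one]
    exact hA.nine _ (hD0 i)
  have hlim := comb (fun i => D0 i * m) h4 hcl
  have hpos : 0 < (clsN (fun i => D0 i * m) : ℝ) / 3 * cQ (fun i => D0 i * m) := by
    have : (0 : ℝ) < clsN (fun i => D0 i * m) := by exact_mod_cast hcl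
    positivity
  -- a large good prime
  obtain ⟨l, hlB, hl, hl1, hgood⟩ : ∃ l : ℕ, B < l ∧ l.Prime ∧ l % 3 = 1 ∧
      GoodQ (fun i => D0 i * m) l := by
    by_contra hcon
    push Not at hcon
    -- otherwise the count is bounded
    have hbd : ∀ X : ℕ, CN (GoodQ fun i => D0 i * m) X ≤ B + 1 := by
      intro X
      unfold CN
      refine (Finset.card_le_card (t := Finset.range (B + 1)) fun l hl => ?_).trans
        (by rw [Finset.card_range])
      rw [Finset.mem_filter] at hl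
      rw [Finset.mem_range]
      by_contra hlt
      exact hcon l (by omega) hl.2.1.1 hl.2.1.2 hl.2.2
    have htrue : Tendsto (fun X : ℕ => (CN (fun _ => True) X : ℝ)) atTop atTop := by
      have hinf : {l : ℕ | l.Prime ∧ l % 3 = 1}.Infinite := by
        have := Nat.infinite_setOfPred_prime_and_eq_mod (q := 3) (a := (1 : ZMod 3)) (by decide)
        refine this.mono fun l hl => ⟨hl.1, ?_⟩
        have h6 : ((l : ℕ) : ZMod 3) = ((1 : ℕ) : ZMod 3) := by rw [hl.2, Nat.cast_one]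
        rw [ZMod.natCast_eq_natCast_iff] at h6
        have h7 : l % 3 = 1 % 3 := h6
        simpa using h7
      rw [tendsto_atTop]
      intro b
      obtain ⟨S, hS, hSc⟩ := hinf.exists_subset_card_eq (Nat.ceil b)
      have hSb : ∃ X0, ∀ l ∈ S, l ≤ X0 := ⟨S.sup id, fun l hl => Finset.le_sup (f := id) hl⟩
      obtain ⟨X0, hX0⟩ := hSb
      filter_upwards [eventually_ge_atTop X0] with X hX
      have h8 : S ⊆ (Finset.range (X + 1)).filter fun l => (l.Prime ∧ l % 3 = 1) ∧ True := by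
        intro l hl
        rw [Finset.mem_filter, Finset.mem_range]
        have h9 := hX0 l hl
        have h10 : l.Prime ∧ l % 3 = 1 := hS hl
        exact ⟨by omega, h10, trivial⟩
      have h11 := Finset.card_le_card h8
      rw [hSc] at h11
      have h12 : Nat.ceil b ≤ CN (fun _ => True) X := by
        unfold CN
        convert h11
      exact (Nat.le_ceil b).trans (by exact_mod_cast h12)
    have hz : Tendsto (fun X : ℕ => (CN (GoodQ fun i => D0 i * m) X : ℝ) /
        (CN (fun _ => True) X : ℝ)) atTop (𝓝 0) := by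
      refine squeeze_zero (fun X => by positivity) (fun X => ?_)
        (htrue.const_div_atTop ((B : ℝ) + 1))
      refine div_le_div_of_nonneg_right ?_ (by positivity)
      exact_mod_cast hbd X
    have := tendsto_nhds_unique hlim hz
    linarith
  have hm0 : m ≠ 0 := fun h => by
    rw [h] at h1
    exact not_squarefree_zero h1
  have hall : ∀ x ∈ A, ¬ l ∣ x * m ∧ (x * m * l) % 9 ≠ 1 ∧ (x * m * l) % 9 ≠ 8 ∧
      NoSplit (x * m * l) := by
    intro x hx
    have := hgood (E ⟨x, hx⟩)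
    simp only [D0, Equiv.symm_apply_apply] at this
    exact this
  have hBm : ∀ x ∈ A, Bs (x * m) := by
    intro x hx
    have := h4 (E ⟨x, hx⟩)
    simp only [D0, Equiv.symm_apply_apply] at this
    exact this
  have hmx : ∀ p ∈ m.primeFactors, p % 9 = 1 ∧ ∀ x ∈ A, ¬ p ∣ x := by
    intro p hp
    refine ⟨(h3 p hp).1, fun x hx => ?_⟩
    have := (h3 p hp).2 (E ⟨x, hx⟩)
    simp only [D0, Equiv.symm_apply_apply] at this
    exact this
  obtain ⟨x0, hx0⟩ := hA.ne
  have hlm : ¬ l ∣ m := fun h => (hall x0 hx0).1 (h.mul_left _)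
  have hsq : Squarefree (m * l) := (Nat.squarefree_mul ((Nat.coprime_comm).1
    ((Nat.Prime.coprime_iff_not_dvd hl).2 hlm))).2 ⟨h1, hl.prime.squarefree⟩
  have hco : ∀ x ∈ A, Nat.Coprime x (m * l) := by
    intro x hx
    refine Nat.Coprime.mul_right ?_ ?_
    · refine Nat.coprime_of_dvd fun p hp hpx hpm => ?_
      exact (hmx p (Nat.mem_primeFactors.2 ⟨hp, hpm, hm0⟩)).2 x hx hpx
    · exact ((Nat.Prime.coprime_iff_not_dvd hl).2 fun h => (hall x hx).1 (h.mul_right _)).symm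
  have hM0 : 0 < m := Nat.pos_of_ne_zero hm0
  have hlM : l ≤ m * l := Nat.le_mul_of_pos_left l hM0
  have hbM : ∀ x ∈ A, Bs (x * (m * l)) ∧ NoSplit (x * (m * l)) ∧ x * (m * l) % 9 ≠ 1 ∧
      x * (m * l) % 9 ≠ 8 := by
    intro x hx
    obtain ⟨a1, a2, a3, a4⟩ := hall x hx
    have e1 : x * (m * l) = x * m * l := by ring
    rw [e1]
    exact ⟨bs_mul (hBm x hx) hl hl1 a1, a4, a2, a3⟩
  refine ⟨m * l, lt_of_lt_of_le hl.one_lt hlM, hsq, hco, ?_, lt_of_lt_of_le hlB hlM, ?_⟩
  · intro p hp hpM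
    rcases (Nat.Prime.dvd_mul hp).1 hpM with h6 | h6
    · have := (hmx p (Nat.mem_primeFactors.2 ⟨hp, h6, hm0⟩)).1
      omega
    · rw [(Nat.prime_dvd_prime_iff_eq hp hl).1 h6]
      exact hl1
  · have key : ∀ x ∈ A, ∃ y ∈ A, Dual (x * (m * l)) (y * (m * l) ^ 2) ∧
        Dual (y * (m * l) ^ 2) (x * (m * l)) := by
      intro x hx
      obtain ⟨y, hy, hxy⟩ := hA.dual x hx
      have h6 := hxy.mul hsq (hco x hx)
      exact ⟨y, hy, h6, h6.symm (hbM x hx).1.1.2.2⟩
    have key2 : ∀ y ∈ A, ∃ x ∈ A, Dual (x * (m * l)) (y * (m * l) ^ 2) := by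
      intro y hy
      obtain ⟨x, hx, hyx⟩ := hA.dual y hy
      have h6 := hyx.symm (hA.bs y hy).1.2.2
      exact ⟨x, hx, h6.mul hsq (hco x hx)⟩
    refine ⟨⟨x0, (mem_nx hx0).1⟩, ?_, ?_, ?_, ?_⟩
    · intro z hz
      obtain ⟨x, hx, rfl | rfl | rfl⟩ := of_nx hz
      · exact hA.bs _ hx
      · exact (hbM x hx).1
      · obtain ⟨y, hy, h6⟩ := key2 x hx
        exact h6.bs (hbM y hy).1
    · intro z hz
      obtain ⟨x, hx, rfl | rfl | rfl⟩ := of_nx hz
      · exact hA.ns _ hx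
      · exact (hbM x hx).2.1
      · obtain ⟨y, hy, h6⟩ := key2 x hx
        exact (h6.nosplit (hbM y hy).1).1 (hbM y hy).2.1
    · intro z hz
      obtain ⟨x, hx, rfl | rfl | rfl⟩ := of_nx hz
      · exact hA.nine _ hx
      · exact (hbM x hx).2.2
      · obtain ⟨y, hy, h6⟩ := key2 x hx
        exact h6.mod (hbM y hy).1 (hbM y hy).2.2.1 (hbM y hy).2.2.2
    · intro z hz
      obtain ⟨x, hx, rfl | rfl | rfl⟩ := of_nx hz
      · obtain ⟨y, hy, h6⟩ := hA.dual z hx
        exact ⟨y, (mem_nx hy).1, h6⟩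
      · obtain ⟨y, hy, h6, -⟩ := key x hx
        exact ⟨_, (mem_nx hy).2.2, h6⟩
      · obtain ⟨y, hy, h6⟩ := key2 x hx
        exact ⟨_, (mem_nx hy).2.1, h6.symm (hbM y hy).1.1.2.2⟩

/-- the beginning -/
theorem start {D : ℕ} (hD : Cls D) (hS : NoSplit D) : ∃ A : Finset ℕ, St A ∧ D ∈ A := by
  have hB : Bs D := ⟨hD.1, hD.2.2.2⟩
  obtain ⟨b, hb⟩ := exists_dual hB
  have hs := hb.symm hB.1.2.2
  refine ⟨{D, b}, ⟨⟨D, by simp⟩, ?_, ?_, ?_, ?_⟩, by simp⟩
  · intro x hx
    rcases (by simpa using hx : x = D ∨ x = b) with rfl | rfl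
    · exact hB
    · exact hb.bs hB
  · intro x hx
    rcases (by simpa using hx : x = D ∨ x = b) with rfl | rfl
    · exact hS
    · exact (hb.nosplit hB).1 hS
  · intro x hx
    rcases (by simpa using hx : x = D ∨ x = b) with rfl | rfl
    · exact ⟨hD.2.1, hD.2.2.1⟩
    · exact hb.mod hB hD.2.1 hD.2.2.1
  · intro x hx
    rcases (by simpa using hx : x = D ∨ x = b) with rfl | rfl
    · exact ⟨b, by simp, hb⟩
    · exact ⟨D, by simp, hs⟩

/-- **The infinite sequence.** -/
theorem exists_seq {D : ℕ} (hD : Cls D) (hS : NoSplit D) (B : ℕ → ℕ) :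
    ∃ M : ℕ → ℕ, (∀ j, B j < M j ∧ 1 < M j ∧ Squarefree (M j) ∧
        (∀ p : ℕ, p.Prime → p ∣ M j → p % 3 = 1) ∧ Nat.Coprime D (M j)) ∧
      (∀ i j, i ≠ j → Nat.Coprime (M i) (M j)) ∧
      ∀ (k : ℕ) (e : Fin k → ZMod 3), Cls (tw D (fun j : Fin k => M j) e) ∧
        NoSplit (tw D (fun j : Fin k => M j) e) := by
  obtain ⟨A0, hA0, hDA⟩ := start hD hS
  choose nextM g1 g2 g3 g4 g5 g6 using fun (A : {A : Finset ℕ // St A}) (b : ℕ) => extend A.2 b
  let S : ℕ → {A : Finset ℕ // St A} := fun j => Nat.rec ⟨A0, hA0⟩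
    (fun j A => ⟨nx A.1 (nextM A (B j)), g6 A (B j)⟩) j
  let M : ℕ → ℕ := fun j => nextM (S j) (B j)
  have hSs : ∀ j, (S (j + 1)).1 = nx (S j).1 (M j) := fun j => rfl
  have hsub : ∀ i j, i ≤ j → ∀ x ∈ (S i).1, x ∈ (S j).1 := by
    intro i j hij
    induction j, hij using Nat.le_induction with
    | base => exact fun x hx => hx
    | succ j _ ih =>
      intro x hx
      rw [hSs]
      exact (mem_nx (ih x hx)).1
  have hDS : ∀ j, D ∈ (S j).1 := fun j => hsub 0 j (Nat.zero_le j) D hDA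
  have hmem : ∀ (k : ℕ) (e : Fin k → ZMod 3), tw D (fun j : Fin k => M j) e ∈ (S k).1 := by
    intro k
    induction k with
    | zero =>
      intro e
      unfold tw
      rw [Finset.univ_eq_empty, Finset.prod_empty, mul_one]
      exact hDA
    | succ k ih =>
      intro e
      have h1 := ih (fun j => e j.castSucc)
      have h2 : tw D (fun j : Fin (k + 1) => M j) e =
          tw D (fun j : Fin k => M j) (fun j => e j.castSucc) * M k ^ (e (Fin.last k)).val := by
        unfold tw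
        rw [Fin.prod_univ_castSucc]
        simp only [Fin.val_castSucc, Fin.val_last]
        ring
      rw [h2, hSs]
      have h3 := mem_nx (M := M k) h1
      have h4 : ∀ c : ZMod 3, c = 0 ∨ c = 1 ∨ c = 2 := by decide
      rcases h4 (e (Fin.last k)) with h5 | h5 | h5
      · rw [h5, ZMod.val_zero, pow_zero, mul_one]
        exact h3.1
      · rw [h5]
        have : (1 : ZMod 3).val = 1 := by decide
        rw [this, pow_one]
        exact h3.2.1
      · rw [h5]
        exact h3.2.2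
  have hcop : ∀ i j, i < j → Nat.Coprime (M i) (M j) := by
    intro i j hij
    have h1 : D * M i ∈ (S (i + 1)).1 := by
      rw [hSs]
      exact (mem_nx (hDS i)).2.1
    have h2 := g3 (S j) (B j) _ (hsub (i + 1) j hij _ h1)
    exact Nat.Coprime.coprime_mul_left h2
  refine ⟨M, fun j => ⟨g5 _ _, g1 _ _, g2 _ _, g4 _ _, g3 (S j) (B j) D (hDS j)⟩,
    fun i j hij => ?_, fun k e => ?_⟩
  · rcases lt_or_gt_of_ne hij with h | h
    · exact hcop i j h
    · exact (hcop j i h).symm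
  · have h1 := hmem k e
    have hSt := (S k).2
    refine ⟨?_, hSt.ns _ h1⟩
    exact (cls_iff (hSt.bs _ h1)).2 (hSt.nine _ h1)

/-- **The towers.** -/
theorem towers {D : ℕ} (hD : Cls D) (hS : NoSplit D) (B : ℕ → ℕ) :
    ∃ M : ℕ → ℕ, (∀ j, B j < M j ∧ 1 < M j ∧ Squarefree (M j) ∧
        (∀ p : ℕ, p.Prime → p ∣ M j → p % 3 = 1) ∧ Nat.Coprime D (M j)) ∧
      (∀ i j, i ≠ j → Nat.Coprime (M i) (M j)) ∧
      ∀ (k : ℕ) (F : Type) [Field F] [NumberField F] (θ : Fin k → F),
        (∀ j, θ j ^ 3 = (M j : F)) →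
        IntermediateField.adjoin ℚ ({x : F | x ^ 3 = 1} ∪ Set.range θ) = ⊤ →
        3 ^ k ∣ Module.finrank ℚ F ∧ RankZero D (fun j : Fin k => M j) F := by
  obtain ⟨M, h1, h2, h3⟩ := exists_seq hD hS B
  refine ⟨M, h1, h2, fun k F _ _ θ hθ hgen => ?_⟩
  have hind : Ind (fun j : Fin k => M j) := ind_of (fun j => (h1 j).2.1) (fun j => (h1 j).2.2.1)
    fun i j hij => h2 i j fun h => hij (Fin.ext h)
  refine ⟨deg_dvd hθ hind, ?_⟩
  obtain ⟨r, hr⟩ := rd_of hθ hind hgen
  exact tf hr hD.1.1 (fun j => hind.ne_zero j) (D := tw D fun j : Fin k => M j) (c := fun _ => 1)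
    (fun e => by rw [one_pow, mul_one]) (fun e => (h3 k e).1) fun e => (h3 k e).2

end Q283.MC
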